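import Pool.Agent.Work.MP_7cd6c4_gt.Sector

open MeasureTheory Set Real
open scoped Interval

namespace Pool.Agent.EscapeBall

theorem continuous_gf : Continuous gf := by
  unfold gf
  apply Continuous.div (by fun_prop) (by fun_prop)
  intro t
  have : 1 ≤ max t 1 := le_max_right _ _
  linarith

theorem gf_nonneg (t : ℝ) : 0 ≤ gf t := by
  unfold gf
  have : 1 ≤ max t 1 := le_max_right _ _
  positivity

theorem gf_of_le_one {t : ℝ} (h0 : 0 ≤ t) (h : t ≤ 1) : gf t = 0 := by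
  unfold gf
  rw [Real.sqrt_eq_zero_of_nonpos (by nlinarith), zero_div]

theorem gf_of_one_le {t : ℝ} (h : 1 ≤ t) : gf t = √(t ^ 2 - 1) / t := by
  unfold gf
  rw [max_eq_left h]

/-- The key inequality: a perfect square. -/
theorem gf_le {t : ℝ} (ht : 0 ≤ t) : gf t ≤ t / 2 := by
  rcases le_or_gt t 1 with h | h
  · rw [gf_of_le_one ht h]
    linarith
  · rw [gf_of_one_le h.le]
    have h1 : √(t ^ 2 - 1) ≤ t ^ 2 / 2 := by
      rw [Real.sqrt_le_left (by positivity)]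
      nlinarith [sq_nonneg (t ^ 2 - 2)]
    rw [div_le_iff₀ (by linarith)]
    nlinarith

/-- The cost density `t - 2 θ √(1 - 1/t²)` at line distance `t`. -/
noncomputable def psi (θ t : ℝ) : ℝ := t - 2 * θ * gf t

theorem continuous_psi (θ : ℝ) : Continuous (psi θ) := by
  unfold psi
  have := continuous_gf
  fun_prop

theorem psi_one_nonneg {t : ℝ} (ht : 0 ≤ t) : 0 ≤ psi 1 t := by
  unfold psi
  have := gf_le ht
  linarith

theorem psi_of_le_one {θ t : ℝ} (h0 : 0 ≤ t) (h : t ≤ 1) : psi θ t = t := by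
  unfold psi
  rw [gf_of_le_one h0 h]
  ring

theorem psi_ge {θ t : ℝ} (hθ : 0 ≤ θ) (ht : 0 ≤ t) : (1 - θ) * t ≤ psi θ t := by
  unfold psi
  have := mul_le_mul_of_nonneg_left (gf_le ht) hθ
  linarith

/-- `bf θ r ψ` is the loss of potential when the direction makes the angle `ψ` with the radius. -/
noncomputable def bf (θ r ψ : ℝ) : ℝ := ∫ σ in (0:ℝ)..ψ, psi θ (r * sin σ)

/-- Potential at radius `r` of a line at distance `p`, moving outward. -/
noncomputable def cc (θ r p : ℝ) : ℝ := ∫ σ in arcsin (p / r)..(π / 2), psi θ (r * sin σ)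

theorem continuous_psi_sin (θ r : ℝ) : Continuous fun σ => psi θ (r * sin σ) :=
  (continuous_psi θ).comp (by fun_prop)

theorem ii_psi (θ r a b : ℝ) :
    IntervalIntegrable (fun σ => psi θ (r * sin σ)) volume a b :=
  (continuous_psi_sin θ r).intervalIntegrable _ _

theorem bf_mono {r ψ₁ ψ₂ : ℝ} (hr : 0 ≤ r) (h0 : 0 ≤ ψ₁) (h : ψ₁ ≤ ψ₂) (hπ : ψ₂ ≤ π) :
    bf 1 r ψ₁ ≤ bf 1 r ψ₂ := by
  unfold bf
  rw [← intervalIntegral.integral_add_adjacent_intervals (b := ψ₁)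
    (ii_psi 1 r 0 ψ₁) (ii_psi 1 r ψ₁ ψ₂)]
  have : 0 ≤ ∫ σ in ψ₁..ψ₂, psi 1 (r * sin σ) := by
    apply intervalIntegral.integral_nonneg h
    intro σ hσ
    exact psi_one_nonneg (mul_nonneg hr (Real.sin_nonneg_of_nonneg_of_le_pi
      (h0.trans hσ.1) (hσ.2.trans hπ)))
  linarith

theorem arcsin_mem {r p : ℝ} (hr : 0 < r) (hp : 0 ≤ p) (hpr : p ≤ r) :
    0 ≤ arcsin (p / r) ∧ arcsin (p / r) ≤ π / 2 ∧ r * sin (arcsin (p / r)) = p := by
  have h1 : p / r ≤ 1 := by rw [div_le_one hr]; exact hpr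
  have h0 : 0 ≤ p / r := by positivity
  refine ⟨Real.arcsin_nonneg.2 h0, Real.arcsin_le_pi_div_two _, ?_⟩
  rw [Real.sin_arcsin (by linarith) h1]
  field_simp

theorem cos_arcsin_mul {r p : ℝ} (hr : 0 < r) : r * cos (arcsin (p / r)) = √(r ^ 2 - p ^ 2) := by
  rw [Real.cos_arcsin]
  have h : r ^ 2 - p ^ 2 = r ^ 2 * (1 - (p / r) ^ 2) := by
    field_simp
  rw [h, Real.sqrt_mul (by positivity), Real.sqrt_sq hr.le]

/-- Weight of the change of radius. -/
noncomputable def wt (k σ : ℝ) : ℝ := k * cos σ / √(1 - (k * sin σ) ^ 2)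

theorem k_sin_lt {k : ℝ} (hk0 : 0 < k) (hk1 : k < 1) (σ : ℝ) : |k * sin σ| < 1 := by
  rw [abs_mul, abs_of_pos hk0]
  have := Real.abs_sin_le_one σ
  nlinarith [abs_nonneg (sin σ)]

theorem k_sin_pos {k : ℝ} (hk0 : 0 < k) (hk1 : k < 1) (σ : ℝ) : 0 < 1 - (k * sin σ) ^ 2 := by
  have h := sq_lt_one_iff_abs_lt_one (k * sin σ) |>.2 (k_sin_lt hk0 hk1 σ)
  linarith

theorem continuous_wt {k : ℝ} (hk0 : 0 < k) (hk1 : k < 1) : Continuous (wt k) := by
  unfold wt
  apply Continuous.div (by fun_prop) (by fun_prop)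
  intro σ
  exact (Real.sqrt_pos.2 (k_sin_pos hk0 hk1 σ)).ne'

theorem wt_mem {k : ℝ} (hk0 : 0 < k) (hk1 : k < 1) {σ : ℝ} (h0 : 0 ≤ σ) (h1 : σ ≤ π / 2) :
    0 ≤ wt k σ ∧ wt k σ ≤ 1 := by
  have hc : 0 ≤ cos σ := Real.cos_nonneg_of_neg_pi_div_two_le_of_le
    (by linarith [Real.pi_pos]) h1
  have hp := k_sin_pos hk0 hk1 σ
  constructor
  · unfold wt
    positivity
  · unfold wt
    rw [div_le_one (Real.sqrt_pos.2 hp)]
    apply Real.le_sqrt_of_sq_le
    have := Real.sin_sq_add_cos_sq σ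
    have hkk : k ^ 2 ≤ 1 := by nlinarith
    have e : (k * cos σ) ^ 2 + (k * sin σ) ^ 2 = k ^ 2 := by
      linear_combination (k ^ 2) * this
    linarith

/-- Change of variables between two radii at the same line distance. -/
theorem change_radius (h : ℝ → ℝ) (hh : Continuous h) {r₁ r₂ : ℝ} (h1 : 0 < r₁) (h12 : r₁ < r₂)
    (s₀ s₁ : ℝ) :
    ∫ σ in arcsin (r₁ / r₂ * sin s₀)..arcsin (r₁ / r₂ * sin s₁), h (r₂ * sin σ) =
      ∫ σ in s₀..s₁, h (r₁ * sin σ) * wt (r₁ / r₂) σ := by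
  have h2 : 0 < r₂ := h1.trans h12
  have hk0 : 0 < r₁ / r₂ := by positivity
  have hk1 : r₁ / r₂ < 1 := by rw [div_lt_one h2]; exact h12
  set k := r₁ / r₂ with hk
  have habs := k_sin_lt hk0 hk1
  have hder : ∀ σ ∈ [[s₀, s₁]], HasDerivAt (fun σ => arcsin (k * sin σ)) (wt k σ) σ := by
    intro σ _
    have h3 : HasDerivAt (fun σ => k * sin σ) (k * cos σ) σ :=
      (Real.hasDerivAt_sin σ).const_mul k
    have h4 := (Real.hasDerivAt_arcsin (x := k * sin σ)
      (by have := abs_lt.1 (habs σ); exact this.1.ne')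
      (by have := abs_lt.1 (habs σ); exact this.2.ne)).comp σ h3
    have e : wt k σ = 1 / √(1 - (k * sin σ) ^ 2) * (k * cos σ) := by
      unfold wt
      ring
    rw [e]
    exact h4
  have hchange := intervalIntegral.integral_comp_mul_deriv hder
    (continuous_wt hk0 hk1).continuousOn
    (hh.comp (by fun_prop : Continuous fun σ => r₂ * sin σ))
  simp only [Function.comp_def] at hchange
  rw [← hchange]
  apply intervalIntegral.integral_congr
  intro σ _
  simp only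
  rw [Real.sin_arcsin (abs_lt.1 (habs σ)).1.le (abs_lt.1 (habs σ)).2.le]
  congr 2
  rw [hk]
  field_simp

theorem arcsin_change {r₁ r₂ p : ℝ} (h1 : 0 < r₁) (hp : 0 ≤ p) (hpr : p ≤ r₁) :
    r₁ / r₂ * sin (arcsin (p / r₁)) = p / r₂ := by
  have := (arcsin_mem h1 hp hpr).2.2
  rw [div_mul_eq_mul_div, this]

theorem cc_sub (θ r p q : ℝ) : cc θ r p - cc θ r q =
    ∫ σ in arcsin (p / r)..arcsin (q / r), psi θ (r * sin σ) := by
  unfold cc
  rw [intervalIntegral.integral_interval_sub_interval_comm (ii_psi _ _ _ _) (ii_psi _ _ _ _)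
    (ii_psi _ _ _ _)]
  simp

theorem cc_self {r : ℝ} (θ : ℝ) (hr : 0 < r) : cc θ r r = 0 := by
  unfold cc
  rw [div_self hr.ne', Real.arcsin_one]
  simp

/-- The potential is nonincreasing in the line distance. -/
theorem cc_anti {r p q : ℝ} (hr : 0 < r) (hp : 0 ≤ p) (hpq : p ≤ q) (hq : q ≤ r) :
    cc 1 r q ≤ cc 1 r p := by
  rw [← sub_nonneg, cc_sub]
  have hle : arcsin (p / r) ≤ arcsin (q / r) :=
    Real.monotone_arcsin (div_le_div_of_nonneg_right hpq hr.le)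
  apply intervalIntegral.integral_nonneg hle
  intro σ hσ
  have h0 := (arcsin_mem hr hp (hpq.trans hq)).1
  have h1 := (arcsin_mem hr (hp.trans hpq) hq).2.1
  exact psi_one_nonneg (mul_nonneg hr.le (Real.sin_nonneg_of_nonneg_of_le_pi
    (h0.trans hσ.1) ((hσ.2.trans h1).trans (by linarith [Real.pi_pos]))))

theorem cc_nonneg {r p : ℝ} (hr : 0 < r) (hp : 0 ≤ p) (hpr : p ≤ r) : 0 ≤ cc 1 r p := by
  have := cc_anti hr hp hpr le_rfl
  rwa [cc_self 1 hr] at this

/-- Comparison of potential differences at two radii. -/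
theorem cc_super {r₁ r₂ p q : ℝ} (h1 : 0 < r₁) (h12 : r₁ ≤ r₂) (hp : 0 ≤ p) (hpq : p ≤ q)
    (hq : q ≤ r₁) : cc 1 r₂ p - cc 1 r₁ p ≤ cc 1 r₂ q - cc 1 r₁ q := by
  rcases eq_or_lt_of_le h12 with heq | hlt
  · rw [← heq]; simp
  suffices cc 1 r₂ p - cc 1 r₂ q ≤ cc 1 r₁ p - cc 1 r₁ q by linarith
  rw [cc_sub, cc_sub, ← arcsin_change (r₂ := r₂) h1 hp (hpq.trans hq),
    ← arcsin_change (r₂ := r₂) h1 (hp.trans hpq) hq,
    change_radius (psi 1) (continuous_psi 1) h1 hlt]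
  have hle : arcsin (p / r₁) ≤ arcsin (q / r₁) :=
    Real.monotone_arcsin (div_le_div_of_nonneg_right hpq h1.le)
  have h2 : 0 < r₂ := h1.trans hlt
  have hk0 : 0 < r₁ / r₂ := by positivity
  have hk1 : r₁ / r₂ < 1 := by rw [div_lt_one h2]; exact hlt
  apply intervalIntegral.integral_mono_on hle
  · exact ((continuous_psi_sin 1 r₁).mul (continuous_wt hk0 hk1)).intervalIntegrable _ _
  · exact ii_psi _ _ _ _
  · intro σ hσ
    have h0 := (arcsin_mem h1 hp (hpq.trans hq)).1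
    have h3 := (arcsin_mem h1 (hp.trans hpq) hq).2.1
    have hw := wt_mem hk0 hk1 (h0.trans hσ.1) (hσ.2.trans h3)
    have hpsi : 0 ≤ psi 1 (r₁ * sin σ) := psi_one_nonneg (mul_nonneg h1.le
      (Real.sin_nonneg_of_nonneg_of_le_pi (h0.trans hσ.1)
      ((hσ.2.trans h3).trans (by linarith [Real.pi_pos]))))
    nlinarith [hw.1, hw.2]

theorem integral_sin_arcsin {r : ℝ} (hr : 0 < r) (p q : ℝ) :
    ∫ σ in arcsin (p / r)..arcsin (q / r), r * sin σ = √(r ^ 2 - p ^ 2) - √(r ^ 2 - q ^ 2) := by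
  rw [intervalIntegral.integral_const_mul, integral_sin, ← cos_arcsin_mul hr,
    ← cos_arcsin_mul hr]
  ring

/-- difference of the potentials of lines meeting the unit ball -/
theorem cc_sub_small {θ r p q : ℝ} (hr : 0 < r) (hp : 0 ≤ p) (hpq : p ≤ q) (hq : q ≤ 1)
    (hqr : q ≤ r) : cc θ r p - cc θ r q = √(r ^ 2 - p ^ 2) - √(r ^ 2 - q ^ 2) := by
  rw [cc_sub, ← integral_sin_arcsin hr]
  apply intervalIntegral.integral_congr
  intro σ hσ
  have hle : arcsin (p / r) ≤ arcsin (q / r) :=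
    Real.monotone_arcsin (div_le_div_of_nonneg_right hpq hr.le)
  rw [uIcc_of_le hle] at hσ
  have h0 := (arcsin_mem hr hp (hpq.trans hqr)).1
  have h3 := (arcsin_mem hr (hp.trans hpq) hqr).2
  have hs : 0 ≤ r * sin σ := mul_nonneg hr.le (Real.sin_nonneg_of_nonneg_of_le_pi
      (h0.trans hσ.1) ((hσ.2.trans h3.1).trans (by linarith [Real.pi_pos])))
  have hs2 : r * sin σ ≤ q := by
    rw [← h3.2]
    apply mul_le_mul_of_nonneg_left _ hr.le
    apply Real.sin_le_sin_of_le_of_le_pi_div_two _ h3.1 hσ.2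
    linarith [h0.trans hσ.1, Real.pi_pos]
  exact psi_of_le_one hs (hs2.trans hq)

end Pool.Agent.EscapeBall
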