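import Pool.Agent.Work.MP_7cd6c4_gt.Wedge

open MeasureTheory Set Real
open scoped RealInnerProductSpace ENNReal

namespace Pool.Agent.EscapeBall

/-- squared radius of the horizontal slice of the cap at height `z` -/
noncomputable def slice (r z : ℝ) : ℝ := min (1 - z ^ 2) ((r ^ 2 - 1) * z ^ 2)

theorem mem_cap_axis_iff (b : OrthonormalBasis (Fin 3) ℝ E3) {r : ℝ} (hr : 1 ≤ r)
    {ρ φ z : ℝ} (hρ : 0 < ρ) :
    (pt b (ρ * cos φ) (ρ * sin φ) z ∈ cap (r • b 2)) ↔ (0 < z ∧ ρ ^ 2 ≤ slice r z) := by
  set v := pt b (ρ * cos φ) (ρ * sin φ) z with hv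
  have hn : ‖v‖ ^ 2 = ρ ^ 2 + z ^ 2 := by
    rw [hv, norm_sq_pt]
    have := Real.sin_sq_add_cos_sq φ
    linear_combination (ρ ^ 2) * this
  have hn0 : 0 < ‖v‖ := by
    have : 0 < ‖v‖ ^ 2 := by rw [hn]; positivity
    exact lt_of_le_of_ne (norm_nonneg _) (fun h => by rw [← h] at this; simp at this)
  have hne : v ≠ 0 := norm_pos_iff.1 hn0
  have hx : ⟪r • b 2, v⟫ = r * z := by
    rw [real_inner_smul_left, hv, inner_pt]; simp
  simp only [cap, mem_ofPred_eq, hx, slice, le_min_iff]
  constructor
  · rintro ⟨-, h1, h2⟩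
    have hz : 0 < z := by
      have : 0 < r * z := lt_of_lt_of_le hn0 h2
      exact (pos_iff_pos_of_mul_pos this).1 (by linarith)
    refine ⟨hz, ?_, ?_⟩
    · nlinarith [norm_nonneg v]
    · have := pow_le_pow_left₀ (norm_nonneg v) h2 2
      rw [hn] at this
      linarith
  · rintro ⟨hz, h1, h2⟩
    refine ⟨hne, ?_, ?_⟩
    · nlinarith [norm_nonneg v]
    · apply le_of_sq_le_sq _ (by positivity)
      rw [hn]
      linarith

theorem integral_slice {r : ℝ} (hr : 1 ≤ r) :
    ∫ z in (0:ℝ)..1, π * slice r z = 2 * π / 3 * (1 - 1 / r) := by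
  have hr0 : 0 < r := by linarith
  have hinv : 1 / r ≤ 1 := by rw [div_le_one hr0]; exact hr
  have hinv0 : 0 < 1 / r := by positivity
  have hc : Continuous (slice r) := by unfold slice; fun_prop
  rw [intervalIntegral.integral_const_mul,
    ← intervalIntegral.integral_add_adjacent_intervals (b := 1 / r)
      (hc.intervalIntegrable _ _) (hc.intervalIntegrable _ _)]
  have e1 : ∫ z in (0:ℝ)..(1 / r), slice r z = ∫ z in (0:ℝ)..(1 / r), (r ^ 2 - 1) * z ^ 2 := by
    apply intervalIntegral.integral_congr
    intro z hz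
    rw [uIcc_of_le hinv0.le] at hz
    simp only [slice]
    apply min_eq_right
    have : z ^ 2 * r ^ 2 ≤ 1 := by
      rw [← mul_pow]
      apply pow_le_one₀ (mul_nonneg hz.1 hr0.le)
      have := hz.2
      rwa [le_div_iff₀ hr0] at this
    nlinarith
  have e2 : ∫ z in (1 / r)..1, slice r z = ∫ z in (1 / r)..1, (1 - z ^ 2) := by
    apply intervalIntegral.integral_congr
    intro z hz
    rw [uIcc_of_le hinv] at hz
    simp only [slice]
    apply min_eq_left
    have : 1 ≤ z ^ 2 * r ^ 2 := by
      rw [← mul_pow]
      apply one_le_pow₀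
      have := hz.1
      rwa [div_le_iff₀ hr0] at this
    nlinarith
  rw [e1, e2, intervalIntegral.integral_const_mul, integral_pow,
    intervalIntegral.integral_sub (by simp) (by apply Continuous.intervalIntegrable; fun_prop),
    intervalIntegral.integral_const, integral_pow]
  simp only [smul_eq_mul, one_div, inv_pow]
  field_simp
  ring

theorem volume_cap_axis (b : OrthonormalBasis (Fin 3) ℝ E3) {r : ℝ} (hr : 1 ≤ r) :
    volume (cap (r • b 2)) = ENNReal.ofReal (2 * π / 3 * (1 - 1 / r)) := by
  have hSm : MeasurableSet (cap (r • b 2)) := measurableSet_cap _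
  rw [← lintegral_indicator_one hSm, lintegral_cyl b _ (measurable_one.indicator hSm)]
  have key : ∀ z : ℝ, ∫⁻ p in polarCoord.target, ENNReal.ofReal p.1 *
      (cap (r • b 2)).indicator 1 (pt b (p.1 * cos p.2) (p.1 * sin p.2) z) =
      (Ioc (0:ℝ) 1).indicator (fun z => ENNReal.ofReal (π * slice r z)) z := by
    intro z
    by_cases hz : z ∈ Ioc (0:ℝ) 1
    · rw [indicator_of_mem hz]
      have hs0 : 0 ≤ slice r z := by
        have := hz.1
        have := hz.2
        apply le_min
        · nlinarith
        · have : 0 ≤ r ^ 2 - 1 := by nlinarith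
          positivity
      have hset : ∀ p : ℝ × ℝ, polarCoord.target.indicator (fun p => ENNReal.ofReal p.1 *
          (cap (r • b 2)).indicator 1 (pt b (p.1 * cos p.2) (p.1 * sin p.2) z)) p =
          (Ioc (0:ℝ) (√(slice r z)) ×ˢ Ioo (-π) π).indicator
            (fun p : ℝ × ℝ => ENNReal.ofReal p.1) p := by
        rintro ⟨ρ, φ⟩
        by_cases hp : (ρ, φ) ∈ polarCoord.target
        · rw [indicator_of_mem hp]
          have hp' : 0 < ρ ∧ φ ∈ Ioo (-π) π := by
            rw [polarCoord_target] at hp; exact ⟨hp.1, hp.2⟩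
          have hiff := mem_cap_axis_iff b hr (z := z) (φ := φ) hp'.1
          by_cases hm : pt b (ρ * cos φ) (ρ * sin φ) z ∈ cap (r • b 2)
          · rw [indicator_of_mem hm, indicator_of_mem]
            · simp
            · exact ⟨⟨hp'.1, Real.le_sqrt_of_sq_le (hiff.1 hm).2⟩, hp'.2⟩
          · rw [indicator_of_notMem hm, indicator_of_notMem]
            · simp
            · rintro ⟨⟨h1, h2⟩, -⟩
              apply hm
              rw [hiff]
              exact ⟨hz.1, (Real.le_sqrt hp'.1.le hs0).1 h2⟩
        · rw [indicator_of_notMem hp, indicator_of_notMem]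
          rintro ⟨h1, h2⟩
          apply hp
          rw [polarCoord_target]
          exact ⟨h1.1, h2⟩
      rw [← lintegral_indicator polarCoord.open_target.measurableSet]
      simp_rw [hset]
      rw [lintegral_indicator (measurableSet_Ioc.prod measurableSet_Ioo), Measure.volume_eq_prod,
        ← Measure.prod_restrict, lintegral_prod _ (by fun_prop)]
      simp only [lintegral_const, Measure.restrict_apply MeasurableSet.univ, univ_inter,
        Real.volume_Ioo]
      rw [lintegral_mul_const _ (by fun_prop), ← setLIntegral_congr Ioc_ae_eq_Icc.symm,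
        lintegral_Icc_id le_rfl (Real.sqrt_nonneg _), Real.sq_sqrt hs0,
        ← ENNReal.ofReal_mul (by linarith)]
      congr 1
      ring
    · rw [indicator_of_notMem hz, ← lintegral_indicator polarCoord.open_target.measurableSet]
      have hset : ∀ p : ℝ × ℝ, polarCoord.target.indicator (fun p => ENNReal.ofReal p.1 *
          (cap (r • b 2)).indicator 1 (pt b (p.1 * cos p.2) (p.1 * sin p.2) z)) p = 0 := by
        rintro ⟨ρ, φ⟩
        by_cases hp : (ρ, φ) ∈ polarCoord.target
        · rw [indicator_of_mem hp]
          have hp' : 0 < ρ ∧ φ ∈ Ioo (-π) π := by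
            rw [polarCoord_target] at hp; exact ⟨hp.1, hp.2⟩
          rw [indicator_of_notMem]
          · simp
          · intro hm
            obtain ⟨h1, h2⟩ := (mem_cap_axis_iff b hr (z := z) (φ := φ) hp'.1).1 hm
            apply hz
            refine ⟨h1, ?_⟩
            have h3 : 0 < ρ ^ 2 := by have := hp'.1; positivity
            have h4 := h2.trans (min_le_left _ _)
            nlinarith
        · rw [indicator_of_notMem hp]
      simp_rw [hset]
      simp
  simp_rw [key]
  rw [lintegral_indicator measurableSet_Ioc, ← ofReal_integral_eq_lintegral_ofReal]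
  · rw [← intervalIntegral.integral_of_le zero_le_one, integral_slice hr]
  · have hc : Continuous fun z => π * slice r z := by unfold slice; fun_prop
    exact (hc.integrableOn_Icc (a := 0) (b := 1)).mono_set Ioc_subset_Icc_self
  · refine (ae_restrict_iff' measurableSet_Ioc).2 (Filter.Eventually.of_forall fun z hz => ?_)
    have hs0 : 0 ≤ slice r z := by
      have := hz.1
      have := hz.2
      apply le_min
      · nlinarith
      · have : 0 ≤ r ^ 2 - 1 := by nlinarith
        positivity
    simp only [Pi.zero_apply]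
    positivity

end Pool.Agent.EscapeBall
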