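import Pool.Agent.Work.MP_7cd6c4_gt.Data

namespace Pool.Agent.EscapeBall

/-- Dot product of triples. -/
def tdot {R : Type*} [Mul R] [Add R] (p q : R × R × R) : R :=
  p.1 * q.1 + p.2.1 * q.2.1 + p.2.2 * q.2.2

/-- Cross product of triples. -/
def tcross {R : Type*} [Mul R] [Sub R] (p q : R × R × R) : R × R × R :=
  (p.2.1 * q.2.2 - p.2.2 * q.2.1, p.2.2 * q.1 - p.1 * q.2.2, p.1 * q.2.1 - p.2.1 * q.1)

/-- Difference of triples. -/
def tsub {R : Type*} [Sub R] (p q : R × R × R) : R × R × R :=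
  (p.1 - q.1, p.2.1 - q.2.1, p.2.2 - q.2.2)

/-- The vertex number `i`. -/
def vtx (i : ℕ) : ℤ × ℤ × ℤ := verts.getD i (0, 0, 0)

/-- The facet number `k`. -/
def fct (k : ℕ) : ℕ × ℕ × ℕ × ℕ × ℕ × ℕ := facets.getD k (0, 0, 0, 0, 0, 0)

/-- Normal of a triangle. -/
def tnrm {R : Type*} [Mul R] [Sub R] (a b c : R × R × R) : R × R × R :=
  tcross (tsub b a) (tsub c a)

/-- Normal of the facet `k`. -/
def fnrm (k : ℕ) : ℤ × ℤ × ℤ := tnrm (vtx (fct k).1) (vtx (fct k).2.1) (vtx (fct k).2.2.1)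

/-- Offset of the facet `k`. -/
def foff (k : ℕ) : ℤ := tdot (fnrm k) (vtx (fct k).1)

/-- Check of the facet `g` across the edge `b, c` opposite to `a`. -/
def okNb (g : ℕ) (a b c : ℤ × ℤ × ℤ) : Bool :=
  decide (g < facets.length) && decide (tdot (fnrm g) b = foff g) &&
    decide (tdot (fnrm g) c = foff g) && decide (tdot (fnrm g) a < foff g)

/-- The common denominator. -/
def den : ℤ := 1000000

/-- Check of the facet `k`. -/
def okF (k : ℕ) : Bool :=
  decide (0 < foff k) && decide (den ^ 2 * tdot (fnrm k) (fnrm k) ≤ foff k ^ 2) &&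
    (decide ((fct k).1 ≤ 180) && decide ((fct k).2.1 ≤ 180) && decide ((fct k).2.2.1 ≤ 180)) &&
    (okNb (fct k).2.2.2.1 (vtx (fct k).1) (vtx (fct k).2.1) (vtx (fct k).2.2.1) &&
    okNb (fct k).2.2.2.2.1 (vtx (fct k).2.1) (vtx (fct k).1) (vtx (fct k).2.2.1) &&
    okNb (fct k).2.2.2.2.2 (vtx (fct k).2.2.1) (vtx (fct k).1) (vtx (fct k).2.1))

set_option maxRecDepth 100000 in
theorem okF_all : ((List.range 356).all okF) = true := by decide +kernel

theorem facets_length : facets.length = 356 := by decide +kernel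

/-- Check of the edge `i`. -/
def okE (i : ℕ) : Bool :=
  decide (0 ≤ edges.getD i 0) &&
    decide (tdot (tsub (vtx (i + 1)) (vtx i)) (tsub (vtx (i + 1)) (vtx i)) ≤ edges.getD i 0 ^ 2)

theorem okE_all : ((List.range 180).all okE) = true := by decide +kernel

theorem edges_sum : ((List.range 180).map fun i => edges.getD i 0).sum ≤ 11573000 := by
  decide +kernel

theorem vtx_zero : vtx 0 = (0, 0, 0) := by decide +kernel

end Pool.Agent.EscapeBall
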