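import Pool.Agent.Work.MP_7cd6c4_gt.State

open MeasureTheory Set Real
open scoped RealInnerProductSpace ENNReal

namespace Pool.Agent.EscapeBall

/-- Among the first `N + 1` points there is, for every unit vector `u`, one with `⟪x i, u⟫ ≥ 1`. -/
def Sees (N : ℕ) (x : ℕ → E3) : Prop := ∀ u : E3, ‖u‖ = 1 → ∃ i ≤ N, 1 ≤ ⟪x i, u⟫

theorem integral_closedBall_diff :
    ∫ v : E3, ((Metric.closedBall (0 : E3) 1) \ {0}).indicator (fun _ => (2 : ℝ)) v
      = 8 * π / 3 := by
  have hm : MeasurableSet ((Metric.closedBall (0 : E3) 1) \ {0}) :=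
    Metric.isClosed_closedBall.measurableSet.diff (measurableSet_singleton _)
  have hv : volume ((Metric.closedBall (0 : E3) 1) \ {0}) = ENNReal.ofReal (π * 4 / 3) := by
    rw [measure_sdiff_null (by simp), EuclideanSpace.volume_closedBall_fin_three]
    simp
  rw [integral_indicator hm, setIntegral_const, Measure.real, hv,
    ENNReal.toReal_ofReal (by positivity)]
  simp only [smul_eq_mul]
  ring

theorem crossing (N : ℕ) (x : ℕ → E3) (h0 : x 0 = 0) (hsee : Sees N x) :
    8 * π / 3 - capV (x N) ≤ ∑ i ∈ Finset.range N, hor (x i) (x (i + 1)) := by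
  have hint : ∀ i, Integrable fun v => |chi (x i) v - chi (x (i + 1)) v| := fun i =>
    ((integrable_chi _).sub (integrable_chi _)).abs
  have hm : MeasurableSet ((Metric.closedBall (0 : E3) 1) \ {0}) :=
    Metric.isClosed_closedBall.measurableSet.diff (measurableSet_singleton _)
  have hfin : volume ((Metric.closedBall (0 : E3) 1) \ {0}) ≠ ∞ :=
    ((measure_mono sdiff_subset).trans_lt measure_closedBall_lt_top).ne
  have hint2 : Integrable
      (((Metric.closedBall (0 : E3) 1) \ {0}).indicator (fun _ => (2 : ℝ))) := by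
    rw [integrable_indicator_iff hm]
    exact integrableOn_const hfin
  rw [← integral_closedBall_diff, ← integral_chi, ← integral_sub hint2 (integrable_chi _)]
  unfold hor
  rw [← integral_finsetSum _ (fun i _ => hint i)]
  apply integral_mono (hint2.sub (integrable_chi _)) (integrable_finsetSum _ fun i _ => hint i)
  intro v
  simp only [Pi.sub_apply]
  by_cases hv : v ∈ (Metric.closedBall (0 : E3) 1) \ {0}
  · rw [indicator_of_mem hv]
    have hv0 : v ≠ 0 := hv.2
    have hv1 : ‖v‖ ≤ 1 := by simpa using hv.1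
    have hn : 0 < ‖v‖ := norm_pos_iff.2 hv0
    obtain ⟨i, hi, hiv⟩ := hsee (‖v‖⁻¹ • v) (by
      rw [norm_smul, norm_inv, norm_norm, inv_mul_cancel₀ hn.ne'])
    have hmem : v ∈ cap (x i) := by
      refine ⟨hv0, hv1, ?_⟩
      rw [real_inner_smul_right] at hiv
      have : ‖v‖ * 1 ≤ ‖v‖ * (‖v‖⁻¹ * ⟪x i, v⟫) := mul_le_mul_of_nonneg_left hiv hn.le
      rwa [mul_one, ← mul_assoc, mul_inv_cancel₀ hn.ne', one_mul] at this
    have e1 : chi (x i) v = 1 := by simp [chi, hmem]
    have e0 : chi (x 0) v = 0 := by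
      rcases chi_cases (x 0) v with ⟨h, -⟩ | ⟨-, h⟩
      · exfalso
        rw [h0] at h
        have := h.2.2
        rw [inner_zero_left] at this
        linarith
      · exact h
    have t1 := dist_le_range_sum_dist (fun j => chi (x j) v) i
    have t2 := dist_le_Ico_sum_dist (fun j => chi (x j) v) hi
    simp only [Real.dist_eq] at t1 t2
    rw [e0, e1] at t1
    rw [e1] at t2
    have t3 : ∑ j ∈ Finset.range N, |chi (x j) v - chi (x (j + 1)) v| =
        ∑ j ∈ Finset.range i, |chi (x j) v - chi (x (j + 1)) v| +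
        ∑ j ∈ Finset.Ico i N, |chi (x j) v - chi (x (j + 1)) v| := by
      rw [Finset.range_eq_Ico, Finset.range_eq_Ico, Finset.sum_Ico_consecutive _ (Nat.zero_le i) hi]
    rw [t3]
    have t4 : |(0:ℝ) - 1| = 1 := by norm_num
    rw [t4] at t1
    have t5 := le_abs_self (1 - chi (x N) v)
    linarith
  · rw [indicator_of_notMem hv]
    have hN : chi (x N) v = 0 := by
      rcases chi_cases (x N) v with ⟨h, -⟩ | ⟨-, h⟩
      · exfalso
        apply hv
        exact ⟨by simpa using h.2.1, h.1⟩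
      · exact h
    rw [hN, sub_zero]
    exact Finset.sum_nonneg fun i _ => abs_nonneg _

/-- Unit direction from `x` to `y`. -/
noncomputable def dir (x y : E3) : E3 := ‖y - x‖⁻¹ • (y - x)

theorem norm_dir {x y : E3} (h : x ≠ y) : ‖dir x y‖ = 1 := by
  have : ‖y - x‖ ≠ 0 := norm_ne_zero_iff.2 (sub_ne_zero.2 h.symm)
  rw [dir, norm_smul, norm_inv, norm_norm, inv_mul_cancel₀ this]

theorem eq_add_dir {x y : E3} (h : x ≠ y) : y = x + ‖y - x‖ • dir x y := by
  have : ‖y - x‖ ≠ 0 := norm_ne_zero_iff.2 (sub_ne_zero.2 h.symm)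
  rw [dir, smul_smul, mul_inv_cancel₀ this, one_smul]
  abel

theorem cost_eq (θ : ℝ) {x y : E3} (h : x ≠ y) :
    dist x y - 3 / 2 * θ * hor x y = pot θ y (dir x y) - pot θ x (dir x y) := by
  have h1 := hor_eq x (dir x y) (norm_nonneg (y - x))
  rw [← eq_add_dir h] at h1
  have h2 : ⟪y, dir x y⟫ = ⟪x, dir x y⟫ + ‖y - x‖ := by
    have e := norm_dir h
    have e2 := eq_add_dir h
    generalize dir x y = d at e e2 ⊢
    generalize ‖y - x‖ = s at e2 ⊢
    rw [e2, inner_add_left, real_inner_smul_left, real_inner_self_eq_norm_sq, e]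
    ring
  rw [h1, pot, pot, h2, dist_comm, dist_eq_norm]
  ring

/-- Length of the polygon. -/
noncomputable def len (N : ℕ) (x : ℕ → E3) : ℝ := ∑ i ∈ Finset.range N, dist (x i) (x (i + 1))

/-- The lower bound. -/
noncomputable def lowBound : ℝ := 1143 / 100

theorem pot_eq_potR (θ : ℝ) (x d : E3) (hd : ‖d‖ = 1) : pot θ x d = potR θ ‖x‖ ⟪x, d⟫ := by
  unfold potR
  split_ifs with h
  · exact pot_out θ x d hd h
  · exact pot_in θ x d hd (not_le.1 h).le

theorem pot_mono (x d d' : E3) (hd : ‖d‖ = 1) (hd' : ‖d'‖ = 1) (h : ⟪x, d'⟫ ≤ ⟪x, d⟫) :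
    pot 1 x d' ≤ pot 1 x d := by
  by_cases hx : x = 0
  · subst hx
    rw [pot_zero, pot_zero]
  rw [pot_eq 1 x d hx hd, pot_eq 1 x d' hx hd']
  have hang : InnerProductGeometry.angle x d ≤ InnerProductGeometry.angle x d' := by
    unfold InnerProductGeometry.angle
    apply Real.arccos_le_arccos
    rw [hd, hd']
    exact div_le_div_of_nonneg_right h (by positivity)
  have := bf_mono (norm_nonneg x) (InnerProductGeometry.angle_nonneg x d) hang
    (InnerProductGeometry.angle_le_pi x d')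
  linarith

theorem num_one {r : ℝ} (hr : 0 < r) : lowBound ≤ r + th * (2 * π + 2 * (π / r)) := by
  have hπ := Real.pi_gt_d6
  have h1 : th * (2 * π + 2 * (π / r)) = 2 * th * π + 2 * th * π / r := by ring
  have h2 : (6.383714 : ℝ) ≤ 2 * th * π := by unfold th; linarith
  have h3 : 6.383714 / r ≤ 2 * th * π / r := div_le_div_of_nonneg_right h2 hr.le
  have h4 : 5.046286 ≤ r + 6.383714 / r := by
    have e : r + 6.383714 / r - 5.046286 = (r ^ 2 - 5.046286 * r + 6.383714) / r := by
      field_simp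
      ring
    have : 0 ≤ (r ^ 2 - 5.046286 * r + 6.383714) / r := by
      apply div_nonneg _ hr.le
      nlinarith [sq_nonneg (r - 2.523143)]
    linarith
  unfold lowBound
  rw [h1]
  linarith

theorem tau_ge : 0.34821 ≤ tau := by
  unfold tau
  have h1 : √(ra ^ 2 - 1) ≤ 1.26179 := by
    rw [Real.sqrt_le_left (by norm_num)]
    unfold ra
    norm_num
  unfold ra at *
  linarith

theorem num_two {r : ℝ} (hr : 1 ≤ r) : lowBound ≤ tau + √(r ^ 2 - 1) + 2 * π + 2 * (π / r) := by
  have hπ := Real.pi_gt_d6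
  have hr0 : 0 < r := by linarith
  have h2 : 6.283184 / r ≤ 2 * π / r := div_le_div_of_nonneg_right (by linarith) hr0.le
  have h3 : 2 * (π / r) = 2 * π / r := by ring
  have h4 : 4.798606 - 6.283184 / r ≤ √(r ^ 2 - 1) := by
    rcases le_or_gt (4.798606 - 6.283184 / r) 0 with h5 | h5
    · exact h5.trans (Real.sqrt_nonneg _)
    · apply Real.le_sqrt_of_sq_le
      have h6 : 6.283184 / r < 4.798606 := by linarith
      rw [div_lt_iff₀ hr0] at h6
      have hr1 : 1.3 < r := by nlinarith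
      have e : r ^ 2 - 1 - (4.798606 - 6.283184 / r) ^ 2 =
          (r ^ 4 - (1 + 4.798606 ^ 2) * r ^ 2 + 2 * 4.798606 * 6.283184 * r - 6.283184 ^ 2) /
            r ^ 2 := by
        field_simp
        ring
      have h7 : 0 ≤ (r ^ 4 - (1 + 4.798606 ^ 2) * r ^ 2 + 2 * 4.798606 * 6.283184 * r -
          6.283184 ^ 2) / r ^ 2 := by
        apply div_nonneg _ (by positivity)
        have h8 : 0 ≤ (r - 2.389) ^ 2 * (r ^ 2 + 4.778 * r - 6.905 - 0.9) := by
          apply mul_nonneg (sq_nonneg _)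
          nlinarith
        nlinarith [sq_nonneg (r - 2.389 + 0.02)]
      linarith
  have h5 := tau_ge
  unfold lowBound
  rw [h3]
  linarith

theorem num_three {r : ℝ} (hr : 1 ≤ r) (hr' : r ≤ ra) : lowBound ≤ r + 2 * π + 2 * (π / r) := by
  have hπ := Real.pi_gt_d6
  have hr0 : 0 < r := by linarith
  have h2 : 6.28 / r ≤ 2 * π / r := div_le_div_of_nonneg_right (by linarith) hr0.le
  have h3 : 2 * (π / r) = 2 * π / r := by ring
  have h4 : 5.4 ≤ r + 6.28 / r := by
    have e : r + 6.28 / r - 5.4 = (r ^ 2 - 5.4 * r + 6.28) / r := by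
      field_simp
      ring
    have : 0 ≤ (r ^ 2 - 5.4 * r + 6.28) / r := by
      apply div_nonneg _ hr0.le
      unfold ra at hr'
      nlinarith
    linarith
  unfold lowBound
  rw [h3]
  linarith

/-- The final estimate from the state at the end point. -/
theorem final_bound {r q A B L : ℝ} (st : St r q A B) (hr : 1 ≤ r) (hq : 1 ≤ q)
    (hA : A + 3 * π + π / r ≤ L) (hB : B + th * (3 * π + π / r) ≤ L) : lowBound ≤ L := by
  have hr0 : 0 < r := by linarith
  have hlarge : tau + cc 1 r 1 ≤ A → lowBound ≤ L := by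
    intro h
    rw [cc_one hr] at h
    have := num_two hr
    linarith
  cases st with
  | S h1 h2 h3 =>
    rw [cc_zero_of_one_le hr] at h3
    have := num_one hr0
    linarith
  | PO h1 h2 h3 h4 h5 =>
    unfold wT at h5
    rcases le_or_gt rk r with h | h
    · rw [max_eq_left h, cc_zero_of_one_le hr] at h5
      have := num_one hr0
      linarith
    · rw [max_eq_right h.le, cc_zero_of_one_le (one_le_ra.trans ra_le_rk)] at h5
      have := num_one rk_pos
      have h6 : π / rk ≤ π / r := div_le_div_of_nonneg_left Real.pi_pos.le hr0 h.le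
      have h7 : th * (π / rk) ≤ th * (π / r) :=
        mul_le_mul_of_nonneg_left h6 (by unfold th; norm_num)
      linarith
  | PI h1 => linarith
  | I h1 h2 h3 h4 =>
    rcases le_total r ra with h | h
    · have h5 := h3 h
      rw [cc_zero_of_one_le hr] at h5
      have := num_three hr h
      linarith
    · exact hlarge (h4 h)
  | II h1 h2 =>
    have e : potR 1 r q = cc 1 r (√(r ^ 2 - q ^ 2)) := by
      unfold potR; rw [if_pos (by linarith)]
    rw [e] at h2
    have hpr : √(r ^ 2 - q ^ 2) ≤ r := by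
      rw [Real.sqrt_le_left hr0.le]
      nlinarith [sq_nonneg q]
    rcases le_total r ra with h | h
    · have hn := cc_nonneg hr0 (Real.sqrt_nonneg _) hpr
      rw [cc_zero_of_one_le one_le_ra] at h2
      have h3 := num_three one_le_ra le_rfl
      have h6 : π / ra ≤ π / r := div_le_div_of_nonneg_left Real.pi_pos.le hr0 h
      linarith
    · exact hlarge ((leave_ra (Real.sqrt_nonneg _) h1 h).trans h2)

theorem norm_sq_step (x d : E3) (hd : ‖d‖ = 1) (s : ℝ) :
    ‖x + s • d‖ ^ 2 = ‖x‖ ^ 2 + 2 * s * ⟪x, d⟫ + s ^ 2 := by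
  rw [norm_add_sq_real, norm_smul, real_inner_smul_right, hd, Real.norm_eq_abs, mul_one, sq_abs]
  ring

theorem corner_of (x d d' : E3) (hd : ‖d‖ = 1) (hd' : ‖d'‖ = 1)
    (h : ‖d - d'‖ ≤ ⟪x, d - d'⟫) (hrad : ⟪x, d⟫ = ‖x‖) :
    ⟪x, d'⟫ = ‖x‖ ∨ 2 ≤ ‖x‖ * (‖x‖ - ⟪x, d'⟫) := by
  by_cases hx : x = 0
  · left; subst hx; simp
  · have hx0 : 0 < ‖x‖ := norm_pos_iff.2 hx
    have h1 : ⟪x, d⟫ = ‖x‖ * ‖d‖ := by rw [hd, mul_one]; exact hrad
    rw [inner_eq_norm_mul_iff_real, hd, one_smul] at h1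
    -- `h1 : x = ‖x‖ • d`
    have h2 : ⟪x, d'⟫ = ‖x‖ * ⟪d, d'⟫ := by
      conv_lhs => rw [h1]
      rw [real_inner_smul_left]
    have h3 : ‖d - d'‖ ^ 2 = 2 - 2 * ⟪d, d'⟫ := by
      rw [norm_sub_sq_real, hd, hd']; ring
    rw [inner_sub_right, hrad] at h
    set g := ‖x‖ - ⟪x, d'⟫ with hg
    have h4 : ‖d - d'‖ ^ 2 ≤ g ^ 2 := pow_le_pow_left₀ (norm_nonneg _) h 2
    have h5 : ‖x‖ * (2 - 2 * ⟪d, d'⟫) = 2 * g := by rw [hg, h2]; ring
    have hg0 : 0 ≤ g := (norm_nonneg _).trans h
    rcases eq_or_lt_of_le hg0 with h6 | h6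
    · left; linarith
    · right
      have h7 : 2 * g ≤ ‖x‖ * g ^ 2 := by
        rw [← h5, ← h3]
        exact mul_le_mul_of_nonneg_left h4 hx0.le
      have h8 : 2 * g ≤ (‖x‖ * g) * g := by rw [mul_assoc, ← sq]; exact h7
      exact le_of_mul_le_mul_right h8 h6

/-- The lower bound for polygons satisfying the first order conditions. -/
theorem polygon_bound (N : ℕ) (x : ℕ → E3) (h0 : x 0 = 0) (hsee : Sees N x)
    (hne : ∀ i < N, x i ≠ x (i + 1))
    (hturn : ∀ i, i + 1 < N →
      ‖dir (x i) (x (i + 1)) - dir (x (i + 1)) (x (i + 2))‖ ≤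
        ⟪x (i + 1), dir (x i) (x (i + 1)) - dir (x (i + 1)) (x (i + 2))⟫)
    (hend : ∀ i, i + 1 = N → 1 ≤ ⟪x N, dir (x i) (x N)⟫) :
    lowBound ≤ len N x := by
  have hN : N ≠ 0 := by
    rintro rfl
    obtain ⟨i, hi, h⟩ := hsee (EuclideanSpace.single 0 1) (by simp)
    have : i = 0 := by omega
    subst this
    rw [h0, inner_zero_left] at h
    linarith
  let C : ℝ → ℕ → ℝ := fun θ n => ∑ i ∈ Finset.range n, (dist (x i) (x (i + 1)) -
    3 / 2 * θ * hor (x i) (x (i + 1)))
  have hC : ∀ θ n, C θ (n + 1) = C θ n + (dist (x n) (x (n + 1)) -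
      3 / 2 * θ * hor (x n) (x (n + 1))) :=
    fun θ n => Finset.sum_range_succ _ _
  have habs : ∀ z d : E3, ‖d‖ = 1 → |⟪z, d⟫| ≤ ‖z‖ := by
    intro z d hd
    have := abs_real_inner_le_norm z d
    rwa [hd, mul_one] at this
  have hinv : ∀ n < N, St ‖x (n + 1)‖ ⟪x (n + 1), dir (x n) (x (n + 1))⟫
      (C 1 (n + 1)) (C th (n + 1)) := by
    intro n
    induction n with
    | zero =>
      intro hn
      have hne' := hne 0 hn
      have hd := norm_dir hne'
      have hin : ⟪x (0 + 1), dir (x 0) (x (0 + 1))⟫ = ‖x (0 + 1)‖ := by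
        have hx1 : x (0 + 1) ≠ 0 := by rw [h0] at hne'; exact hne'.symm
        have hn0 : ‖x (0 + 1)‖ ≠ 0 := norm_ne_zero_iff.2 hx1
        rw [h0, dir, sub_zero, real_inner_smul_right, real_inner_self_eq_norm_sq]
        field_simp
      have hC1 : ∀ θ, C θ (0 + 1) = cc θ ‖x (0 + 1)‖ 0 := by
        intro θ
        rw [hC, cost_eq θ hne']
        have e0 : C θ 0 = 0 := Finset.sum_range_zero _
        rw [e0, zero_add, pot_out θ _ _ hd (by rw [hin]; exact norm_nonneg _)]
        have e1 : ld (x (0 + 1)) (dir (x 0) (x (0 + 1))) = 0 := by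
          unfold ld
          rw [hin]
          simp
        have e2 : pot θ (x 0) (dir (x 0) (x (0 + 1))) = 0 := by
          generalize dir (x 0) (x (0 + 1)) = d
          rw [h0, pot_zero]
        rw [e1, e2, sub_zero]
      rw [hC1, hC1]
      exact St.S hin le_rfl le_rfl
    | succ n ih =>
      intro hn
      have hst := ih (by omega)
      have hne0 := hne n (by omega)
      have hne' := hne (n + 1) hn
      have hd0 := norm_dir hne0
      have hd := norm_dir hne'
      have heq := eq_add_dir hne'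
      have hs : 0 < ‖x (n + 1 + 1) - x (n + 1)‖ := norm_pos_iff.2 (sub_ne_zero.2 hne'.symm)
      have hcor := hturn n hn
      rw [hC 1 (n + 1), hC th (n + 1), cost_eq 1 hne', cost_eq th hne', pot_eq_potR _ _ _ hd,
        pot_eq_potR _ _ _ hd, pot_eq_potR _ _ _ hd, pot_eq_potR _ _ _ hd]
      have hcor' : ‖dir (x n) (x (n + 1)) - dir (x (n + 1)) (x (n + 1 + 1))‖ ≤
        ⟪x (n + 1), dir (x n) (x (n + 1)) - dir (x (n + 1)) (x (n + 1 + 1))⟫ := hcor
      have hturn' : ⟪x (n + 1), dir (x (n + 1)) (x (n + 1 + 1))⟫ ≤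
          ⟪x (n + 1), dir (x n) (x (n + 1))⟫ := by
        have := (norm_nonneg _).trans hcor'
        rw [inner_sub_right] at this
        linarith
      have hmono := pot_mono _ _ _ hd0 hd hturn'
      rw [pot_eq_potR _ _ _ hd, pot_eq_potR _ _ _ hd0] at hmono
      have hnorm := norm_sq_step (x (n + 1)) _ hd ‖x (n + 1 + 1) - x (n + 1)‖
      rw [← heq] at hnorm
      have hinner : ⟪x (n + 1 + 1), dir (x (n + 1)) (x (n + 1 + 1))⟫ =
          ⟪x (n + 1), dir (x (n + 1)) (x (n + 1 + 1))⟫ + ‖x (n + 1 + 1) - x (n + 1)‖ := by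
        generalize dir (x (n + 1)) (x (n + 1 + 1)) = d at hd heq ⊢
        generalize ‖x (n + 1 + 1) - x (n + 1)‖ = s at heq ⊢
        rw [heq, inner_add_left, real_inner_smul_left, real_inner_self_eq_norm_sq, hd]
        ring
      have hseg := seg_of (norm_nonneg (x (n + 1))) (norm_nonneg (x (n + 1 + 1)))
        (habs _ _ hd) hs hnorm
      rw [← hinner] at hseg
      refine St.step hst (norm_nonneg _) (habs _ _ hd) (habs _ _ hd0) hturn'
        (corner_of _ _ _ hd0 hd hcor') hmono hseg ?_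
      intro hq
      rw [hinner, hq]
      rw [hq] at hnorm
      have h1 : ‖x (n + 1 + 1)‖ ^ 2 = (‖x (n + 1)‖ + ‖x (n + 1 + 1) - x (n + 1)‖) ^ 2 := by
        rw [hnorm]; ring
      have := (pow_left_inj₀ (norm_nonneg _) (by positivity) (two_ne_zero)).1 h1
      exact this.symm
  obtain ⟨M, rfl⟩ : ∃ M, N = M + 1 := ⟨N - 1, by omega⟩
  have hst := hinv M (by omega)
  have hq := hend M rfl
  have hr : 1 ≤ ‖x (M + 1)‖ :=
    (hq.trans (le_abs_self _)).trans (habs _ _ (norm_dir (hne M (by omega))))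
  have hcross := crossing (M + 1) x h0 hsee
  have hcap : 3 / 2 * capV (x (M + 1)) = π - π / ‖x (M + 1)‖ := by
    rw [capV_of_one_le _ hr]
    ring
  have hlen : ∀ θ, len (M + 1) x = C θ (M + 1) + 3 / 2 * θ *
      ∑ i ∈ Finset.range (M + 1), hor (x i) (x (i + 1)) := by
    intro θ
    simp only [len, C]
    rw [Finset.sum_sub_distrib, ← Finset.mul_sum]
    ring
  refine final_bound hst hr hq ?_ ?_
  · rw [hlen 1]
    linarith
  · rw [hlen th]
    have h1 : 3 * π + π / ‖x (M + 1)‖ ≤ 3 / 2 *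
        ∑ i ∈ Finset.range (M + 1), hor (x i) (x (i + 1)) := by linarith
    have h2 : th * (3 * π + π / ‖x (M + 1)‖) ≤ th * (3 / 2 *
        ∑ i ∈ Finset.range (M + 1), hor (x i) (x (i + 1))) :=
      mul_le_mul_of_nonneg_left h1 (by unfold th; norm_num)
    linarith

end Pool.Agent.EscapeBall
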