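import Pool.Agent.Work.MP_7cd6c4_gt.Minimal

open MeasureTheory Set Real Filter Topology
open scoped RealInnerProductSpace ENNReal

namespace Pool.Agent.EscapeBall

theorem len_smul (c : ℝ) (hc : 0 ≤ c) (N : ℕ) (x : ℕ → E3) :
    len N (fun i => c • x i) = c * len N x := by
  unfold len
  rw [Finset.mul_sum]
  apply Finset.sum_congr rfl
  intro i _
  rw [dist_smul₀, Real.norm_eq_abs, abs_of_nonneg hc]

/-- Lower bound for continuous curves. -/
theorem curve_lower (γ : ℝ → E3) (hc : ContinuousOn γ (Icc 0 1)) (h0 : γ 0 = 0)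
    (hsee : ∀ u : E3, ‖u‖ = 1 → ∃ t ∈ Icc (0:ℝ) 1, 1 ≤ ⟪γ t, u⟫) :
    ENNReal.ofReal lowBound ≤ eVariationOn γ (Icc 0 1) := by
  by_cases htop : eVariationOn γ (Icc 0 1) = ⊤
  · rw [htop]; exact le_top
  rw [ENNReal.ofReal_le_iff_le_toReal htop]
  set V := (eVariationOn γ (Icc 0 1)).toReal with hV
  have key : ∀ ε ∈ Ioo (0:ℝ) 1, (1 - ε) * lowBound ≤ V := by
    intro ε hε
    have huc := isCompact_Icc.uniformContinuousOn_of_continuous hc
    rw [Metric.uniformContinuousOn_iff] at huc
    obtain ⟨δ, hδ, hδ'⟩ := huc ε hε.1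
    obtain ⟨n, hn⟩ := exists_nat_gt (1 / δ)
    have hn0 : (0:ℝ) < n := lt_trans (by positivity) hn
    have hnn : n ≠ 0 := by rintro rfl; simp at hn0
    have h1n : 1 / (n:ℝ) < δ := by
      rw [div_lt_iff₀ hn0]
      rw [div_lt_iff₀ hδ] at hn
      linarith
    have hmemI : ∀ i : ℕ, i ≤ n → (i:ℝ) / n ∈ Icc (0:ℝ) 1 := by
      intro i hi
      constructor
      · positivity
      · rw [div_le_one hn0]; exact_mod_cast hi
    let x : ℕ → E3 := fun i => γ ((i:ℝ) / n)
    have hx0 : x 0 = 0 := by simp [x, h0]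
    have hone : 0 < 1 - ε := by linarith [hε.2]
    have hs : Sees n (fun i => (1 - ε)⁻¹ • x i) := by
      intro u hu
      obtain ⟨t, ht, htu⟩ := hsee u hu
      refine ⟨⌊t * n⌋₊, ?_, ?_⟩
      · apply Nat.floor_le_of_le
        nlinarith [ht.2]
      · have hfl := Nat.floor_le (mul_nonneg ht.1 hn0.le)
        have hfl2 := Nat.lt_floor_add_one (t * n)
        have hle : ⌊t * n⌋₊ ≤ n := Nat.floor_le_of_le (by nlinarith [ht.2])
        have hd : dist t ((⌊t * n⌋₊ : ℝ) / n) < δ := by
          rw [Real.dist_eq, abs_of_nonneg]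
          · refine lt_trans ?_ h1n
            rw [sub_lt_iff_lt_add, ← add_div, lt_div_iff₀ hn0]
            linarith
          · rw [sub_nonneg, div_le_iff₀ hn0]
            exact hfl
        have h2 := hδ' t ht _ (hmemI _ hle) hd
        have h3 : ⟪γ t, u⟫ - ⟪x ⌊t * n⌋₊, u⟫ ≤ ε := by
          rw [← inner_sub_left]
          refine (real_inner_le_norm _ _).trans ?_
          rw [hu, mul_one, ← dist_eq_norm]
          exact h2.le
        rw [real_inner_smul_left, inv_mul_eq_div, le_div_iff₀ hone]
        linarith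
    have h4 := polygon_lower n _ (by simp [hx0]) hs
    rw [len_smul _ (inv_nonneg.2 hone.le), inv_mul_eq_div, le_div_iff₀ hone] at h4
    have h5 : len n x ≤ V := by
      have hmono : Monotone fun i : ℕ => min ((i:ℝ) / n) 1 := by
        intro i j hij
        exact min_le_min (div_le_div_of_nonneg_right (by exact_mod_cast hij) hn0.le) le_rfl
      have h6 := eVariationOn.sum_le (f := γ) (s := Icc 0 1) (n := n)
        (u := fun i : ℕ => min ((i:ℝ) / n) 1) hmono
        (fun i => ⟨le_min (by positivity) zero_le_one, min_le_right _ _⟩)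
      have h7 : ∑ i ∈ Finset.range n, edist (γ (min (((i + 1 : ℕ):ℝ) / n) 1))
          (γ (min ((i:ℝ) / n) 1)) = ENNReal.ofReal (len n x) := by
        unfold len
        rw [ENNReal.ofReal_sum_of_nonneg (fun _ _ => dist_nonneg)]
        apply Finset.sum_congr rfl
        intro i hi
        rw [Finset.mem_range] at hi
        rw [min_eq_left (hmemI (i + 1) hi).2, min_eq_left (hmemI i hi.le).2, edist_comm,
          edist_dist]
      rw [h7, ENNReal.ofReal_le_iff_le_toReal htop] at h6
      exact h6
    linarith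
  by_contra hcon
  push Not at hcon
  have hlb : 0 < lowBound := by unfold lowBound; positivity
  have hV0 : 0 ≤ V := ENNReal.toReal_nonneg
  -- choose ε = (lowBound - V) / (2 lowBound)
  have h1 := key ((lowBound - V) / (2 * lowBound)) ⟨by
    apply div_pos (by linarith) (by linarith), by
    rw [div_lt_one (by linarith)]; linarith⟩
  have h2 : (1 - (lowBound - V) / (2 * lowBound)) * lowBound = (lowBound + V) / 2 := by
    field_simp
    ring
  rw [h2] at h1
  linarith

/-- Clamp to the unit interval. -/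
noncomputable def cl (s : ℝ) : ℝ := max 0 (min 1 s)

theorem cl_mono : Monotone cl := fun _ _ h => max_le_max le_rfl (min_le_min le_rfl h)

/-- The polygonal path through the points `x 0, ..., x N`. -/
noncomputable def polyPath (N : ℕ) (x : ℕ → E3) (t : ℝ) : E3 :=
  x 0 + ∑ i ∈ Finset.range N, cl (N * t - i) • (x (i + 1) - x i)

theorem continuous_polyPath (N : ℕ) (x : ℕ → E3) : Continuous (polyPath N x) := by
  unfold polyPath cl
  fun_prop

theorem polyPath_vertex (N : ℕ) (x : ℕ → E3) {j : ℕ} (hj : j ≤ N) (hN : N ≠ 0) :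
    polyPath N x (j / N) = x j := by
  have hN0 : (0:ℝ) < N := by positivity
  unfold polyPath
  have h1 : (N:ℝ) * (j / N) = j := by field_simp
  rw [h1, ← Finset.sum_range_add_sum_Ico _ hj]
  have h2 : ∑ i ∈ Finset.range j, cl ((j:ℝ) - i) • (x (i + 1) - x i) = x j - x 0 := by
    rw [← Finset.sum_range_sub]
    apply Finset.sum_congr rfl
    intro i hi
    rw [Finset.mem_range] at hi
    have : (1:ℝ) ≤ (j:ℝ) - i := by
      have : (i:ℝ) + 1 ≤ j := by exact_mod_cast hi
      linarith
    rw [cl, min_eq_left this, max_eq_right zero_le_one, one_smul]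
  have h3 : ∑ i ∈ Finset.Ico j N, cl ((j:ℝ) - i) • (x (i + 1) - x i) = 0 := by
    apply Finset.sum_eq_zero
    intro i hi
    rw [Finset.mem_Ico] at hi
    have : (j:ℝ) - i ≤ 0 := by
      have : (j:ℝ) ≤ i := by exact_mod_cast hi.1
      linarith
    rw [cl, min_eq_right (by linarith), max_eq_left this, zero_smul]
  rw [h2, h3]
  abel

theorem eVariationOn_polyPath (N : ℕ) (x : ℕ → E3) :
    eVariationOn (polyPath N x) (Icc 0 1) ≤ ENNReal.ofReal (len N x) := by
  unfold eVariationOn
  apply iSup_le
  rintro ⟨n, u, hu, -⟩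
  simp only
  have h1 : ∀ k, dist (polyPath N x (u (k + 1))) (polyPath N x (u k)) ≤
      ∑ i ∈ Finset.range N, (cl (N * u (k + 1) - i) - cl (N * u k - i)) * dist (x i) (x (i + 1)) := by
    intro k
    rw [dist_eq_norm]
    have : polyPath N x (u (k + 1)) - polyPath N x (u k) = ∑ i ∈ Finset.range N,
        (cl (N * u (k + 1) - i) - cl (N * u k - i)) • (x (i + 1) - x i) := by
      unfold polyPath
      rw [add_sub_add_left_eq_sub, ← Finset.sum_sub_distrib]
      apply Finset.sum_congr rfl
      intro i _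
      rw [sub_smul]
    rw [this]
    refine (norm_sum_le _ _).trans ?_
    apply Finset.sum_le_sum
    intro i _
    rw [norm_smul, dist_comm, dist_eq_norm, Real.norm_eq_abs, abs_of_nonneg]
    rw [sub_nonneg]
    apply cl_mono
    have := hu (Nat.le_succ k)
    have hN : (0:ℝ) ≤ N := by positivity
    have := mul_le_mul_of_nonneg_left this hN
    simp only [Nat.succ_eq_add_one] at this
    linarith
  have h2 : ∑ k ∈ Finset.range n, dist (polyPath N x (u (k + 1))) (polyPath N x (u k)) ≤
      len N x := by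
    refine (Finset.sum_le_sum fun k _ => h1 k).trans ?_
    rw [Finset.sum_comm]
    unfold len
    apply Finset.sum_le_sum
    intro i _
    rw [← Finset.sum_mul, Finset.sum_range_sub (fun k => cl (N * u k - i))]
    have h3 : cl (N * u n - i) ≤ 1 := by
      unfold cl
      exact max_le zero_le_one (min_le_left _ _)
    have h4 : 0 ≤ cl (N * u 0 - i) := by
      unfold cl
      exact le_max_left _ _
    have h5 : 0 ≤ dist (x i) (x (i + 1)) := dist_nonneg
    nlinarith
  calc ∑ k ∈ Finset.range n, edist (polyPath N x (u (k + 1))) (polyPath N x (u k))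
      = ENNReal.ofReal (∑ k ∈ Finset.range n,
          dist (polyPath N x (u (k + 1))) (polyPath N x (u k))) := by
        rw [ENNReal.ofReal_sum_of_nonneg (fun _ _ => dist_nonneg)]
        exact Finset.sum_congr rfl fun k _ => edist_dist _ _
    _ ≤ ENNReal.ofReal (len N x) := ENNReal.ofReal_le_ofReal h2

end Pool.Agent.EscapeBall
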