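import Mathlib

/-!
Cylindrical coordinates in three-space with respect to an orthonormal basis.
-/

open MeasureTheory Set Real
open scoped RealInnerProductSpace ENNReal

namespace Pool.Agent.EscapeBall

/-- Euclidean three-space. -/
abbrev E3 := EuclideanSpace ℝ (Fin 3)

/-- The point with coordinates `x, y, z` in the orthonormal basis `b`. -/
noncomputable def pt (b : OrthonormalBasis (Fin 3) ℝ E3) (x y z : ℝ) : E3 :=
  x • b 0 + y • b 1 + z • b 2

theorem pt_eq (b : OrthonormalBasis (Fin 3) ℝ E3) (x y z : ℝ) :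
    pt b x y z = b.repr.symm (WithLp.toLp 2 ![x, y, z]) := by
  rw [pt, ← b.sum_repr_symm]
  simp [Fin.sum_univ_three]

theorem measurePreserving_pt (b : OrthonormalBasis (Fin 3) ℝ E3) :
    MeasurePreserving (fun w : ℝ × (ℝ × ℝ) => pt b w.2.1 w.2.2 w.1) volume volume := by
  have h1 := (volume_preserving_piFinSuccAbove (fun _ : Fin 3 => ℝ) 2).symm
  have h2 := (volume_preserving_finTwoArrow ℝ).symm
  have h3 : MeasurePreserving (fun w : ℝ × (ℝ × ℝ) =>
      ((w.1, (MeasurableEquiv.finTwoArrow (α := ℝ)).symm w.2) : ℝ × (Fin 2 → ℝ)))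
      (volume : Measure (ℝ × (ℝ × ℝ))) volume :=
    (MeasurePreserving.id (volume : Measure ℝ)).prod h2
  have h4 := ((b.measurePreserving_repr_symm).comp (PiLp.volume_preserving_toLp (Fin 3))).comp
    (h1.comp h3)
  convert h4 using 1
  funext w
  simp only [Function.comp_apply, pt_eq]
  congr 2
  funext i
  fin_cases i <;> simp [MeasurableEquiv.piFinSuccAbove, MeasurableEquiv.finTwoArrow,
    Fin.insertNth, Fin.succAboveCases] <;> rfl

theorem lintegral_cyl (b : OrthonormalBasis (Fin 3) ℝ E3) (f : E3 → ℝ≥0∞) (hf : Measurable f) :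
    ∫⁻ v, f v = ∫⁻ z : ℝ, ∫⁻ p in polarCoord.target, ENNReal.ofReal p.1 *
      f (pt b (p.1 * cos p.2) (p.1 * sin p.2) z) := by
  rw [← (measurePreserving_pt b).lintegral_comp hf, Measure.volume_eq_prod, lintegral_prod]
  · refine lintegral_congr fun z => ?_
    rw [← lintegral_comp_polarCoord_symm (fun p : ℝ × ℝ => f (pt b p.1 p.2 z))]
    refine lintegral_congr fun p => ?_
    simp [polarCoord_symm_apply, smul_eq_mul]
  · exact (hf.comp (measurePreserving_pt b).measurable).aemeasurable

end Pool.Agent.EscapeBall
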