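import Pool.Agent.Work.MP_7cd6c4_gt.Potential
import Pool.Agent.Work.MP_7cd6c4_gt.Analysis

open MeasureTheory Set Real
open scoped RealInnerProductSpace ENNReal

namespace Pool.Agent.EscapeBall

/-- Indicator function of the cap of `x`. -/
noncomputable def chi (x : E3) : E3 → ℝ := (cap x).indicator fun _ => 1

/-- Horizon measure of the pair `x, y`: volume of the set of directions whose supporting plane
separates `x` from `y`. -/
noncomputable def hor (x y : E3) : ℝ := ∫ v, |chi x v - chi y v|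

/-- Sign of `⟪d, v⟫`. -/
noncomputable def sg (d v : E3) : ℝ := if ⟪d, v⟫ < 0 then -1 else 1

/-- Signed horizon. -/
noncomputable def shor (x d : E3) : ℝ := ∫ v, chi x v * sg d v

theorem volume_cap_lt_top (x : E3) : volume (cap x) < ∞ := by
  refine lt_of_le_of_lt (measure_mono (t := Metric.closedBall (0 : E3) 1) ?_)
    measure_closedBall_lt_top
  intro v hv
  simpa using hv.2.1

theorem integrable_chi (x : E3) : Integrable (chi x) := by
  unfold chi
  rw [integrable_indicator_iff (measurableSet_cap x)]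
  exact integrableOn_const (volume_cap_lt_top x).ne

theorem measurable_sg (d : E3) : Measurable (sg d) :=
  Measurable.ite (measurableSet_neg d) measurable_const measurable_const

theorem abs_sg (d v : E3) : |sg d v| = 1 := by
  unfold sg; split_ifs <;> simp

theorem integrable_chi_sg (x d : E3) : Integrable fun v => chi x v * sg d v := by
  refine (integrable_chi x).mul_bdd (c := 1) (measurable_sg d).aestronglyMeasurable ?_
  refine Filter.Eventually.of_forall fun v => ?_
  rw [Real.norm_eq_abs, abs_sg]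

theorem chi_cases (x v : E3) : (v ∈ cap x ∧ chi x v = 1) ∨ (v ∉ cap x ∧ chi x v = 0) := by
  by_cases h : v ∈ cap x
  · left; exact ⟨h, by simp [chi, h]⟩
  · right; exact ⟨h, by simp [chi, h]⟩

theorem hor_eq (x d : E3) {s : ℝ} (hs : 0 ≤ s) :
    hor x (x + s • d) = shor (x + s • d) d - shor x d := by
  unfold hor shor
  rw [← integral_sub (integrable_chi_sg _ _) (integrable_chi_sg _ _)]
  congr 1
  funext v
  have hy : ⟪x + s • d, v⟫ = ⟪x, v⟫ + s * ⟪d, v⟫ := by
    rw [inner_add_left, real_inner_smul_left]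
  unfold sg
  split_ifs with h
  · have himp : v ∈ cap (x + s • d) → v ∈ cap x := by
      rintro ⟨h1, h2, h3⟩
      refine ⟨h1, h2, ?_⟩
      rw [hy] at h3
      nlinarith
    rcases chi_cases x v with ⟨h1, e1⟩ | ⟨h1, e1⟩ <;>
      rcases chi_cases (x + s • d) v with ⟨h2, e2⟩ | ⟨h2, e2⟩
    · rw [e1, e2]; norm_num
    · rw [e1, e2]; norm_num
    · exact absurd (himp h2) h1
    · rw [e1, e2]; norm_num
  · push Not at h
    have himp : v ∈ cap x → v ∈ cap (x + s • d) := by
      rintro ⟨h1, h2, h3⟩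
      refine ⟨h1, h2, ?_⟩
      rw [hy]
      nlinarith
    rcases chi_cases x v with ⟨h1, e1⟩ | ⟨h1, e1⟩ <;>
      rcases chi_cases (x + s • d) v with ⟨h2, e2⟩ | ⟨h2, e2⟩
    · rw [e1, e2]; norm_num
    · exact absurd (himp h1) h2
    · rw [e1, e2]; norm_num
    · rw [e1, e2]; norm_num

theorem hor_comm (x y : E3) : hor x y = hor y x := by
  unfold hor
  congr 1
  funext v
  exact abs_sub_comm _ _

/-- Volume of the cap. -/
noncomputable def capV (x : E3) : ℝ := (volume (cap x)).toReal

/-- Volume of the part of the cap with `⟪d, v⟫ < 0`. -/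
noncomputable def capN (x d : E3) : ℝ := (volume (cap x ∩ {v | ⟪d, v⟫ < 0})).toReal

theorem integral_chi (x : E3) : ∫ v, chi x v = capV x := by
  unfold chi capV
  rw [integral_indicator (measurableSet_cap x)]
  simp [Measure.real]

theorem shor_eq (x d : E3) : shor x d = capV x - 2 * capN x d := by
  have h1 : ∀ v, chi x v * sg d v = chi x v -
      2 * (cap x ∩ {v | ⟪d, v⟫ < 0}).indicator (fun _ => (1:ℝ)) v := by
    intro v
    by_cases hd : ⟪d, v⟫ < 0
    · by_cases hx : v ∈ cap x
      · simp [chi, sg, hd, hx]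
        norm_num
      · simp [chi, hx]
    · simp [sg, hd]
  have hm : MeasurableSet (cap x ∩ {v | ⟪d, v⟫ < 0}) :=
    (measurableSet_cap x).inter (measurableSet_neg d)
  have hlt : volume (cap x ∩ {v | ⟪d, v⟫ < 0}) ≠ ∞ :=
    ((measure_mono inter_subset_left).trans_lt (volume_cap_lt_top x)).ne
  unfold shor
  simp_rw [h1]
  rw [integral_sub (integrable_chi x)
    (((integrable_indicator_iff hm).2 (integrableOn_const hlt)).const_mul 2), integral_chi,
    integral_const_mul, integral_indicator hm]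
  simp [capN, Measure.real]

theorem integrable_gf_sin (r a b : ℝ) :
    IntervalIntegrable (fun φ => gf (r * sin φ)) volume a b :=
  (continuous_gf.comp (by fun_prop : Continuous fun φ => r * sin φ)).intervalIntegrable _ _

theorem wedge_toReal {r ψ : ℝ} (hψ : 0 ≤ ψ) :
    (∫⁻ φ in Ioo 0 ψ, ENNReal.ofReal (2 / 3 * gf (r * sin φ))).toReal =
      2 / 3 * ∫ φ in (0:ℝ)..ψ, gf (r * sin φ) := by
  rw [← ofReal_integral_eq_lintegral_ofReal]
  · rw [← integral_Ioc_eq_integral_Ioo, ← intervalIntegral.integral_of_le hψ,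
      intervalIntegral.integral_const_mul, ENNReal.toReal_ofReal]
    have : 0 ≤ ∫ φ in (0:ℝ)..ψ, gf (r * sin φ) :=
      intervalIntegral.integral_nonneg hψ fun _ _ => gf_nonneg _
    positivity
  · have hc : Continuous fun φ => 2 / 3 * gf (r * sin φ) :=
      continuous_const.mul (continuous_gf.comp (by fun_prop))
    exact (hc.integrableOn_Icc (a := 0) (b := ψ)).mono_set Ioo_subset_Icc_self
  · exact Filter.Eventually.of_forall fun φ => by
      have := gf_nonneg (r * sin φ)
      simp only [Pi.zero_apply]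
      positivity

theorem capN_eq (x d : E3) (hx : x ≠ 0) (hd : ‖d‖ = 1) :
    capN x d = 2 / 3 * ∫ φ in (0:ℝ)..InnerProductGeometry.angle x d, gf (‖x‖ * sin φ) := by
  obtain ⟨b, h1, h2⟩ := exists_basis_plane x d hx hd
  have h0 := InnerProductGeometry.angle_nonneg x d
  have hπ := InnerProductGeometry.angle_le_pi x d
  have h3 := volume_wedge_std b (norm_nonneg x) h0 hπ
  rw [← h1, ← h2] at h3
  unfold capN
  rw [h3, wedge_toReal h0]

theorem capV_eq_int (x : E3) (hx : x ≠ 0) :
    capV x = 2 / 3 * ∫ φ in (0:ℝ)..π, gf (‖x‖ * sin φ) := by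
  have hx0 : ‖x‖ ≠ 0 := norm_ne_zero_iff.2 hx
  have hd : ‖-(‖x‖⁻¹ • x)‖ = 1 := by
    rw [norm_neg, norm_smul, norm_inv, norm_norm, inv_mul_cancel₀ hx0]
  have h1 := capN_eq x (-(‖x‖⁻¹ • x)) hx hd
  have hang : InnerProductGeometry.angle x (-(‖x‖⁻¹ • x)) = π := by
    rw [InnerProductGeometry.angle_neg_right, InnerProductGeometry.angle_smul_right_of_pos _ _
      (by positivity), InnerProductGeometry.angle_self hx, sub_zero]
  rw [hang] at h1
  rw [← h1]
  unfold capV capN
  congr 2
  ext v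
  simp only [mem_inter_iff, mem_ofPred_eq, iff_self_and]
  intro hv
  have hv0 : 0 < ‖v‖ := norm_pos_iff.2 hv.1
  have hxv : 0 < ⟪x, v⟫ := lt_of_lt_of_le hv0 hv.2.2
  rw [inner_neg_left, real_inner_smul_left]
  have : 0 < ‖x‖⁻¹ * ⟪x, v⟫ := by positivity
  linarith

theorem capV_of_one_le (x : E3) (hx : 1 ≤ ‖x‖) : capV x = 2 * π / 3 * (1 - 1 / ‖x‖) := by
  have hx0 : x ≠ 0 := by
    rintro rfl
    simp at hx
    linarith
  obtain ⟨b, hb⟩ := exists_basis_axis x hx0
  have h1 := volume_cap_axis b hx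
  rw [← hb] at h1
  unfold capV
  rw [h1, ENNReal.toReal_ofReal]
  have : 1 / ‖x‖ ≤ 1 := by rw [div_le_one (by linarith)]; exact hx
  have := Real.pi_pos
  apply mul_nonneg (by positivity)
  linarith

/-- Radial potential. -/
noncomputable def wf (θ r : ℝ) : ℝ := r - θ * ∫ φ in (0:ℝ)..π, gf (r * sin φ)

theorem integral_gf_of_one_le {r : ℝ} (h1 : 1 ≤ r) :
    ∫ φ in (0:ℝ)..π, gf (r * sin φ) = π - π / r := by
  obtain ⟨x, hx⟩ : ∃ x : E3, ‖x‖ = r :=
    ⟨r • EuclideanSpace.single 0 1, by
      rw [norm_smul]; simp; linarith⟩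
  have hx0 : x ≠ 0 := by
    rintro rfl
    simp at hx
    linarith
  have e1 := capV_eq_int x hx0
  have e2 := capV_of_one_le x (by rw [hx]; exact h1)
  rw [e1, hx] at e2
  have e3 : π - π / r = π * (1 - 1 / r) := by ring
  rw [e3]
  linear_combination (3 / 2) * e2

theorem wf_of_one_le {θ r : ℝ} (h1 : 1 ≤ r) : wf θ r = r - θ * (π - π / r) := by
  rw [wf, integral_gf_of_one_le h1]

/-- Potential of a point with a direction. -/
noncomputable def pot (θ : ℝ) (x d : E3) : ℝ := ⟪x, d⟫ - 3 / 2 * θ * shor x d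

theorem integral_psi_sin (θ r ψ : ℝ) :
    bf θ r ψ = r * (1 - cos ψ) - 2 * θ * ∫ φ in (0:ℝ)..ψ, gf (r * sin φ) := by
  unfold bf psi
  rw [intervalIntegral.integral_sub (by apply Continuous.intervalIntegrable; fun_prop)
    ((integrable_gf_sin r 0 ψ).const_mul (2 * θ)), intervalIntegral.integral_const_mul,
    intervalIntegral.integral_const_mul, integral_sin]
  simp

theorem pot_zero (θ : ℝ) (d : E3) : pot θ 0 d = 0 := by
  have h0 : cap (0 : E3) = ∅ := by
    rw [eq_empty_iff_forall_notMem]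
    rintro v ⟨h1, h2, h3⟩
    rw [inner_zero_left] at h3
    exact h1 (norm_le_zero_iff.1 h3)
  simp [pot, shor, chi, h0]

theorem pot_eq (θ : ℝ) (x d : E3) (hx : x ≠ 0) (hd : ‖d‖ = 1) :
    pot θ x d = wf θ ‖x‖ - bf θ ‖x‖ (InnerProductGeometry.angle x d) := by
  have hx0 : ‖x‖ ≠ 0 := norm_ne_zero_iff.2 hx
  have hin : ⟪x, d⟫ = ‖x‖ * cos (InnerProductGeometry.angle x d) := by
    have := InnerProductGeometry.cos_angle_mul_norm_mul_norm x d
    rw [hd] at this
    linarith
  rw [pot, shor_eq, capV_eq_int x hx, capN_eq x d hx hd, integral_psi_sin, wf, hin]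
  ring

theorem bf_pi (θ r : ℝ) : bf θ r π = 2 * wf θ r := by
  rw [integral_psi_sin, wf, Real.cos_pi]
  ring

theorem bf_sub (θ r ψ : ℝ) : bf θ r (π - ψ) = bf θ r π - bf θ r ψ := by
  have h1 := intervalIntegral.integral_comp_sub_left (fun σ => psi θ (r * sin σ))
    (a := 0) (b := π - ψ) π
  simp only [Real.sin_pi_sub, sub_sub_cancel, sub_zero] at h1
  unfold bf
  rw [h1, intervalIntegral.integral_interval_sub_left (ii_psi _ _ _ _) (ii_psi _ _ _ _)]

theorem bf_half (θ r : ℝ) : bf θ r (π / 2) = wf θ r := by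
  have h1 := bf_sub θ r (π / 2)
  rw [bf_pi, show π - π / 2 = π / 2 by ring] at h1
  linarith

theorem cc_eq_sub (θ r p : ℝ) : cc θ r p = wf θ r - bf θ r (arcsin (p / r)) := by
  rw [← bf_half]
  unfold cc bf
  rw [intervalIntegral.integral_interval_sub_left (ii_psi _ _ _ _) (ii_psi _ _ _ _)]

theorem cc_zero (θ r : ℝ) : cc θ r 0 = wf θ r := by
  rw [cc_eq_sub]
  simp [bf]

/-- Distance of the line through `x` with direction `d` from the origin. -/
noncomputable def ld (x d : E3) : ℝ := √(‖x‖ ^ 2 - ⟪x, d⟫ ^ 2)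

theorem norm_mul_sin (x d : E3) (hd : ‖d‖ = 1) :
    ‖x‖ * sin (InnerProductGeometry.angle x d) = ld x d := by
  have h := InnerProductGeometry.sin_angle_mul_norm_mul_norm x d
  rw [hd, mul_one, real_inner_self_eq_norm_sq, real_inner_self_eq_norm_sq, hd] at h
  rw [mul_comm, h, ld]
  congr 1
  ring

theorem pot_out (θ : ℝ) (x d : E3) (hd : ‖d‖ = 1) (h : 0 ≤ ⟪x, d⟫) :
    pot θ x d = cc θ ‖x‖ (ld x d) := by
  by_cases hx : x = 0
  · subst hx
    rw [pot_zero]
    simp [ld, cc, psi, gf_of_le_one]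
  · have hx0 : 0 < ‖x‖ := norm_pos_iff.2 hx
    have hang : InnerProductGeometry.angle x d ≤ π / 2 := by
      unfold InnerProductGeometry.angle
      rw [Real.arccos_le_pi_div_two]
      positivity
    have h2 : ld x d / ‖x‖ = sin (InnerProductGeometry.angle x d) := by
      rw [← norm_mul_sin x d hd]
      field_simp
    rw [pot_eq θ x d hx hd, cc_eq_sub, h2, Real.arcsin_sin
      (by linarith [InnerProductGeometry.angle_nonneg x d, Real.pi_pos]) hang]

theorem ld_neg (x d : E3) : ld x (-d) = ld x d := by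
  unfold ld
  rw [inner_neg_right, neg_sq]

theorem pot_neg (θ : ℝ) (x d : E3) (hd : ‖d‖ = 1) : pot θ x (-d) = - pot θ x d := by
  by_cases hx : x = 0
  · subst hx
    rw [pot_zero, pot_zero, neg_zero]
  · rw [pot_eq θ x (-d) hx (by rw [norm_neg]; exact hd), pot_eq θ x d hx hd,
      InnerProductGeometry.angle_neg_right, bf_sub, bf_pi]
    ring

theorem pot_in (θ : ℝ) (x d : E3) (hd : ‖d‖ = 1) (h : ⟪x, d⟫ ≤ 0) :
    pot θ x d = - cc θ ‖x‖ (ld x d) := by
  have h1 := pot_neg θ x d hd
  have h2 := pot_out θ x (-d) (by rw [norm_neg]; exact hd) (by rw [inner_neg_right]; linarith)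
  rw [ld_neg] at h2
  linarith

end Pool.Agent.EscapeBall
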