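import Pool.Agent.Work.MP_7cd6c4_gt.Analysis

open MeasureTheory Set Real
open scoped Interval

namespace Pool.Agent.EscapeBall

/-- Modified weight of the horizon. -/
noncomputable def th : ℝ := 127 / 125

/-- Threshold radius. -/
noncomputable def ra : ℝ := 161 / 100

/-- Lower bound for the line distance outside the threshold radius. -/
noncomputable def rb : ℝ := 15674 / 10000

theorem psi_mono {θ s t : ℝ} (h0 : 0 ≤ θ) (hθ : θ ≤ th) (hs : rb ≤ s) (hst : s ≤ t) :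
    psi θ s ≤ psi θ t := by
  have hb : (1.5674 : ℝ) ≤ s := by unfold rb at hs; linarith
  have hs0 : 0 < s := by linarith
  have ht0 : 0 < t := by linarith
  have hs1 : 1 ≤ s := by linarith
  have ht1 : 1 ≤ t := by linarith
  unfold psi
  rw [gf_of_one_le hs1, gf_of_one_le ht1]
  have hu2 : √(s ^ 2 - 1) ^ 2 = s ^ 2 - 1 := Real.sq_sqrt (by nlinarith)
  have hv2 : √(t ^ 2 - 1) ^ 2 = t ^ 2 - 1 := Real.sq_sqrt (by nlinarith)
  have hu : 1.2 ≤ √(s ^ 2 - 1) := by
    apply Real.le_sqrt_of_sq_le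
    nlinarith
  have hv : 1.2 ≤ √(t ^ 2 - 1) := by
    apply Real.le_sqrt_of_sq_le
    nlinarith
  set u := √(s ^ 2 - 1) with hudef
  set v := √(t ^ 2 - 1) with hvdef
  -- `v s - u t` times `v s + u t` equals `t² - s²`
  have h1 : (v * s - u * t) * (v * s + u * t) = t ^ 2 - s ^ 2 := by
    have : (v * s - u * t) * (v * s + u * t) = v ^ 2 * s ^ 2 - u ^ 2 * t ^ 2 := by ring
    rw [this, hu2, hv2]
    ring
  have h2 : v / t - u / s = (v * s - u * t) / (s * t) := by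
    field_simp
  have h3 : 1.2 * (s + t) ≤ v * s + u * t := by nlinarith
  have h4 : v * s - u * t ≤ (t - s) / 1.2 := by
    rw [le_div_iff₀ (by norm_num)]
    by_contra hcon
    push Not at hcon
    have h5 : 0 < v * s - u * t := by nlinarith
    nlinarith
  have h6 : (v * s - u * t) / (s * t) ≤ (t - s) / 1.2 / (s * t) :=
    div_le_div_of_nonneg_right h4 (by positivity)
  have h7 : (t - s) / 1.2 / (s * t) ≤ (t - s) * 0.4 := by
    rw [div_div, div_le_iff₀ (by positivity)]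
    have : 1 ≤ 0.4 * (1.2 * (s * t)) := by nlinarith
    nlinarith
  have h8 : v / t - u / s ≤ (t - s) * 0.4 := by rw [h2]; exact h6.trans h7
  have h9 : 2 * θ * (v / t - u / s) ≤ 2 * θ * ((t - s) * 0.4) :=
    mul_le_mul_of_nonneg_left h8 (by linarith)
  have h10 : 2 * θ * ((t - s) * 0.4) ≤ t - s := by
    unfold th at hθ
    nlinarith
  linarith

theorem psi_th_mono {s t : ℝ} (hs : rb ≤ s) (hst : s ≤ t) : psi th s ≤ psi th t :=
  psi_mono (by unfold th; norm_num) le_rfl hs hst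

theorem psi_th_rb : 0 ≤ psi th rb := by
  unfold psi
  rw [gf_of_one_le (by unfold rb; norm_num)]
  have h1 : √(rb ^ 2 - 1) ≤ 1.20696 := by
    rw [Real.sqrt_le_left (by norm_num)]
    unfold rb
    norm_num
  have h2 : √(rb ^ 2 - 1) / rb ≤ 1.20696 / rb :=
    div_le_div_of_nonneg_right h1 (by unfold rb; norm_num)
  have h3 : 2 * th * (1.20696 / rb) ≤ rb := by
    unfold th rb
    norm_num
  have h4 : 2 * th * (√(rb ^ 2 - 1) / rb) ≤ 2 * th * (1.20696 / rb) :=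
    mul_le_mul_of_nonneg_left h2 (by unfold th; norm_num)
  linarith

theorem psi_th_nonneg {t : ℝ} (ht : rb ≤ t) : 0 ≤ psi th t :=
  psi_th_rb.trans (psi_th_mono le_rfl ht)

/-- Outside the threshold the modified potential grows with the radius. -/
theorem cc_th_mono {r₁ r₂ p : ℝ} (hp : rb ≤ p) (hpr : p ≤ r₁) (h12 : r₁ ≤ r₂) :
    cc th r₁ p ≤ cc th r₂ p := by
  have hp0 : 0 < p := lt_of_lt_of_le (by unfold rb; norm_num) hp
  have h1 : 0 < r₁ := hp0.trans_le hpr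
  have h2 : 0 < r₂ := h1.trans_le h12
  have m1 := arcsin_mem h1 hp0.le hpr
  have m2 := arcsin_mem h2 hp0.le (hpr.trans h12)
  have hle : arcsin (p / r₂) ≤ arcsin (p / r₁) :=
    Real.monotone_arcsin (div_le_div_of_nonneg_left hp0.le h1 h12)
  unfold cc
  rw [← intervalIntegral.integral_add_adjacent_intervals
    (ii_psi th r₂ (arcsin (p / r₂)) (arcsin (p / r₁))) (ii_psi th r₂ (arcsin (p / r₁)) (π / 2))]
  have i1 : 0 ≤ ∫ σ in arcsin (p / r₂)..arcsin (p / r₁), psi th (r₂ * sin σ) := by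
    apply intervalIntegral.integral_nonneg hle
    intro σ hσ
    apply psi_th_nonneg
    refine hp.trans ?_
    rw [← m2.2.2]
    apply mul_le_mul_of_nonneg_left _ h2.le
    apply Real.sin_le_sin_of_le_of_le_pi_div_two (by linarith [m2.1, Real.pi_pos])
      (hσ.2.trans m1.2.1) hσ.1
  have i2 : ∫ σ in arcsin (p / r₁)..(π / 2), psi th (r₁ * sin σ) ≤
      ∫ σ in arcsin (p / r₁)..(π / 2), psi th (r₂ * sin σ) := by
    apply intervalIntegral.integral_mono_on m1.2.1 (ii_psi _ _ _ _) (ii_psi _ _ _ _)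
    intro σ hσ
    have hsin : p ≤ r₁ * sin σ := by
      rw [← m1.2.2]
      apply mul_le_mul_of_nonneg_left _ h1.le
      apply Real.sin_le_sin_of_le_of_le_pi_div_two (by linarith [m1.1, Real.pi_pos])
        hσ.2 hσ.1
    have hs0 : 0 ≤ sin σ := Real.sin_nonneg_of_nonneg_of_le_pi (m1.1.trans hσ.1)
      (by linarith [hσ.2, Real.pi_pos])
    exact psi_th_mono (hp.trans hsin) (mul_le_mul_of_nonneg_right h12 hs0)
  linarith

theorem cc_th_nonneg {r p : ℝ} (hp : rb ≤ p) (hpr : p ≤ r) : 0 ≤ cc th r p := by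
  have hp0 : 0 < p := lt_of_lt_of_le (by unfold rb; norm_num) hp
  have := cc_th_mono hp le_rfl hpr
  rwa [cc_self th hp0] at this

theorem num_ii {r₁ r₂ : ℝ} (h1 : ra ≤ r₁) (h12 : r₁ ≤ r₂) :
    0 ≤ ((r₁ - √(r₁ ^ 2 - 1)) - (r₂ - √(r₂ ^ 2 - 1))) + (1 - th) *
      ((√(r₁ ^ 2 - 1) - √(r₁ ^ 2 - rb ^ 2)) - (√(r₂ ^ 2 - 1) - √(r₂ ^ 2 - rb ^ 2))) := by
  unfold ra at h1
  have key : ∀ r : ℝ, 161 / 100 ≤ r → √(r ^ 2 - 1) ^ 2 = r ^ 2 - 1 ∧
      √(r ^ 2 - rb ^ 2) ^ 2 = r ^ 2 - rb ^ 2 ∧ 0.2 * r ≤ √(r ^ 2 - rb ^ 2) ∧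
      0.78 * r ≤ √(r ^ 2 - 1) ∧
      0.08 * (√(r ^ 2 - 1) - √(r ^ 2 - rb ^ 2)) ≤ r - √(r ^ 2 - 1) ∧
      √(r ^ 2 - rb ^ 2) ≤ √(r ^ 2 - 1) ∧ √(r ^ 2 - 1) ≤ r := by
    intro r hr
    have e1 : √(r ^ 2 - 1) ^ 2 = r ^ 2 - 1 := Real.sq_sqrt (by nlinarith)
    have e2 : √(r ^ 2 - rb ^ 2) ^ 2 = r ^ 2 - rb ^ 2 :=
      Real.sq_sqrt (by unfold rb; nlinarith)
    have e3 : 0.2 * r ≤ √(r ^ 2 - rb ^ 2) := by
      apply Real.le_sqrt_of_sq_le
      unfold rb
      nlinarith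
    have e4 : 0.78 * r ≤ √(r ^ 2 - 1) := by
      apply Real.le_sqrt_of_sq_le
      nlinarith
    have e6 : √(r ^ 2 - rb ^ 2) ≤ √(r ^ 2 - 1) := by
      apply Real.sqrt_le_sqrt
      have : (1:ℝ) ≤ rb ^ 2 := by unfold rb; norm_num
      linarith
    have e7 : √(r ^ 2 - 1) ≤ r := by
      rw [Real.sqrt_le_left (by linarith)]
      linarith
    refine ⟨e1, e2, e3, e4, ?_, e6, e7⟩
    set u := √(r ^ 2 - 1)
    set v := √(r ^ 2 - rb ^ 2)
    have f1 : (r - u) * (r + u) = 1 := by linear_combination -e1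
    have f2 : (u - v) * (u + v) = rb ^ 2 - 1 := by linear_combination e1 - e2
    have hr0 : 0 < r := by linarith
    have f3 : 1 ≤ (r - u) * (2 * r) := by
      rw [← f1]
      apply mul_le_mul_of_nonneg_left _ (by linarith)
      linarith
    have f4 : (u - v) * (0.98 * r) ≤ rb ^ 2 - 1 := by
      rw [← f2]
      apply mul_le_mul_of_nonneg_left _ (by linarith)
      linarith
    have f5 : rb ^ 2 - 1 ≤ 1.5 := by unfold rb; norm_num
    by_contra hcon
    push Not at hcon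
    have f6 : (r - u) * (2 * r) < 0.08 * (u - v) * (2 * r) := by
      apply mul_lt_mul_of_pos_right hcon (by linarith)
    nlinarith
  obtain ⟨a1, a2, a3, a4, a5, a6, a7⟩ := key r₁ h1
  obtain ⟨b1, b2, b3, b4, b5, b6, b7⟩ := key r₂ (h1.trans h12)
  set u₁ := √(r₁ ^ 2 - 1)
  set v₁ := √(r₁ ^ 2 - rb ^ 2)
  set u₂ := √(r₂ ^ 2 - 1)
  set v₂ := √(r₂ ^ 2 - rb ^ 2)
  have hr1 : 0 < r₁ := by linarith
  have hr2 : 0 < r₂ := by linarith
  have hP0 : 0 < r₁ + r₂ := by linarith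
  have hP1 : 0 < u₁ + u₂ := by linarith
  have hPb : 0 < v₁ + v₂ := by linarith
  have hΔ : 0 ≤ r₂ ^ 2 - r₁ ^ 2 := by nlinarith
  have g0 : r₂ - r₁ = (r₂ ^ 2 - r₁ ^ 2) / (r₁ + r₂) := by
    rw [eq_div_iff hP0.ne']; ring
  have g1 : u₂ - u₁ = (r₂ ^ 2 - r₁ ^ 2) / (u₁ + u₂) := by
    rw [eq_div_iff hP1.ne']; linear_combination b1 - a1
  have gb : v₂ - v₁ = (r₂ ^ 2 - r₁ ^ 2) / (v₁ + v₂) := by
    rw [eq_div_iff hPb.ne']; linear_combination b2 - a2
  have hgoal : ((r₁ - u₁) - (r₂ - u₂)) + (1 - th) * ((u₁ - v₁) - (u₂ - v₂)) =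
      (u₂ - u₁) - (r₂ - r₁) - (th - 1) * ((v₂ - v₁) - (u₂ - u₁)) := by ring
  rw [hgoal, g0, g1, gb]
  set P0 := r₁ + r₂
  set P1 := u₁ + u₂
  set Pb := v₁ + v₂
  have h01 : 0.08 * (P1 - Pb) ≤ P0 - P1 := by
    simp only [P0, P1, Pb]; linarith
  have hb0 : 0.2 * P0 ≤ Pb := by
    simp only [P0, Pb]; linarith
  have h1b : 0 ≤ P1 - Pb := by
    simp only [P1, Pb]; linarith
  have hD : (r₂ ^ 2 - r₁ ^ 2) / P1 - (r₂ ^ 2 - r₁ ^ 2) / P0 - (th - 1) *
      ((r₂ ^ 2 - r₁ ^ 2) / Pb - (r₂ ^ 2 - r₁ ^ 2) / P1) =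
      (r₂ ^ 2 - r₁ ^ 2) * (((P0 - P1) * Pb - (th - 1) * ((P1 - Pb) * P0)) / (P0 * P1 * Pb)) := by
    field_simp
  rw [hD]
  apply mul_nonneg hΔ
  apply div_nonneg _ (by positivity)
  have k1 : 0.08 * (P1 - Pb) * (0.2 * P0) ≤ (P0 - P1) * Pb := by
    apply mul_le_mul h01 hb0 (by positivity)
    nlinarith
  unfold th
  nlinarith

/-- The comparison with the radial potential for the modified weight. -/
theorem cc_th_super {r₁ r₂ p : ℝ} (h1 : ra ≤ r₁) (h12 : r₁ ≤ r₂) (hp : rb ≤ p) (hpr : p ≤ r₁) :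
    cc th r₂ 0 - cc th r₁ 0 ≤ cc th r₂ p - cc th r₁ p := by
  rcases eq_or_lt_of_le h12 with heq | hlt
  · rw [← heq]; simp
  have hr1 : 0 < r₁ := lt_of_lt_of_le (by unfold ra; norm_num) h1
  have hr2 : 0 < r₂ := hr1.trans hlt
  have hp0 : 0 < p := lt_of_lt_of_le (by unfold rb; norm_num) hp
  have hk0 : 0 < r₁ / r₂ := by positivity
  have hk1 : r₁ / r₂ < 1 := by rw [div_lt_one hr2]; exact hlt
  have hb0 : 0 < rb := by unfold rb; norm_num
  have hb1 : (1:ℝ) ≤ rb := by unfold rb; norm_num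
  have hbr : rb ≤ r₁ := hp.trans hpr
  suffices 0 ≤ (cc th r₁ 0 - cc th r₁ p) - (cc th r₂ 0 - cc th r₂ p) by linarith
  rw [cc_sub, cc_sub, ← arcsin_change (r₂ := r₂) hr1 le_rfl hr1.le,
    ← arcsin_change (r₂ := r₂) hr1 hp0.le hpr,
    change_radius (psi th) (continuous_psi th) hr1 hlt]
  have hcw := continuous_wt hk0 hk1
  have hcp := continuous_psi_sin th r₁
  have hF : Continuous fun σ => psi th (r₁ * sin σ) * (1 - wt (r₁ / r₂) σ) :=
    hcp.mul (continuous_const.sub hcw)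
  have hG : Continuous fun σ => r₁ * sin σ * (1 - wt (r₁ / r₂) σ) :=
    (by fun_prop : Continuous fun σ => r₁ * sin σ).mul (continuous_const.sub hcw)
  rw [← intervalIntegral.integral_sub (ii_psi _ _ _ _)
    (show IntervalIntegrable (fun σ => psi th (r₁ * sin σ) * wt (r₁ / r₂) σ) volume _ _ from
      (hcp.mul hcw).intervalIntegrable _ _)]
  have e0 : ∀ σ, psi th (r₁ * sin σ) - psi th (r₁ * sin σ) * wt (r₁ / r₂) σ =
      psi th (r₁ * sin σ) * (1 - wt (r₁ / r₂) σ) := by intro σ; ring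
  simp_rw [e0]
  -- closed form for the linear density
  have hJ : ∀ q q' : ℝ, 0 ≤ q' → q' ≤ q → q ≤ r₁ →
      ∫ σ in arcsin (q' / r₁)..arcsin (q / r₁), r₁ * sin σ * (1 - wt (r₁ / r₂) σ) =
      (√(r₁ ^ 2 - q' ^ 2) - √(r₁ ^ 2 - q ^ 2)) - (√(r₂ ^ 2 - q' ^ 2) - √(r₂ ^ 2 - q ^ 2)) := by
    intro q q' h0 hq hqr
    rw [← integral_sin_arcsin hr1, ← integral_sin_arcsin hr2]
    have := change_radius (fun t => t) continuous_id hr1 hlt (arcsin (q' / r₁)) (arcsin (q / r₁))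
    rw [arcsin_change hr1 h0 (hq.trans hqr), arcsin_change hr1 (h0.trans hq) hqr] at this
    rw [this, ← intervalIntegral.integral_sub
      (show IntervalIntegrable (fun σ => r₁ * sin σ) volume _ _ from
        (by fun_prop : Continuous fun σ => r₁ * sin σ).intervalIntegrable _ _)
      (show IntervalIntegrable (fun σ => r₁ * sin σ * wt (r₁ / r₂) σ) volume _ _ from
        ((by fun_prop : Continuous fun σ => r₁ * sin σ).mul hcw).intervalIntegrable _ _)]
    apply intervalIntegral.integral_congr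
    intro σ _
    simp only
    ring
  have m0 : arcsin (0 / r₁) = 0 := by simp
  have mα := arcsin_mem hr1 zero_le_one (hb1.trans hbr)
  have mβ := arcsin_mem hr1 hb0.le hbr
  have mγ := arcsin_mem hr1 hp0.le hpr
  have lαβ : arcsin (1 / r₁) ≤ arcsin (rb / r₁) :=
    Real.monotone_arcsin (div_le_div_of_nonneg_right hb1 hr1.le)
  have lβγ : arcsin (rb / r₁) ≤ arcsin (p / r₁) :=
    Real.monotone_arcsin (div_le_div_of_nonneg_right hp hr1.le)
  have hle_r : ∀ {σ q : ℝ}, 0 ≤ σ → 0 ≤ q → q ≤ r₁ → σ ≤ arcsin (q / r₁) → r₁ * sin σ ≤ q := by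
    intro σ q h0 hq hqr h
    have m := arcsin_mem hr1 hq hqr
    rw [← m.2.2]
    apply mul_le_mul_of_nonneg_left _ hr1.le
    apply Real.sin_le_sin_of_le_of_le_pi_div_two (by linarith [Real.pi_pos]) m.2.1 h
  have hge_r : ∀ {σ q : ℝ}, σ ≤ π / 2 → 0 ≤ q → q ≤ r₁ → arcsin (q / r₁) ≤ σ →
      q ≤ r₁ * sin σ := by
    intro σ q h0 hq hqr h
    have m := arcsin_mem hr1 hq hqr
    rw [← m.2.2]
    apply mul_le_mul_of_nonneg_left _ hr1.le
    apply Real.sin_le_sin_of_le_of_le_pi_div_two (by linarith [Real.pi_pos, m.1]) h0 h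
  have i1 : ∫ σ in arcsin (0 / r₁)..arcsin (1 / r₁), psi th (r₁ * sin σ) *
      (1 - wt (r₁ / r₂) σ) = (r₁ - √(r₁ ^ 2 - 1)) - (r₂ - √(r₂ ^ 2 - 1)) := by
    have := hJ 1 0 le_rfl zero_le_one (hb1.trans hbr)
    rw [show r₁ ^ 2 - 0 ^ 2 = r₁ ^ 2 by ring, show r₂ ^ 2 - 0 ^ 2 = r₂ ^ 2 by ring,
      Real.sqrt_sq hr1.le, Real.sqrt_sq hr2.le, one_pow] at this
    rw [← this]
    apply intervalIntegral.integral_congr
    intro σ hσ
    rw [m0, uIcc_of_le mα.1] at hσ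
    simp only
    rw [psi_of_le_one]
    · exact mul_nonneg hr1.le (Real.sin_nonneg_of_nonneg_of_le_pi hσ.1
        (by linarith [hσ.2, mα.2.1, Real.pi_pos]))
    · exact hle_r hσ.1 zero_le_one (hb1.trans hbr) hσ.2
  have i2 : (1 - th) * ((√(r₁ ^ 2 - 1) - √(r₁ ^ 2 - rb ^ 2)) - (√(r₂ ^ 2 - 1) -
      √(r₂ ^ 2 - rb ^ 2))) ≤ ∫ σ in arcsin (1 / r₁)..arcsin (rb / r₁), psi th (r₁ * sin σ) *
      (1 - wt (r₁ / r₂) σ) := by
    have := hJ rb 1 zero_le_one hb1 hbr
    rw [one_pow] at this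
    rw [← this, ← intervalIntegral.integral_const_mul]
    apply intervalIntegral.integral_mono_on lαβ ((hG.const_mul _).intervalIntegrable _ _)
      (hF.intervalIntegrable _ _)
    intro σ hσ
    have hs0 : 0 ≤ σ := mα.1.trans hσ.1
    have hs1 : σ ≤ π / 2 := hσ.2.trans mβ.2.1
    have hw := wt_mem hk0 hk1 hs0 hs1
    have hsin : 0 ≤ r₁ * sin σ := mul_nonneg hr1.le (Real.sin_nonneg_of_nonneg_of_le_pi hs0
        (by linarith [Real.pi_pos]))
    have := psi_ge (θ := th) (by unfold th; norm_num) hsin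
    have h5 : 0 ≤ 1 - wt (r₁ / r₂) σ := by linarith [hw.2]
    calc (1 - th) * (r₁ * sin σ * (1 - wt (r₁ / r₂) σ)) =
        ((1 - th) * (r₁ * sin σ)) * (1 - wt (r₁ / r₂) σ) := by ring
      _ ≤ _ := mul_le_mul_of_nonneg_right this h5
  have i3 : 0 ≤ ∫ σ in arcsin (rb / r₁)..arcsin (p / r₁), psi th (r₁ * sin σ) *
      (1 - wt (r₁ / r₂) σ) := by
    apply intervalIntegral.integral_nonneg lβγ
    intro σ hσ
    have hs0 : 0 ≤ σ := mβ.1.trans hσ.1
    have hs1 : σ ≤ π / 2 := hσ.2.trans mγ.2.1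
    have hw := wt_mem hk0 hk1 hs0 hs1
    apply mul_nonneg (psi_th_nonneg (hge_r hs1 hb0.le hbr hσ.1))
    linarith [hw.2]
  rw [← intervalIntegral.integral_add_adjacent_intervals (b := arcsin (1 / r₁))
    (hF.intervalIntegrable _ _) (hF.intervalIntegrable _ _),
    ← intervalIntegral.integral_add_adjacent_intervals (a := arcsin (1 / r₁))
    (b := arcsin (rb / r₁)) (hF.intervalIntegrable _ _) (hF.intervalIntegrable _ _), i1]
  have hnum := num_ii h1 h12
  linarith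

theorem psi_one_ra : 0.0425 ≤ psi 1 ra := by
  unfold psi
  rw [gf_of_one_le (by unfold ra; norm_num)]
  have h1 : √(ra ^ 2 - 1) ≤ 1.26179 := by
    rw [Real.sqrt_le_left (by norm_num)]
    unfold ra
    norm_num
  have h2 : √(ra ^ 2 - 1) / ra ≤ 1.26179 / ra :=
    div_le_div_of_nonneg_right h1 (by unfold ra; norm_num)
  have h3 : 0.0425 + 2 * (1.26179 / ra) ≤ ra := by
    unfold ra
    norm_num
  linarith

theorem poly_star {x D p ψ : ℝ} (hx : 0 ≤ x) (hxD : x ≤ D) (hD : D ≤ 0.34131) (hp : 1.61 ≤ p)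
    (hψ : 0.0425 ≤ ψ) : x * (D - x) ^ 2 ≤ ψ ^ 2 * (2 * p + x) := by
  have h1 : (D - x) ^ 2 ≤ (0.34131 - x) ^ 2 := pow_le_pow_left₀ (by linarith) (by linarith) 2
  have h2 : x * (D - x) ^ 2 ≤ x * (0.34131 - x) ^ 2 := mul_le_mul_of_nonneg_left h1 hx
  have h3 : (0.0425 : ℝ) ^ 2 * (3.22 + x) ≤ ψ ^ 2 * (2 * p + x) := by
    apply mul_le_mul _ (by linarith) (by linarith) (by positivity)
    exact pow_le_pow_left₀ (by norm_num) hψ 2
  have h4 : x * (0.34131 - x) ^ 2 ≤ (0.0425 : ℝ) ^ 2 * (3.22 + x) := by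
    have h5 : 0 ≤ (0.34131 - x) * (x - 0.11377) ^ 2 :=
      mul_nonneg (by linarith) (sq_nonneg _)
    nlinarith [sq_nonneg (x - 0.11377 + 0.0079)]
  linarith

/-- Descending along a line from radius `r` to its foot costs more than the gain in the radial
potential. -/
theorem star_psi {p r : ℝ} (hp : ra ≤ p) (hpr : p ≤ r) :
    (π / (p * r) - 1) * (r - p) ≤ cc 1 r p := by
  have hp0 : 0 < p := lt_of_lt_of_le (by unfold ra; norm_num) hp
  have hr0 : 0 < r := hp0.trans_le hpr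
  have hbp : rb ≤ p := le_trans (by unfold rb ra; norm_num) hp
  rcases le_or_gt (π / p) r with hr | hr
  · have h1 : π / (p * r) ≤ 1 := by
      rw [div_le_one (by positivity)]
      rw [div_le_iff₀ hp0] at hr
      linarith
    have h2 : (π / (p * r) - 1) * (r - p) ≤ 0 :=
      mul_nonpos_of_nonpos_of_nonneg (by linarith) (by linarith)
    exact h2.trans (cc_nonneg hr0 hp0.le hpr)
  · have m := arcsin_mem hr0 hp0.le hpr
    have hψ : 0.0425 ≤ psi 1 p := psi_one_ra.trans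
      (psi_mono zero_le_one (by unfold th; norm_num) (by unfold rb ra; norm_num) hp)
    -- lower bound of the integral
    have h1 : psi 1 p * (π / 2 - arcsin (p / r)) ≤ cc 1 r p := by
      unfold cc
      have : ∫ σ in arcsin (p / r)..(π / 2), psi 1 p = (π / 2 - arcsin (p / r)) * psi 1 p := by
        rw [intervalIntegral.integral_const, smul_eq_mul]
      rw [mul_comm, ← this]
      apply intervalIntegral.integral_mono_on m.2.1 (by simp) (ii_psi _ _ _ _)
      intro σ hσ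
      apply psi_mono zero_le_one (by unfold th; norm_num) hbp
      calc p = r * sin (arcsin (p / r)) := m.2.2.symm
        _ ≤ r * sin σ := by
          apply mul_le_mul_of_nonneg_left _ hr0.le
          apply Real.sin_le_sin_of_le_of_le_pi_div_two (by linarith [Real.pi_pos, m.1])
            hσ.2 hσ.1
    have h2 : √(r ^ 2 - p ^ 2) / r ≤ π / 2 - arcsin (p / r) := by
      rw [← cos_arcsin_mul hr0, mul_div_cancel_left₀ _ hr0.ne', ← Real.sin_pi_div_two_sub]
      exact Real.sin_le (by linarith [m.2.1])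
    have h3 : psi 1 p * (√(r ^ 2 - p ^ 2) / r) ≤ cc 1 r p :=
      (mul_le_mul_of_nonneg_left h2 (by linarith)).trans h1
    refine le_trans ?_ h3
    -- reduce to a polynomial inequality
    have hD : π / p - p ≤ 0.34131 := by
      have h4 : π / p ≤ 3.1416 / 1.61 := by
        apply div_le_div₀ (by norm_num) Real.pi_lt_d4.le (by norm_num)
        unfold ra at hp
        linarith
      have h5 : (3.1416 : ℝ) / 1.61 - 1.61 ≤ 0.34131 := by norm_num
      unfold ra at hp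
      linarith
    have hpoly := poly_star (x := r - p) (D := π / p - p) (p := p) (ψ := psi 1 p)
      (by linarith) (by linarith) hD (by unfold ra at hp; linarith) hψ
    have hE : (π / (p * r) - 1) * (r - p) = (π / p - p - (r - p)) * (r - p) / r := by
      field_simp
      ring
    rw [hE, mul_div_assoc']
    apply div_le_div_of_nonneg_right _ hr0.le
    have hsq : √(r ^ 2 - p ^ 2) ^ 2 = r ^ 2 - p ^ 2 := Real.sq_sqrt (by nlinarith)
    apply le_of_sq_le_sq _ (by positivity)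
    rw [mul_pow, mul_pow, hsq]
    have hx : 0 ≤ r - p := by linarith
    calc (π / p - p - (r - p)) ^ 2 * (r - p) ^ 2 =
        ((r - p) * (π / p - p - (r - p)) ^ 2) * (r - p) := by ring
      _ ≤ (psi 1 p ^ 2 * (2 * p + (r - p))) * (r - p) := mul_le_mul_of_nonneg_right hpoly hx
      _ = psi 1 p ^ 2 * (r ^ 2 - p ^ 2) := by ring

end Pool.Agent.EscapeBall
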