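import Pool.Agent.Work.MP_7cd6c4_gt.Crossing

open MeasureTheory Set Real Filter Topology
open scoped RealInnerProductSpace ENNReal

namespace Pool.Agent.EscapeBall

theorem nonneg_of_min {φ : ℝ → ℝ} {φ' : ℝ} (h : HasDerivAt φ φ' 0) (hmin : ∀ t > 0, φ 0 ≤ φ t) :
    0 ≤ φ' := by
  have h1 := h.tendsto_slope_zero_right
  refine ge_of_tendsto h1 ?_
  filter_upwards [self_mem_nhdsWithin] with t ht
  have ht' : (0:ℝ) < t := ht
  have := hmin t ht'
  rw [zero_add, smul_eq_mul]
  have : 0 ≤ φ t - φ 0 := by linarith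
  positivity

theorem hasDerivAt_norm_add (a w : E3) (ha : a ≠ 0) :
    HasDerivAt (fun t : ℝ => ‖a + t • w‖) (⟪w, ‖a‖⁻¹ • a⟫) 0 := by
  have h1 : HasDerivAt (fun t : ℝ => a + t • w) w 0 := by
    have := (hasDerivAt_id (0:ℝ)).smul_const w
    simpa using this.const_add a
  have h2 := h1.norm_sq
  have hz : a + (0:ℝ) • w = a := by simp
  rw [hz] at h2
  have hpos : 0 < ‖a‖ := norm_pos_iff.2 ha
  have h3 := h2.sqrt (by rw [hz]; positivity)
  rw [hz, Real.sqrt_sq (norm_nonneg a)] at h3
  have h4 : (fun t : ℝ => √(‖a + t • w‖ ^ 2)) = fun t : ℝ => ‖a + t • w‖ := by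
    funext t
    exact Real.sqrt_sq (norm_nonneg _)
  rw [h4] at h3
  convert h3 using 1
  rw [real_inner_smul_right, real_inner_comm]
  field_simp

theorem norm_le_len (N : ℕ) (x : ℕ → E3) (h0 : x 0 = 0) {i : ℕ} (hi : i ≤ N) :
    ‖x i‖ ≤ len N x := by
  have h1 := dist_le_range_sum_dist x i
  rw [h0, dist_zero_left] at h1
  refine h1.trans ?_
  unfold len
  exact Finset.sum_le_sum_of_subset_of_nonneg (Finset.range_subset_range.2 hi)
    fun _ _ _ => dist_nonneg

theorem len_update (N m : ℕ) (x : ℕ → E3) (hm : m < N) (p : E3) :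
    len N (Function.update x (m + 1) p) - len N x =
      (dist (x m) p - dist (x m) (x (m + 1))) +
      (if m + 1 < N then dist p (x (m + 2)) - dist (x (m + 1)) (x (m + 2)) else 0) := by
  unfold len
  rw [← Finset.sum_sub_distrib]
  have hzero : ∀ j, j ≠ m → j ≠ m + 1 → dist (Function.update x (m + 1) p j)
      (Function.update x (m + 1) p (j + 1)) - dist (x j) (x (j + 1)) = 0 := by
    intro j h1 h2
    rw [Function.update_of_ne h2, Function.update_of_ne (by omega), sub_self]
  have hm0 : dist (Function.update x (m + 1) p m) (Function.update x (m + 1) p (m + 1)) =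
      dist (x m) p := by
    rw [Function.update_self, Function.update_of_ne (by omega)]
  have hm1 : dist (Function.update x (m + 1) p (m + 1)) (Function.update x (m + 1) p (m + 1 + 1)) =
      dist p (x (m + 2)) := by
    rw [Function.update_self, Function.update_of_ne (by omega)]
  split_ifs with h
  · rw [← Finset.sum_subset (s₁ := {m, m + 1}) (by
      intro j hj
      simp only [Finset.mem_insert, Finset.mem_singleton] at hj
      rw [Finset.mem_range]
      omega) (by
      intro j _ hj
      simp only [Finset.mem_insert, Finset.mem_singleton, not_or] at hj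
      exact hzero j hj.1 hj.2)]
    rw [Finset.sum_pair (by omega), hm0, hm1]
  · have hN : N = m + 1 := by omega
    subst hN
    rw [← Finset.sum_subset (s₁ := {m}) (by
      intro j hj
      simp only [Finset.mem_singleton] at hj
      rw [Finset.mem_range]
      omega) (by
      intro j hj1 hj
      rw [Finset.mem_range] at hj1
      simp only [Finset.mem_singleton] at hj
      exact hzero j hj (by omega))]
    rw [Finset.sum_singleton, hm0, add_zero]

theorem sees_update (N m : ℕ) (x : ℕ → E3) (hs : Sees N x) {t : ℝ} (ht : 0 < t) (v : E3)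
    (hv : ∀ u : E3, ‖u‖ = 1 → 1 ≤ ⟪x (m + 1), u⟫ → 0 ≤ ⟪v, u⟫) :
    Sees N (Function.update x (m + 1) (x (m + 1) + t • v)) := by
  intro u hu
  obtain ⟨i, hi, h⟩ := hs u hu
  refine ⟨i, hi, ?_⟩
  by_cases him : i = m + 1
  · subst him
    rw [Function.update_self, inner_add_left, real_inner_smul_left]
    have := mul_nonneg ht.le (hv u hu h)
    linarith
  · rwa [Function.update_of_ne him]

/-- Deleting a repeated vertex. -/
theorem delete_vertex (M k : ℕ) (x : ℕ → E3) (h0 : x 0 = 0) (hs : Sees (M + 1) x) (hk : k ≤ M)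
    (heq : x k = x (k + 1)) :
    ∃ y : ℕ → E3, y 0 = 0 ∧ Sees M y ∧ len M y = len (M + 1) x := by
  refine ⟨fun j => if j ≤ k then x j else x (j + 1), by simp [h0], ?_, ?_⟩
  · intro u hu
    obtain ⟨i, hi, h⟩ := hs u hu
    rcases Nat.lt_or_ge k i with h1 | h1
    · rcases Nat.lt_or_ge (k + 1) i with h2 | h2
      · refine ⟨i - 1, by omega, ?_⟩
        simp only
        rw [if_neg (by omega)]
        have : i - 1 + 1 = i := by omega
        rw [this]
        exact h
      · have : i = k + 1 := by omega
        refine ⟨k, hk, ?_⟩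
        simp only
        rw [if_pos le_rfl, heq, ← this]
        exact h
    · refine ⟨i, by omega, ?_⟩
      simp only
      rw [if_pos h1]
      exact h
  · obtain ⟨m, rfl⟩ := Nat.exists_eq_add_of_le hk
    unfold len
    rw [show k + m + 1 = k + 1 + m by ring, Finset.sum_range_add, Finset.sum_range_add,
      Finset.sum_range_succ, ← heq, dist_self, add_zero]
    congr 1
    · apply Finset.sum_congr rfl
      intro j hj
      rw [Finset.mem_range] at hj
      simp only
      rw [if_pos (by omega), if_pos (by omega)]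
    · apply Finset.sum_congr rfl
      intro j _
      simp only
      have e1 : k + 1 + j = k + j + 1 := by ring
      rw [if_neg (by omega : ¬ (k + j + 1 ≤ k)), e1]
      rcases Nat.eq_zero_or_pos j with rfl | hj
      · rw [if_pos (by omega)]
        simp only [add_zero]
        rw [heq]
      · rw [if_neg (by omega)]

theorem isClosed_sees (N : ℕ) : IsClosed {x : ℕ → E3 | Sees N x} := by
  have : {x : ℕ → E3 | Sees N x} = ⋂ u : E3, ⋂ _ : ‖u‖ = 1, ⋃ i ∈ Finset.range (N + 1),
      {x : ℕ → E3 | 1 ≤ ⟪x i, u⟫} := by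
    ext x
    simp only [Sees, mem_ofPred_eq, mem_iInter, mem_iUnion, Finset.mem_range]
    constructor
    · intro h u hu
      obtain ⟨i, hi, h'⟩ := h u hu
      exact ⟨i, by omega, h'⟩
    · intro h u hu
      obtain ⟨i, hi, h'⟩ := h u hu
      exact ⟨i, by omega, h'⟩
  rw [this]
  refine isClosed_iInter fun u => isClosed_iInter fun _ => ?_
  refine isClosed_biUnion_finset fun i _ => ?_
  exact isClosed_le (continuous_const) (by fun_prop)

theorem polygon_lower (N : ℕ) (x : ℕ → E3) (h0 : x 0 = 0) (hs : Sees N x) :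
    lowBound ≤ len N x := by
  by_contra hcon
  push Not at hcon
  have hex : ∃ N, ∃ x : ℕ → E3, x 0 = 0 ∧ Sees N x ∧ len N x < lowBound := ⟨N, x, h0, hs, hcon⟩
  classical
  clear hcon hs h0 x N
  obtain ⟨x, h0, hs, hlt⟩ := Nat.find_spec hex
  have hmin : ∀ m < Nat.find hex, ¬ ∃ x : ℕ → E3, x 0 = 0 ∧ Sees m x ∧ len m x < lowBound :=
    fun m hm => Nat.find_min hex hm
  generalize Nat.find hex = N at hs hlt hmin
  -- truncation
  let tr : (ℕ → E3) → ℕ → E3 := fun w i => if i ≤ N then w i else 0
  have htr_len : ∀ w, len N (tr w) = len N w := by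
    intro w
    unfold len
    apply Finset.sum_congr rfl
    intro j hj
    rw [Finset.mem_range] at hj
    simp only [tr]
    rw [if_pos (by omega), if_pos (by omega)]
  have htr_sees : ∀ w, Sees N w → Sees N (tr w) := by
    intro w hw u hu
    obtain ⟨i, hi, h⟩ := hw u hu
    exact ⟨i, hi, by simp only [tr]; rw [if_pos hi]; exact h⟩
  let K : Set (ℕ → E3) := (Set.pi univ fun _ => Metric.closedBall (0 : E3) lowBound) ∩
    ({w | w 0 = 0} ∩ {w | Sees N w})
  have hK : IsCompact K := by
    refine (isCompact_univ_pi fun _ => isCompact_closedBall _ _).inter_right ?_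
    exact (isClosed_eq (by fun_prop) continuous_const).inter (isClosed_sees N)
  have htrK : ∀ w : ℕ → E3, w 0 = 0 → Sees N w → len N w < lowBound → tr w ∈ K := by
    intro w hw0 hw hwl
    refine ⟨?_, ?_, htr_sees w hw⟩
    · intro i _
      rw [Metric.mem_closedBall, dist_zero_right]
      simp only [tr]
      split_ifs with hi
      · exact (norm_le_len N w hw0 hi).trans hwl.le
      · rw [norm_zero]
        unfold lowBound
        positivity
    · simp [tr, hw0]
  have hcont : Continuous fun w : ℕ → E3 => len N w := by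
    unfold len
    fun_prop
  obtain ⟨z, hzK, hz⟩ := hK.exists_isMinOn ⟨tr x, htrK x h0 hs hlt⟩ hcont.continuousOn
  have hz0 : z 0 = 0 := hzK.2.1
  have hzs : Sees N z := hzK.2.2
  have hzl : len N z < lowBound := by
    have := hz (htrK x h0 hs hlt)
    simp only [mem_ofPred_eq] at this
    rw [htr_len] at this
    linarith
  have hzmin : ∀ w : ℕ → E3, w 0 = 0 → Sees N w → len N z ≤ len N w := by
    intro w hw0 hw
    by_contra hc
    push Not at hc
    have := hz (htrK w hw0 hw (hc.trans hzl))
    simp only [mem_ofPred_eq] at this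
    rw [htr_len] at this
    linarith
  have hne : ∀ i < N, z i ≠ z (i + 1) := by
    intro i hi heq
    obtain ⟨M, rfl⟩ : ∃ M, N = M + 1 := ⟨N - 1, by omega⟩
    obtain ⟨y, hy0, hys, hyl⟩ := delete_vertex M i z hz0 hzs (by omega) heq
    exact hmin M (by omega) ⟨y, hy0, hys, by rw [hyl]; exact hzl⟩
  have hpert : ∀ m < N, ∀ v : E3, (∀ u : E3, ‖u‖ = 1 → 1 ≤ ⟪z (m + 1), u⟫ → 0 ≤ ⟪v, u⟫) →
      ∀ t : ℝ, 0 < t → 0 ≤
      (dist (z m) (z (m + 1) + t • v) - dist (z m) (z (m + 1))) +
      (if m + 1 < N then dist (z (m + 1) + t • v) (z (m + 2)) -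
        dist (z (m + 1)) (z (m + 2)) else 0) := by
    intro m hm v hv t ht
    rw [← len_update N m z hm]
    have := hzmin (Function.update z (m + 1) (z (m + 1) + t • v))
      (by rw [Function.update_of_ne (by omega)]; exact hz0) (sees_update N m z hzs ht v hv)
    linarith
  have hin : ∀ m < N, ∀ v : E3, HasDerivAt (fun t : ℝ => dist (z m) (z (m + 1) + t • v))
      (⟪v, dir (z m) (z (m + 1))⟫) 0 := by
    intro m hm v
    have h1 := hasDerivAt_norm_add (z (m + 1) - z m) v (sub_ne_zero.2 (hne m hm).symm)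
    rw [← dir] at h1
    convert h1 using 1
    funext t
    rw [dist_comm, dist_eq_norm]
    congr 1
    abel
  have hout : ∀ m, m + 1 < N → ∀ v : E3, HasDerivAt
      (fun t : ℝ => dist (z (m + 1) + t • v) (z (m + 2)))
      (-⟪v, dir (z (m + 1)) (z (m + 2))⟫) 0 := by
    intro m hm v
    have h1 := hasDerivAt_norm_add (z (m + 2) - z (m + 1)) (-v)
      (sub_ne_zero.2 (hne (m + 1) hm).symm)
    rw [inner_neg_left, ← dir] at h1
    convert h1 using 1
    funext t
    rw [dist_comm, dist_eq_norm]
    congr 1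
    rw [smul_neg]
    abel
  have := polygon_bound N z hz0 hzs hne ?_ ?_
  · linarith
  · intro m hm
    set F := dir (z m) (z (m + 1)) - dir (z (m + 1)) (z (m + 2)) with hF
    have hv : ∀ u : E3, ‖u‖ = 1 → 1 ≤ ⟪z (m + 1), u⟫ → 0 ≤ ⟪‖F‖ • z (m + 1) - F, u⟫ := by
      intro u hu h1
      rw [inner_sub_left, real_inner_smul_left]
      have h2 := real_inner_le_norm F u
      rw [hu, mul_one] at h2
      have h3 := mul_le_mul_of_nonneg_left h1 (norm_nonneg F)
      linarith
    have hd := (hin m (by omega) (‖F‖ • z (m + 1) - F)).add (hout m hm (‖F‖ • z (m + 1) - F))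
    have h0 := nonneg_of_min hd (fun t ht => by
      have := hpert m (by omega) _ hv t ht
      rw [if_pos hm] at this
      simp only [Pi.add_apply, zero_smul, add_zero]
      linarith)
    rw [← sub_eq_add_neg, ← inner_sub_right, ← hF, inner_sub_left, real_inner_smul_left,
      real_inner_self_eq_norm_sq] at h0
    rcases eq_or_lt_of_le (norm_nonneg F) with h1 | h1
    · have : F = 0 := norm_eq_zero.1 h1.symm
      rw [this]
      simp
    · have h2 : ‖F‖ * ‖F‖ ≤ ‖F‖ * ⟪z (m + 1), F⟫ := by
        rw [← sq]; linarith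
      exact le_of_mul_le_mul_left h2 h1
  · intro m hm
    have hmN : m < N := by omega
    have hd1 := norm_dir (hne m hmN)
    have hv : ∀ u : E3, ‖u‖ = 1 → 1 ≤ ⟪z (m + 1), u⟫ →
        0 ≤ ⟪z (m + 1) - dir (z m) (z (m + 1)), u⟫ := by
      intro u hu h1
      rw [inner_sub_left]
      have h2 := real_inner_le_norm (dir (z m) (z (m + 1))) u
      rw [hu, hd1, mul_one] at h2
      linarith
    have hd := hin m hmN (z (m + 1) - dir (z m) (z (m + 1)))
    have h0 := nonneg_of_min hd (fun t ht => by
      have := hpert m hmN _ hv t ht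
      rw [if_neg (by omega), add_zero] at this
      simp only [zero_smul, add_zero]
      linarith)
    rw [← hm]
    rw [inner_sub_left, real_inner_self_eq_norm_sq, hd1] at h0
    linarith

end Pool.Agent.EscapeBall
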