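import Pool.Agent.Work.MP_7cd6c4_gt.CapVol

open MeasureTheory Set Real
open scoped RealInnerProductSpace ENNReal

namespace Pool.Agent.EscapeBall

theorem exists_basis_axis (x : E3) (hx : x ≠ 0) :
    ∃ b : OrthonormalBasis (Fin 3) ℝ E3, x = ‖x‖ • b 2 := by
  have hx0 : ‖x‖ ≠ 0 := norm_ne_zero_iff.2 hx
  let v : Fin 3 → E3 := fun _ => ‖x‖⁻¹ • x
  have hv : Orthonormal ℝ (({2} : Set (Fin 3)).domRestrict v) := by
    constructor
    · intro i
      simp only [domRestrict_apply, v]
      rw [norm_smul, norm_inv, norm_norm, inv_mul_cancel₀ hx0]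
    · rintro ⟨i, hi⟩ ⟨j, hj⟩ hij
      exfalso
      apply hij
      simp only [mem_singleton_iff] at hi hj
      simp [hi, hj]
  obtain ⟨b, hb⟩ := hv.exists_orthonormalBasis_extension_of_card_eq (by simp)
  refine ⟨b, ?_⟩
  rw [hb 2 (by simp)]
  simp only [v]
  rw [smul_smul, mul_inv_cancel₀ hx0, one_smul]

theorem exists_basis_plane (x d : E3) (hx : x ≠ 0) (hd : ‖d‖ = 1) :
    ∃ b : OrthonormalBasis (Fin 3) ℝ E3, x = ‖x‖ • b 1 ∧
      d = (-sin (InnerProductGeometry.angle x d)) • b 0 +
        cos (InnerProductGeometry.angle x d) • b 1 := by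
  have hx0 : ‖x‖ ≠ 0 := norm_ne_zero_iff.2 hx
  set ψ := InnerProductGeometry.angle x d with hψ
  obtain ⟨a, ha⟩ : ∃ a : E3, a = ‖x‖⁻¹ • x := ⟨_, rfl⟩
  have hna : ‖a‖ = 1 := by
    rw [ha, norm_smul, norm_inv, norm_norm, inv_mul_cancel₀ hx0]
  have had : ⟪a, d⟫ = cos ψ := by
    rw [ha, real_inner_smul_left, hψ, InnerProductGeometry.cos_angle, hd, mul_one]
    field_simp
  have hxa : x = ‖x‖ • a := by
    rw [ha, smul_smul, mul_inv_cancel₀ hx0, one_smul]
  have haa : ⟪a, a⟫ = 1 := by rw [real_inner_self_eq_norm_sq, hna]; norm_num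
  have hdd : ⟪d, d⟫ = 1 := by rw [real_inner_self_eq_norm_sq, hd]; norm_num
  have hda : ⟪d, a⟫ = cos ψ := by rw [real_inner_comm]; exact had
  have hsc := Real.sin_sq_add_cos_sq ψ
  by_cases hs : sin ψ = 0
  · let v : Fin 3 → E3 := fun _ => a
    have hv : Orthonormal ℝ (({1} : Set (Fin 3)).domRestrict v) := by
      constructor
      · intro i
        simpa [domRestrict_apply, v] using hna
      · rintro ⟨i, hi⟩ ⟨j, hj⟩ hij
        exfalso
        apply hij
        simp only [mem_singleton_iff] at hi hj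
        simp [hi, hj]
    obtain ⟨b, hb⟩ := hv.exists_orthonormalBasis_extension_of_card_eq (by simp)
    have hb1 : b 1 = a := hb 1 (by simp)
    refine ⟨b, by rw [hb1]; exact hxa, ?_⟩
    rw [hb1, hs, neg_zero, zero_smul, zero_add, ← sub_eq_zero, ← norm_eq_zero,
      ← sq_eq_zero_iff, norm_sub_sq_real, norm_smul, hd, hna, real_inner_smul_right, hda,
      Real.norm_eq_abs]
    rw [mul_one, sq_abs]
    rw [hs] at hsc
    linarith
  · let w : E3 := (sin ψ)⁻¹ • (cos ψ • a - d)
    have hwa : ⟪w, a⟫ = 0 := by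
      simp only [w]
      rw [real_inner_smul_left, inner_sub_left, real_inner_smul_left, haa, hda]
      ring
    have hww : ⟪w, w⟫ = 1 := by
      simp only [w]
      rw [real_inner_smul_left, real_inner_smul_right, inner_sub_left, inner_sub_right,
        inner_sub_right, real_inner_smul_left, real_inner_smul_right, real_inner_smul_left,
        real_inner_smul_right, haa, hda, hdd, had]
      field_simp
      linarith
    have hnw : ‖w‖ = 1 := by
      have : ‖w‖ ^ 2 = 1 := by rw [← real_inner_self_eq_norm_sq, hww]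
      nlinarith [norm_nonneg w]
    have haw : ⟪a, w⟫ = 0 := by rw [real_inner_comm]; exact hwa
    let v : Fin 3 → E3 := ![w, a, 0]
    have hv : Orthonormal ℝ (({0, 1} : Set (Fin 3)).domRestrict v) := by
      constructor
      · rintro ⟨i, hi⟩
        simp only [mem_insert_iff, mem_singleton_iff] at hi
        rcases hi with rfl | rfl
        · simpa [domRestrict_apply, v] using hnw
        · simpa [domRestrict_apply, v] using hna
      · rintro ⟨i, hi⟩ ⟨j, hj⟩ hij
        simp only [mem_insert_iff, mem_singleton_iff] at hi hj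
        rcases hi with rfl | rfl <;> rcases hj with rfl | rfl
        · exact absurd rfl hij
        · simpa [domRestrict_apply, v] using hwa
        · simpa [domRestrict_apply, v] using haw
        · exact absurd rfl hij
    obtain ⟨b, hb⟩ := hv.exists_orthonormalBasis_extension_of_card_eq (by simp)
    have hb0 : b 0 = w := hb 0 (by simp)
    have hb1 : b 1 = a := hb 1 (by simp)
    refine ⟨b, by rw [hb1]; exact hxa, ?_⟩
    rw [hb0, hb1]
    simp only [w]
    rw [smul_smul, neg_mul, mul_inv_cancel₀ hs, neg_smul, one_smul]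
    abel

end Pool.Agent.EscapeBall
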