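import Mathlib

open MeasureTheory Set Real
open scoped RealInnerProductSpace ENNReal

namespace Pool.Agent.EscapeBall

/-- The weight of the half plane at distance `t`. -/
noncomputable def gf (t : ℝ) : ℝ := √(t ^ 2 - 1) / max t 1

theorem lintegral_Icc_id {a b : ℝ} (h0 : 0 ≤ a) (hab : a ≤ b) :
    ∫⁻ x in Icc a b, ENNReal.ofReal x = ENNReal.ofReal ((b ^ 2 - a ^ 2) / 2) := by
  rw [← ofReal_integral_eq_lintegral_ofReal]
  · rw [integral_Icc_eq_integral_Ioc, ← intervalIntegral.integral_of_le hab, integral_id]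
  · exact (continuous_id.integrableOn_Icc)
  · exact (ae_restrict_iff' measurableSet_Icc).2 (Filter.Eventually.of_forall
      fun x hx => h0.trans hx.1)

theorem lintegral_Icc_parab {k : ℝ} (hk : 0 < k) :
    ∫⁻ z in Icc (-k) k, ENNReal.ofReal ((1 - z ^ 2 / k ^ 2) / 2) =
      ENNReal.ofReal (2 / 3 * k) := by
  rw [← ofReal_integral_eq_lintegral_ofReal]
  · rw [integral_Icc_eq_integral_Ioc, ← intervalIntegral.integral_of_le (by linarith)]
    congr 1
    have h : ∀ z : ℝ, (1 - z ^ 2 / k ^ 2) / 2 = 1 / 2 - (1 / (2 * k ^ 2)) * z ^ 2 := by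
      intro z; field_simp
    simp_rw [h]
    rw [intervalIntegral.integral_sub (by simp) (by apply Continuous.intervalIntegrable; fun_prop),
      intervalIntegral.integral_const, intervalIntegral.integral_const_mul, integral_pow]
    simp only [smul_eq_mul]
    field_simp
    ring
  · exact (by fun_prop : Continuous fun z : ℝ => (1 - z ^ 2 / k ^ 2) / 2).integrableOn_Icc
  · refine (ae_restrict_iff' measurableSet_Icc).2 (Filter.Eventually.of_forall fun z hz => ?_)
    have : z ^ 2 ≤ k ^ 2 := sq_le_sq' hz.1 hz.2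
    have : z ^ 2 / k ^ 2 ≤ 1 := by rw [div_le_one (by positivity)]; exact this
    simp only [Pi.zero_apply]
    linarith

/-- The set of `(ρ, z)` in a half plane belonging to the sector. -/
def sec (t z : ℝ) : Set ℝ := {ρ | 0 < ρ ∧ ρ ^ 2 + z ^ 2 ≤ 1 ∧ ρ ^ 2 + z ^ 2 ≤ t ^ 2 * ρ ^ 2}

theorem measurableSet_sec (t z : ℝ) : MeasurableSet (sec t z) := by
  unfold sec
  measurability

theorem sec_inner {t : ℝ} (ht : 1 < t) {z : ℝ} (hz : z ≠ 0) :
    ∫⁻ ρ in sec t z, ENNReal.ofReal ρ =
      (Icc (-(√(t ^ 2 - 1) / t)) (√(t ^ 2 - 1) / t)).indicator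
        (fun z => ENNReal.ofReal ((1 - z ^ 2 / (√(t ^ 2 - 1) / t) ^ 2) / 2)) z := by
  have ht0 : 0 < t := by linarith
  have hq : 0 < t ^ 2 - 1 := by nlinarith
  have hsq : √(t ^ 2 - 1) ^ 2 = t ^ 2 - 1 := Real.sq_sqrt hq.le
  have hκ : 0 < √(t ^ 2 - 1) := Real.sqrt_pos.2 hq
  set κ := √(t ^ 2 - 1) with hκdef
  have hk : 0 < κ / t := by positivity
  have hz2 : 0 < z ^ 2 := by positivity
  by_cases hmem : z ∈ Icc (-(κ / t)) (κ / t)
  · rw [indicator_of_mem hmem]
    have hzk : z ^ 2 ≤ (κ / t) ^ 2 := sq_le_sq' hmem.1 hmem.2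
    have hzk' : z ^ 2 * t ^ 2 ≤ κ ^ 2 := by
      rw [div_pow, le_div_iff₀ (by positivity)] at hzk; exact hzk
    have h1z : z ^ 2 ≤ 1 := by nlinarith
    have hset : sec t z = Icc (|z| / κ) (√(1 - z ^ 2)) := by
      ext ρ
      simp only [sec, mem_ofPred_eq, mem_Icc]
      constructor
      · rintro ⟨h1, h2, h3⟩
        constructor
        · rw [div_le_iff₀ hκ]
          have h4 : z ^ 2 ≤ (ρ * κ) ^ 2 := by
            rw [mul_pow, hsq]; nlinarith
          exact abs_le_of_sq_le_sq h4 (by positivity)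
        · exact Real.le_sqrt_of_sq_le (by linarith)
      · rintro ⟨h1, h2⟩
        have hρ : 0 < ρ := lt_of_lt_of_le (by positivity) h1
        refine ⟨hρ, ?_, ?_⟩
        · have := (Real.le_sqrt hρ.le (by linarith)).1 h2
          linarith
        · rw [div_le_iff₀ hκ] at h1
          have : z ^ 2 ≤ (ρ * κ) ^ 2 := by
            rw [← sq_abs z]
            exact pow_le_pow_left₀ (abs_nonneg z) h1 2
          rw [mul_pow, hsq] at this
          nlinarith
    rw [hset, lintegral_Icc_id (by positivity)]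
    · congr 1
      rw [Real.sq_sqrt (by linarith), div_pow, div_pow, sq_abs, hsq]
      field_simp
      ring
    · apply Real.le_sqrt_of_sq_le
      rw [div_pow, sq_abs, div_le_iff₀ (by positivity)]
      nlinarith
  · rw [indicator_of_notMem hmem]
    have hset : sec t z = ∅ := by
      rw [eq_empty_iff_forall_notMem]
      rintro ρ ⟨h1, h2, h3⟩
      apply hmem
      have hzk : z ^ 2 ≤ (κ / t) ^ 2 := by
        rw [div_pow, le_div_iff₀ (by positivity), hsq]
        nlinarith [mul_pos hq (show (0:ℝ) < 1 by norm_num)]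
      exact abs_le.1 (abs_le_of_sq_le_sq hzk hk.le)
    rw [hset]
    simp

theorem sec_total {t : ℝ} (ht : 0 ≤ t) :
    ∫⁻ z : ℝ, ∫⁻ ρ in sec t z, ENNReal.ofReal ρ = ENNReal.ofReal (2 / 3 * gf t) := by
  have hne : ∀ᵐ z : ℝ, z ≠ 0 := by
    simp [ae_iff]
  rcases le_or_gt t 1 with h1 | h1
  · have hg : gf t = 0 := by
      rw [gf, Real.sqrt_eq_zero_of_nonpos (by nlinarith), zero_div]
    rw [hg, mul_zero, ENNReal.ofReal_zero]
    rw [lintegral_eq_zero_iff' ]
    · filter_upwards [hne] with z hz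
      have hset : sec t z = ∅ := by
        rw [eq_empty_iff_forall_notMem]
        rintro ρ ⟨h2, h3, h4⟩
        have : 0 < z ^ 2 := by positivity
        nlinarith [mul_nonneg (sq_nonneg ρ) (show 0 ≤ 1 - t ^ 2 by nlinarith)]
      rw [hset]; simp
    · apply Measurable.aemeasurable
      have : ∀ z, ∫⁻ ρ in sec t z, ENNReal.ofReal ρ =
          ∫⁻ ρ, ({w : ℝ × ℝ | 0 < w.2 ∧ w.2 ^ 2 + w.1 ^ 2 ≤ 1 ∧ w.2 ^ 2 + w.1 ^ 2 ≤
            t ^ 2 * w.2 ^ 2}).indicator (fun w : ℝ × ℝ => ENNReal.ofReal w.2) (z, ρ) := by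
        intro z
        rw [← lintegral_indicator (measurableSet_sec t z)]
        rfl
      simp_rw [this]
      apply Measurable.lintegral_prod_right'
      apply Measurable.indicator (by fun_prop)
      measurability
  · have hk : 0 < √(t ^ 2 - 1) / t := by
      have : 0 < √(t ^ 2 - 1) := Real.sqrt_pos.2 (by nlinarith)
      positivity
    rw [lintegral_congr_ae (g := (Icc (-(√(t ^ 2 - 1) / t)) (√(t ^ 2 - 1) / t)).indicator
        (fun z => ENNReal.ofReal ((1 - z ^ 2 / (√(t ^ 2 - 1) / t) ^ 2) / 2)))]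
    · rw [lintegral_indicator measurableSet_Icc, lintegral_Icc_parab hk, gf, max_eq_left h1.le]
    · filter_upwards [hne] with z hz
      exact sec_inner h1 hz

end Pool.Agent.EscapeBall
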