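import Pool.Agent.Work.MP_7cd6c4_gt.Horizon
import Pool.Agent.Work.MP_7cd6c4_gt.Kappa

open MeasureTheory Set Real
open scoped RealInnerProductSpace ENNReal

namespace Pool.Agent.EscapeBall

theorem cc_zero_of_one_le {θ r : ℝ} (h1 : 1 ≤ r) : cc θ r 0 = r - θ * (π - π / r) := by
  rw [cc_zero, wf_of_one_le h1]

theorem cc_one {r : ℝ} (h1 : 1 ≤ r) : cc 1 r 1 = √(r ^ 2 - 1) - (π - π / r) := by
  have h := cc_sub_small (θ := 1) (r := r) (p := 0) (q := 1) (by linarith) le_rfl zero_le_one le_rfl
    h1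
  rw [cc_zero_of_one_le h1, show r ^ 2 - 0 ^ 2 = r ^ 2 by ring, Real.sqrt_sq (by linarith),
    one_pow] at h
  linarith

/-- The constant `ra - √(ra² - 1)`. -/
noncomputable def tau : ℝ := ra - √(ra ^ 2 - 1)

theorem one_le_ra : (1:ℝ) ≤ ra := by unfold ra; norm_num

theorem ra_pos : (0:ℝ) < ra := by unfold ra; norm_num

theorem rb_pos : (0:ℝ) < rb := by unfold rb; norm_num

theorem one_le_rb : (1:ℝ) ≤ rb := by unfold rb; norm_num

theorem rb_le_ra : rb ≤ ra := by unfold rb ra; norm_num

theorem tau_add : tau + cc 1 ra 1 = cc 1 ra 0 := by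
  rw [cc_one one_le_ra, cc_zero_of_one_le one_le_ra, tau]
  ring

/-- `r - √(r² - 1)` is nonincreasing. -/
theorem gap_anti {r r' : ℝ} (h1 : 1 ≤ r) (h : r ≤ r') :
    r' - √(r' ^ 2 - 1) ≤ r - √(r ^ 2 - 1) := by
  have e1 : √(r ^ 2 - 1) ^ 2 = r ^ 2 - 1 := Real.sq_sqrt (by nlinarith)
  have e2 : √(r' ^ 2 - 1) ^ 2 = r' ^ 2 - 1 := Real.sq_sqrt (by nlinarith)
  have n1 := Real.sqrt_nonneg (r ^ 2 - 1)
  have n2 := Real.sqrt_nonneg (r' ^ 2 - 1)
  set u := √(r ^ 2 - 1)
  set v := √(r' ^ 2 - 1)
  have f1 : (r - u) * (r + u) = 1 := by linear_combination -e1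
  have f2 : (r' - v) * (r' + v) = 1 := by linear_combination -e2
  have huv : u ≤ v := by
    apply Real.sqrt_le_sqrt
    nlinarith
  have hpos : 0 ≤ r - u := by
    by_contra hc
    push Not at hc
    nlinarith
  by_contra hcon
  push Not at hcon
  have : (r - u) * (r + u) < (r' - v) * (r' + v) := by
    calc (r - u) * (r + u) ≤ (r - u) * (r' + v) := by
          apply mul_le_mul_of_nonneg_left _ hpos
          linarith
      _ < (r' - v) * (r' + v) := by
          apply mul_lt_mul_of_pos_right hcon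
          linarith
  linarith

/-- For radii up to the threshold the radial potential dominates. -/
theorem tau_le {r : ℝ} (h1 : 1 ≤ r) (h : r ≤ ra) : tau + cc 1 r 1 ≤ cc 1 r 0 := by
  rw [cc_one h1, cc_zero_of_one_le h1, tau]
  have := gap_anti h1 h
  linarith

/-- The radial potential is nonincreasing up to the threshold. -/
theorem rad_anti {r : ℝ} (h1 : 1 ≤ r) (h : r ≤ ra) : cc 1 ra 0 ≤ cc 1 r 0 := by
  rw [cc_zero_of_one_le one_le_ra, cc_zero_of_one_le h1]
  have hr0 : 0 < r := by linarith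
  have hra := ra_pos
  have h2 : ra - 1 * (π - π / ra) - (r - 1 * (π - π / r)) =
      (ra - r) * (r * ra - π) / (r * ra) := by
    field_simp
    ring
  have h3 : (ra - r) * (r * ra - π) / (r * ra) ≤ 0 := by
    apply div_nonpos_of_nonpos_of_nonneg _ (by positivity)
    apply mul_nonpos_of_nonneg_of_nonpos (by linarith)
    have : r * ra ≤ ra * ra := mul_le_mul_of_nonneg_right h hra.le
    have h4 : ra * ra ≤ 3 := by unfold ra; norm_num
    linarith [Real.pi_gt_three]
  linarith

/-- The potential at line distance one grows beyond the threshold. -/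
theorem one_mono {r r' : ℝ} (h1 : ra ≤ r) (h : r ≤ r') : cc 1 r 1 ≤ cc 1 r' 1 := by
  have hr1 : 1 ≤ r := one_le_ra.trans h1
  have hr1' : 1 ≤ r' := hr1.trans h
  rw [cc_one hr1, cc_one hr1']
  have hr0 : 0 < r := by linarith
  have hr0' : 0 < r' := by linarith
  have e1 : √(r ^ 2 - 1) ^ 2 = r ^ 2 - 1 := Real.sq_sqrt (by nlinarith)
  have e2 : √(r' ^ 2 - 1) ^ 2 = r' ^ 2 - 1 := Real.sq_sqrt (by nlinarith)
  have hb : ∀ t : ℝ, 1 ≤ t → √(t ^ 2 - 1) ≤ t - 1 / (2 * t) := by
    intro t ht
    have ht0 : 0 < t := by linarith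
    have h3 : 1 / (2 * t) ≤ t := by
      rw [div_le_iff₀ (by positivity)]
      nlinarith
    rw [Real.sqrt_le_left (by linarith)]
    have : (t - 1 / (2 * t)) ^ 2 = t ^ 2 - 1 + (1 / (2 * t)) ^ 2 := by
      field_simp
      ring
    rw [this]
    have : 0 ≤ (1 / (2 * t)) ^ 2 := sq_nonneg _
    linarith
  have b1 := hb r hr1
  have b2 := hb r' hr1'
  have n1 : 0 < √(r ^ 2 - 1) := by
    apply Real.sqrt_pos.2
    have : 1.61 ≤ r := by unfold ra at h1; linarith
    nlinarith
  have n2 := Real.sqrt_nonneg (r' ^ 2 - 1)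
  set u := √(r ^ 2 - 1)
  set v := √(r' ^ 2 - 1)
  have hP : 0 < u + v := by linarith
  have g1 : v - u = (r' - r) * ((r + r') / (u + v)) := by
    have : v - u = (r' ^ 2 - r ^ 2) / (u + v) := by
      rw [eq_div_iff hP.ne']
      linear_combination e2 - e1
    rw [this]
    ring
  have g2 : π / r - π / r' = (r' - r) * (π / (r * r')) := by
    field_simp
  have g3 : π / (r * r') ≤ (r + r') / (u + v) := by
    rw [div_le_div_iff₀ (by positivity) hP]
    have h3 : u + v ≤ (r + r') * (1 - 1 / (2 * (r * r'))) := by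
      have : (r + r') * (1 - 1 / (2 * (r * r'))) = (r - 1 / (2 * r)) + (r' - 1 / (2 * r')) := by
        field_simp
        ring
      rw [this]
      linarith
    have hq : 2.5921 ≤ r * r' := by
      have : 1.61 ≤ r := by unfold ra at h1; linarith
      nlinarith
    have h4 : π * (1 - 1 / (2 * (r * r'))) ≤ r * r' := by
      have hpi := Real.pi_lt_d4
      have hpi0 := Real.pi_pos
      have hq0 : 0 < r * r' := by positivity
      have h5 : 1 - 1 / (2 * (r * r')) = (2 * (r * r') - 1) / (2 * (r * r')) := by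
        field_simp
      rw [h5, mul_div_assoc', div_le_iff₀ (by positivity)]
      nlinarith
    calc π * (u + v) ≤ π * ((r + r') * (1 - 1 / (2 * (r * r')))) :=
          mul_le_mul_of_nonneg_left h3 Real.pi_pos.le
      _ = (r + r') * (π * (1 - 1 / (2 * (r * r')))) := by ring
      _ ≤ (r + r') * (r * r') := mul_le_mul_of_nonneg_left h4 (by linarith)
  have g4 : (r' - r) * (π / (r * r')) ≤ (r' - r) * ((r + r') / (u + v)) :=
    mul_le_mul_of_nonneg_left g3 (by linarith)
  linarith

/-- The descent inequality in terms of potentials. -/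
theorem star_rad {p r : ℝ} (hp : ra ≤ p) (hpr : p ≤ r) : cc 1 p 0 ≤ cc 1 r 0 + cc 1 r p := by
  have h := star_psi hp hpr
  have hp1 : 1 ≤ p := one_le_ra.trans hp
  have hr1 : 1 ≤ r := hp1.trans hpr
  rw [cc_zero_of_one_le hp1, cc_zero_of_one_le hr1]
  have hp0 : 0 < p := by linarith
  have hr0 : 0 < r := by linarith
  have e : (π / (p * r) - 1) * (r - p) = (p - 1 * (π - π / p)) - (r - 1 * (π - π / r)) := by
    field_simp
    ring
  linarith

theorem star_ra {p r : ℝ} (hp0 : 0 ≤ p) (hp : p ≤ ra) (hr : ra ≤ r) :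
    cc 1 ra 0 ≤ cc 1 r 0 + cc 1 r p := by
  have h1 := star_rad le_rfl hr
  have h2 := cc_anti (r := r) (ra_pos.trans_le hr) hp0 hp hr
  linarith

theorem star_two {p r r' : ℝ} (hp : ra ≤ p) (hpr : p ≤ r) (hpr' : p ≤ r') :
    cc 1 r' 0 ≤ cc 1 r 0 + cc 1 r p + cc 1 r' p := by
  have h1 := star_rad hp hpr
  have hp0 : 0 < p := ra_pos.trans_le hp
  have h2 := cc_super (r₁ := p) (r₂ := r') (p := 0) (q := p) hp0 hpr' le_rfl hp0.le le_rfl
  rw [cc_self 1 hp0] at h2
  linarith

/-- Comparison used when a line at distance at most `ra` is left outside the threshold. -/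
theorem leave_ra {p r : ℝ} (hp0 : 0 ≤ p) (hp : p ≤ ra) (hr : ra ≤ r) :
    tau + cc 1 r 1 ≤ cc 1 ra 0 + cc 1 r p := by
  have hr0 : 0 < r := ra_pos.trans_le hr
  rcases le_or_gt p 1 with h | h
  · have h1 := cc_anti hr0 hp0 h (one_le_ra.trans hr)
    have h2 := tau_add
    have h3 := cc_nonneg ra_pos zero_le_one one_le_ra
    linarith
  · have h1 := cc_super (r₁ := ra) (r₂ := r) (p := 1) (q := p) ra_pos hr zero_le_one h.le hp
    have h2 := tau_add
    have h3 := cc_nonneg ra_pos hp0 hp
    linarith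

/-- Radius minimising the modified radial potential. -/
noncomputable def rk : ℝ := √(π * th)

theorem rk_sq : rk ^ 2 = π * th := Real.sq_sqrt (by unfold th; positivity)

theorem rk_pos : 0 < rk := Real.sqrt_pos.2 (by unfold th; positivity)

theorem ra_le_rk : ra ≤ rk := by
  apply Real.le_sqrt_of_sq_le
  unfold ra th
  linarith [Real.pi_gt_three]

/-- Monotone minorant of the modified radial potential. -/
noncomputable def wT (r : ℝ) : ℝ := cc th (max r rk) 0

theorem wT_mono {r r' : ℝ} (h : r ≤ r') : wT r ≤ wT r' := by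
  unfold wT
  have h1 : max r rk ≤ max r' rk := max_le_max h le_rfl
  have h2 : rk ≤ max r rk := le_max_right _ _
  generalize max r rk = s at *
  generalize max r' rk = t at *
  have hs1 : 1 ≤ s := one_le_ra.trans (ra_le_rk.trans h2)
  have ht1 : 1 ≤ t := hs1.trans h1
  rw [cc_zero_of_one_le hs1, cc_zero_of_one_le ht1]
  have hs0 : 0 < s := by linarith
  have ht0 : 0 < t := by linarith
  have h3 : t - th * (π - π / t) - (s - th * (π - π / s)) = (t - s) * (s * t - π * th) / (s * t) := by
    field_simp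
    ring
  have h4 : 0 ≤ (t - s) * (s * t - π * th) / (s * t) := by
    apply div_nonneg (mul_nonneg (by linarith) _) (by positivity)
    rw [← rk_sq]
    nlinarith [rk_pos]
  linarith

theorem wT_le {r : ℝ} (h1 : 1 ≤ r) : wT r ≤ cc th r 0 := by
  unfold wT
  rcases le_or_gt rk r with h | h
  · rw [max_eq_left h]
  · rw [max_eq_right h.le, cc_zero_of_one_le (one_le_ra.trans ra_le_rk), cc_zero_of_one_le h1]
    have hr0 : 0 < r := by linarith
    have hk := rk_pos
    have h3 : r - th * (π - π / r) - (rk - th * (π - π / rk)) =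
        (rk - r) * (π * th - r * rk) / (r * rk) := by
      field_simp
      ring
    have h4 : 0 ≤ (rk - r) * (π * th - r * rk) / (r * rk) := by
      apply div_nonneg (mul_nonneg (by linarith) _) (by positivity)
      rw [← rk_sq]
      nlinarith
    linarith

theorem wT_out {r r' p : ℝ} (hp : rb ≤ p) (hpr : p ≤ r) (hr : ra ≤ r) (h : r ≤ r') :
    wT r' ≤ wT r + cc th r' p - cc th r p := by
  rcases le_or_gt rk r with h1 | h1
  · unfold wT
    rw [max_eq_left h1, max_eq_left (h1.trans h)]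
    have := cc_th_super hr h hp hpr
    linarith
  · rcases le_or_gt r' rk with h2 | h2
    · have e : wT r' = wT r := by
        unfold wT
        rw [max_eq_right h1.le, max_eq_right h2]
      have := cc_th_mono hp hpr h
      linarith
    · unfold wT
      rw [max_eq_right h1.le, max_eq_left h2.le]
      have h3 := cc_th_super ra_le_rk h2.le hp (hpr.trans h1.le)
      have h4 := cc_th_mono hp hpr h1.le
      linarith

theorem wT_in {r r' p : ℝ} (hp : rb ≤ p) (hpr' : p ≤ r') (h : r' ≤ r) :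
    wT r' ≤ wT r + cc th r p - cc th r' p := by
  have h1 := wT_mono h
  have h2 := cc_th_mono hp hpr' h
  linarith

theorem wT_turn {r r' p : ℝ} (hp : rb ≤ p) (hpr : p ≤ r) (hpr' : p ≤ r') (hr : ra ≤ r) :
    wT r' ≤ wT r + cc th r p + cc th r' p := by
  have n1 := cc_th_nonneg hp hpr
  have n2 := cc_th_nonneg hp hpr'
  rcases le_or_gt r r' with h | h
  · have := wT_out hp hpr hr h
    linarith
  · have := wT_mono h.le
    linarith

/-- Potential as a function of radius and radial velocity. -/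
noncomputable def potR (θ r q : ℝ) : ℝ :=
  if 0 ≤ q then cc θ r (√(r ^ 2 - q ^ 2)) else - cc θ r (√(r ^ 2 - q ^ 2))

/-- The invariants along a critical polygon: `r` is the distance from the origin, `q` the inner
product of position and direction of arrival, `A` and `B` the two accumulated costs. -/
inductive St (r q A B : ℝ) : Prop
  | S (h1 : q = r) (h2 : cc 1 r 0 ≤ A) (h3 : cc th r 0 ≤ B)
  | PO (h1 : 0 ≤ q) (h2 : ra ≤ r) (h3 : rb ≤ √(r ^ 2 - q ^ 2)) (h4 : cc 1 r 0 ≤ A) (h5 : wT r ≤ B)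
  | PI (h1 : q < 0) (h2 : ra < √(r ^ 2 - q ^ 2)) (R : ℝ) (hR : r ≤ R)
      (h4 : cc 1 R 0 + cc 1 R (√(r ^ 2 - q ^ 2)) - cc 1 r (√(r ^ 2 - q ^ 2)) ≤ A) (h5 : wT r ≤ B)
  | I (h1 : 1 ≤ √(r ^ 2 - q ^ 2)) (h2 : 0 ≤ q ∨ ra < √(r ^ 2 - q ^ 2))
      (h3 : r ≤ ra → cc 1 r 0 ≤ A) (h4 : ra ≤ r → tau + cc 1 r 1 ≤ A)
  | II (h1 : √(r ^ 2 - q ^ 2) ≤ ra) (h2 : cc 1 ra 0 + potR 1 r q ≤ A)

/-- Geometry of a segment. -/
structure Seg (r q r' q' p : ℝ) : Prop where
  p0 : 0 ≤ p
  pr : p ≤ r
  pr' : p ≤ r'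
  e : √(r ^ 2 - q ^ 2) = p
  e' : √(r' ^ 2 - q' ^ 2) = p
  out : 0 ≤ q → 0 < q' ∧ r ≤ r'
  inn : q' < 0 → r' ≤ r

theorem seg_of {r q s r' : ℝ} (hr : 0 ≤ r) (hr' : 0 ≤ r') (hq : |q| ≤ r) (hs : 0 < s)
    (h : r' ^ 2 = r ^ 2 + 2 * s * q + s ^ 2) : Seg r q r' (q + s) (√(r ^ 2 - q ^ 2)) := by
  have hq2 : q ^ 2 ≤ r ^ 2 := sq_le_sq' (by linarith [(abs_le.1 hq).1]) (abs_le.1 hq).2
  have e : r' ^ 2 - (q + s) ^ 2 = r ^ 2 - q ^ 2 := by rw [h]; ring
  have hp2 : √(r ^ 2 - q ^ 2) ^ 2 = r ^ 2 - q ^ 2 := Real.sq_sqrt (by linarith)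
  refine ⟨Real.sqrt_nonneg _, ?_, ?_, rfl, by rw [e], ?_, ?_⟩
  · rw [Real.sqrt_le_left hr]
    nlinarith [sq_nonneg q]
  · rw [Real.sqrt_le_left hr', ← e]
    nlinarith [sq_nonneg (q + s)]
  · intro h0
    refine ⟨by linarith, ?_⟩
    apply le_of_sq_le_sq _ hr'
    rw [h]
    nlinarith [mul_nonneg hs.le h0]
  · intro h0
    apply le_of_sq_le_sq _ hr
    rw [h]
    nlinarith

variable {r q r' q' p A B : ℝ}

theorem potR_out (h : Seg r q r' q' p) (θ : ℝ) (h0 : 0 ≤ q) :
    potR θ r' q' - potR θ r q = cc θ r' p - cc θ r p := by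
  unfold potR
  rw [if_pos h0, if_pos (h.out h0).1.le, h.e, h.e']

theorem potR_in (h : Seg r q r' q' p) (θ : ℝ) (h0 : q < 0) (h1 : q' < 0) :
    potR θ r' q' - potR θ r q = cc θ r p - cc θ r' p := by
  unfold potR
  rw [if_neg (not_le.2 h0), if_neg (not_le.2 h1), h.e, h.e']
  ring

theorem potR_inout (h : Seg r q r' q' p) (θ : ℝ) (h0 : q < 0) (h1 : 0 ≤ q') :
    potR θ r' q' - potR θ r q = cc θ r' p + cc θ r p := by
  unfold potR
  rw [if_neg (not_le.2 h0), if_pos h1, h.e, h.e']
  ring

/-- Step in the phase outside the threshold. -/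
theorem step_P (h : Seg r q r' q' p) (hr : ra ≤ r) (hA : cc 1 r 0 ≤ A) (hB : wT r ≤ B)
    (hout : 0 ≤ q → rb ≤ p) :
    St r' q' (A + (potR 1 r' q' - potR 1 r q)) (B + (potR th r' q' - potR th r q)) := by
  have hr0 : 0 < r := ra_pos.trans_le hr
  rcases le_or_gt 0 q with h0 | h0
  · rw [potR_out h 1 h0, potR_out h th h0]
    obtain ⟨h1, h2⟩ := h.out h0
    have hp := hout h0
    refine St.PO h1.le (hr.trans h2) (by rw [h.e']; exact hp) ?_ ?_
    · have := cc_super hr0 h2 le_rfl h.p0 h.pr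
      linarith
    · have := wT_out hp h.pr hr h2
      linarith
  · rcases le_or_gt p ra with h1 | h1
    · refine St.II (by rw [h.e']; exact h1) ?_
      have e : potR 1 r q = - cc 1 r p := by
        unfold potR; rw [if_neg (not_le.2 h0), h.e]
      rw [e]
      have := star_ra h.p0 h1 hr
      linarith
    · have hp : rb ≤ p := rb_le_ra.trans h1.le
      rcases lt_or_ge q' 0 with h2 | h2
      · rw [potR_in h 1 h0 h2, potR_in h th h0 h2]
        refine St.PI h2 (by rw [h.e']; exact h1) r (h.inn h2) ?_ ?_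
        · rw [h.e']; linarith
        · have := wT_in hp h.pr' (h.inn h2)
          linarith
      · rw [potR_inout h 1 h0 h2, potR_inout h th h0 h2]
        refine St.PO h2 (h1.le.trans h.pr') (by rw [h.e']; exact hp) ?_ ?_
        · have := star_two h1.le h.pr h.pr'
          linarith
        · have := wT_turn hp h.pr h.pr' hr
          linarith

/-- Step in the phase after the threshold has been visited. -/
theorem step_I (h : Seg r q r' q' p) (hr : 1 ≤ r) (h3 : r ≤ ra → cc 1 r 0 ≤ A)
    (h4 : ra ≤ r → tau + cc 1 r 1 ≤ A) (hout : 0 ≤ q → 1 ≤ p) :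
    St r' q' (A + (potR 1 r' q' - potR 1 r q)) (B + (potR th r' q' - potR th r q)) := by
  have hr0 : 0 < r := by linarith
  have hA1 : tau + cc 1 r 1 ≤ A := by
    rcases le_total r ra with h0 | h0
    · exact (tau_le hr h0).trans (h3 h0)
    · exact h4 h0
  rcases le_or_gt 0 q with h0 | h0
  · rw [potR_out h 1 h0]
    obtain ⟨h1, h2⟩ := h.out h0
    have hp := hout h0
    refine St.I (by rw [h.e']; exact hp) (Or.inl h1.le) ?_ ?_
    · intro h5
      have h6 := h3 (h2.trans h5)
      have := cc_super hr0 h2 le_rfl h.p0 h.pr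
      linarith
    · intro _
      have := cc_super hr0 h2 zero_le_one hp h.pr
      linarith
  · rcases le_or_gt p ra with h1 | h1
    · refine St.II (by rw [h.e']; exact h1) ?_
      have e : potR 1 r q = - cc 1 r p := by
        unfold potR; rw [if_neg (not_le.2 h0), h.e]
      rw [e]
      have hn := cc_nonneg hr0 h.p0 h.pr
      have hk : cc 1 ra 0 ≤ A := by
        rcases le_total r ra with h2 | h2
        · exact (rad_anti hr h2).trans (h3 h2)
        · have h5 := one_mono le_rfl h2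
          have h6 := tau_add
          linarith [h4 h2]
      linarith
    · have hra : ra < r := h1.trans_le h.pr
      have hp1 : 1 ≤ p := one_le_ra.trans h1.le
      rcases lt_or_ge q' 0 with h2 | h2
      · rw [potR_in h 1 h0 h2]
        have hrr := h.inn h2
        have hra' : ra < r' := h1.trans_le h.pr'
        refine St.I (by rw [h.e']; exact hp1) (Or.inr (by rw [h.e']; exact h1))
          (fun h5 => absurd h5 (not_le.2 hra')) ?_
        intro _
        have h6 := cc_super (ra_pos.trans hra') hrr zero_le_one hp1 h.pr'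
        have h7 := one_mono hra'.le hrr
        linarith
      · rw [potR_inout h 1 h0 h2]
        have hra' : ra < r' := h1.trans_le h.pr'
        refine St.I (by rw [h.e']; exact hp1) (Or.inl h2)
          (fun h5 => absurd h5 (not_le.2 hra')) ?_
        intro _
        have hn := cc_nonneg hr0 h.p0 h.pr
        have hn' := cc_nonneg (ra_pos.trans hra') h.p0 h.pr'
        rcases le_total r r' with h5 | h5
        · have h6 := cc_super hr0 h5 zero_le_one hp1 h.pr
          linarith
        · have h7 := one_mono hra'.le h5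
          linarith

/-- One step along a critical polygon. -/
theorem St.step {q₀ : ℝ} (st : St r q₀ A B) (hr : 0 ≤ r) (hq : |q| ≤ r) (hq₀ : |q₀| ≤ r)
    (hturn : q ≤ q₀) (hcorner : q₀ = r → q = r ∨ 2 ≤ r * (r - q))
    (hmono : potR 1 r q ≤ potR 1 r q₀) (h : Seg r q r' q' p) (hqr' : q = r → q' = r') :
    St r' q' (A + (potR 1 r' q' - potR 1 r q)) (B + (potR th r' q' - potR th r q)) := by
  have hq2 : q ^ 2 ≤ r ^ 2 := sq_le_sq' (by linarith [(abs_le.1 hq).1]) (abs_le.1 hq).2
  have hq02 : q₀ ^ 2 ≤ r ^ 2 := sq_le_sq' (by linarith [(abs_le.1 hq₀).1]) (abs_le.1 hq₀).2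
  have hp2 : p ^ 2 = r ^ 2 - q ^ 2 := by
    rw [← h.e]; exact Real.sq_sqrt (by linarith)
  cases st with
  | S h1 h2 h3 =>
    rcases hcorner h1 with h4 | h4
    · -- straight on
      have hp : p = 0 := by
        rw [h4] at hp2
        have : p ^ 2 = 0 := by rw [hp2]; ring
        exact pow_eq_zero_iff (two_ne_zero) |>.1 this
      have h5 := hqr' h4
      rw [potR_out h 1 (by rw [h4]; exact hr), potR_out h th (by rw [h4]; exact hr), hp]
      exact St.S h5 (by linarith) (by linarith)
    · have hr1 : 1 ≤ r := by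
        have := (abs_le.1 hq).1
        nlinarith
      rcases le_or_gt r ra with h5 | h5
      · refine step_I h hr1 (fun _ => h2) (fun h6 => ?_) (fun h0 => ?_)
        · have : r = ra := le_antisymm h5 h6
          rw [this] at h2 ⊢
          rw [tau_add]
          exact h2
        · have : 1 ≤ p ^ 2 := by
            rw [hp2]
            nlinarith [(abs_le.1 hq).2]
          nlinarith [h.p0]
      · refine step_P h h5.le h2 ((wT_le hr1).trans h3) (fun h0 => ?_)
        have hra : (1.61:ℝ) < r := by unfold ra at h5; linarith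
        have h6 : r * q ≤ r ^ 2 - 2 := by linarith
        have h7 : (r * q) ^ 2 ≤ (r ^ 2 - 2) ^ 2 :=
          pow_le_pow_left₀ (by positivity) h6 2
        have h8 : r ^ 2 * rb ^ 2 ≤ r ^ 2 * p ^ 2 := by
          have e : r ^ 2 * p ^ 2 = r ^ 4 - (r * q) ^ 2 := by rw [hp2]; ring
          rw [e]
          have : r ^ 2 * rb ^ 2 ≤ 4 * r ^ 2 - 4 := by
            unfold rb
            nlinarith
          nlinarith
        have h9 : rb ^ 2 ≤ p ^ 2 := le_of_mul_le_mul_left h8 (by positivity)
        exact le_of_sq_le_sq h9 h.p0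
  | PO h1 h2 h3 h4 h5 =>
    refine step_P h h2 h4 h5 (fun h0 => h3.trans ?_)
    rw [← h.e]
    apply Real.sqrt_le_sqrt
    nlinarith
  | PI h1 h2 R hR h4 h5 =>
    have h0 : q < 0 := lt_of_le_of_lt hturn h1
    have hp0r : √(r ^ 2 - q₀ ^ 2) ≤ r := by
      rw [Real.sqrt_le_left hr]
      nlinarith [sq_nonneg q₀]
    have hra : ra < r := h2.trans_le hp0r
    have hr0 : 0 < r := ra_pos.trans hra
    have hpp : p ≤ √(r ^ 2 - q₀ ^ 2) := by
      rw [← h.e]
      apply Real.sqrt_le_sqrt
      nlinarith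
    set p₀ := √(r ^ 2 - q₀ ^ 2) with hp₀
    have hkey : cc 1 R 0 + cc 1 R p ≤ A + cc 1 r p := by
      have := cc_super hr0 hR h.p0 hpp hp0r
      linarith
    rcases le_or_gt p ra with h6 | h6
    · refine St.II (by rw [h.e']; exact h6) ?_
      have e : potR 1 r q = - cc 1 r p := by
        unfold potR; rw [if_neg (not_le.2 h0), h.e]
      rw [e]
      have := star_ra h.p0 h6 (hra.le.trans hR)
      linarith
    · have hp : rb ≤ p := rb_le_ra.trans h6.le
      rcases lt_or_ge q' 0 with h7 | h7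
      · rw [potR_in h 1 h0 h7, potR_in h th h0 h7]
        refine St.PI h7 (by rw [h.e']; exact h6) R ((h.inn h7).trans hR) ?_ ?_
        · rw [h.e']; linarith
        · have := wT_in hp h.pr' (h.inn h7)
          linarith
      · rw [potR_inout h 1 h0 h7, potR_inout h th h0 h7]
        refine St.PO h7 (h6.le.trans h.pr') (by rw [h.e']; exact hp) ?_ ?_
        · have := star_two h6.le (h.pr.trans hR) h.pr'
          linarith
        · have := wT_turn hp h.pr h.pr' hra.le
          linarith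
  | I h1 h2 h3 h4 =>
    have hp0r : √(r ^ 2 - q₀ ^ 2) ≤ r := by
      rw [Real.sqrt_le_left hr]
      nlinarith [sq_nonneg q₀]
    refine step_I h (h1.trans hp0r) h3 h4 (fun h0 => h1.trans ?_)
    rw [← h.e]
    apply Real.sqrt_le_sqrt
    nlinarith
  | II h1 h2 =>
    rcases le_or_gt p ra with h3 | h3
    · exact St.II (by rw [h.e']; exact h3) (by linarith)
    · have hra : ra < r := h3.trans_le h.pr
      have hr0 : 0 < r := ra_pos.trans hra
      have h5 : q ^ 2 < q₀ ^ 2 := by
        by_contra hcon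
        push Not at hcon
        have : p ≤ √(r ^ 2 - q₀ ^ 2) := by
          rw [← h.e]
          apply Real.sqrt_le_sqrt
          linarith
        linarith
      have h6 : 0 < q₀ := by
        by_contra hcon
        push Not at hcon
        nlinarith
      have h7 : tau + cc 1 r 1 ≤ A := by
        have e : potR 1 r q₀ = cc 1 r (√(r ^ 2 - q₀ ^ 2)) := by
          unfold potR; rw [if_pos h6.le]
        rw [e] at h2
        exact (leave_ra (Real.sqrt_nonneg _) h1 hra.le).trans h2
      exact step_I h (one_le_ra.trans hra.le) (fun h8 => absurd h8 (not_le.2 hra)) (fun _ => h7)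
        (fun _ => one_le_ra.trans h3.le)

end Pool.Agent.EscapeBall
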