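import Pool.Agent.Work.MP_7cd6c4_gt.Cert
import Pool.Agent.Work.MP_7cd6c4_gt.Curve

open MeasureTheory Set Real
open scoped RealInnerProductSpace ENNReal

namespace Pool.Agent.EscapeBall

theorem tdot_comm (p q : ℝ × ℝ × ℝ) : tdot p q = tdot q p := by
  simp only [tdot]; ring

theorem tdot_sq_le (p q : ℝ × ℝ × ℝ) : tdot p q ^ 2 ≤ tdot p p * tdot q q := by
  simp only [tdot]
  nlinarith [sq_nonneg (p.1 * q.2.1 - p.2.1 * q.1), sq_nonneg (p.1 * q.2.2 - p.2.2 * q.1),
    sq_nonneg (p.2.1 * q.2.2 - p.2.2 * q.2.1)]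

/-- Expansion of `tdot n u` with respect to the basis `A, B, C`. -/
theorem tdot_expand (A B C u n : ℝ × ℝ × ℝ) :
    tdot (tnrm A B C) A * tdot n u = tdot (tcross B C) u * tdot n A +
      tdot (tcross C A) u * tdot n B + tdot (tcross A B) u * tdot n C := by
  simp only [tdot, tnrm, tcross, tsub]
  ring

theorem tnrm_dot (A B C : ℝ × ℝ × ℝ) (u : ℝ × ℝ × ℝ) :
    tdot (tnrm A B C) u = tdot (tcross B C) u + tdot (tcross C A) u + tdot (tcross A B) u := by
  simp only [tdot, tnrm, tcross, tsub]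
  ring

theorem coef_nonneg {D a b c na d N : ℝ} (hD : 0 < D) (hd : 0 < d) (hN : N = a + b + c)
    (hlt : na < d) (h : (a * na + b * d + c * d) / D / d ≤ N / D) : 0 ≤ a := by
  rw [hN, div_right_comm, div_le_div_iff_of_pos_right hD, div_le_iff₀ hd] at h
  have : 0 ≤ a * (d - na) := by nlinarith
  exact nonneg_of_mul_nonneg_left this (by linarith)

theorem facet_real (A B C u n₁ n₂ n₃ : ℝ × ℝ × ℝ) (d₁ d₂ d₃ q : ℝ) (hq : 0 < q)
    (hD : 0 < tdot (tnrm A B C) A) (hd₁ : 0 < d₁) (hd₂ : 0 < d₂) (hd₃ : 0 < d₃)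
    (h1b : tdot n₁ B = d₁) (h1c : tdot n₁ C = d₁) (h1a : tdot n₁ A < d₁)
    (h2a : tdot n₂ A = d₂) (h2c : tdot n₂ C = d₂) (h2b : tdot n₂ B < d₂)
    (h3a : tdot n₃ A = d₃) (h3b : tdot n₃ B = d₃) (h3c : tdot n₃ C < d₃)
    (h1u : tdot n₁ u / d₁ ≤ tdot (tnrm A B C) u / tdot (tnrm A B C) A)
    (h2u : tdot n₂ u / d₂ ≤ tdot (tnrm A B C) u / tdot (tnrm A B C) A)
    (h3u : tdot n₃ u / d₃ ≤ tdot (tnrm A B C) u / tdot (tnrm A B C) A)
    (hn : q ^ 2 * tdot (tnrm A B C) (tnrm A B C) ≤ tdot (tnrm A B C) A ^ 2)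
    (hu : tdot u u = 1) : q ≤ tdot A u ∨ q ≤ tdot B u ∨ q ≤ tdot C u := by
  have e1 := tdot_expand A B C u n₁
  have e2 := tdot_expand A B C u n₂
  have e3 := tdot_expand A B C u n₃
  have eu := tdot_expand A B C u u
  have eN := tnrm_dot A B C u
  have hcs := tdot_sq_le (tnrm A B C) u
  generalize tdot (tcross B C) u = a at e1 e2 e3 eu eN
  generalize tdot (tcross C A) u = b at e1 e2 e3 eu eN
  generalize tdot (tcross A B) u = c at e1 e2 e3 eu eN
  generalize tdot (tnrm A B C) A = D at *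
  generalize tdot (tnrm A B C) u = Nu at *
  generalize tdot (tnrm A B C) (tnrm A B C) = NN at *
  have f1 : tdot n₁ u = (a * tdot n₁ A + b * d₁ + c * d₁) / D := by
    rw [eq_div_iff hD.ne', mul_comm, e1, h1b, h1c]
  have f2 : tdot n₂ u = (b * tdot n₂ B + a * d₂ + c * d₂) / D := by
    rw [eq_div_iff hD.ne', mul_comm, e2, h2a, h2c]; ring
  have f3 : tdot n₃ u = (c * tdot n₃ C + a * d₃ + b * d₃) / D := by
    rw [eq_div_iff hD.ne', mul_comm, e3, h3a, h3b]; ring
  rw [f1] at h1u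
  rw [f2] at h2u
  rw [f3] at h3u
  have ha : 0 ≤ a := coef_nonneg hD hd₁ eN h1a h1u
  have hb : 0 ≤ b := coef_nonneg hD hd₂ (by rw [eN]; ring) h2b h2u
  have hc : 0 ≤ c := coef_nonneg hD hd₃ (by rw [eN]; ring) h3c h3u
  by_contra hcon
  push Not at hcon
  obtain ⟨g1, g2, g3⟩ := hcon
  rw [hu, mul_one, tdot_comm u A, tdot_comm u B, tdot_comm u C] at eu
  have hsum : 0 < a + b + c := by
    by_contra h0
    push Not at h0
    have ha0 : a = 0 := by linarith
    have hb0 : b = 0 := by linarith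
    have hc0 : c = 0 := by linarith
    rw [ha0, hb0, hc0] at eu
    linarith
  have hlt : D < q * (a + b + c) := by
    generalize tdot A u = x at g1 eu
    generalize tdot B u = y at g2 eu
    generalize tdot C u = z at g3 eu
    have i1 : 0 ≤ a * (q - x) := mul_nonneg ha (by linarith)
    have i2 : 0 ≤ b * (q - y) := mul_nonneg hb (by linarith)
    have i3 : 0 ≤ c * (q - z) := mul_nonneg hc (by linarith)
    have key : q * (a + b + c) - D = a * (q - x) + b * (q - y) + c * (q - z) := by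
      rw [eu]; ring
    have hpos : 0 < a * (q - x) + b * (q - y) + c * (q - z) := by
      rcases lt_or_eq_of_le ha with h | h
      · have : 0 < a * (q - x) := mul_pos h (by linarith)
        linarith
      · rcases lt_or_eq_of_le hb with h' | h'
        · have : 0 < b * (q - y) := mul_pos h' (by linarith)
          linarith
        · have h'' : 0 < c := by rw [← h, ← h'] at hsum; linarith
          have : 0 < c * (q - z) := mul_pos h'' (by linarith)
          linarith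
    linarith
  rw [← eN] at hlt
  rw [hu, mul_one] at hcs
  have h1 : (q * Nu) ^ 2 ≤ D ^ 2 := by
    rw [mul_pow]
    exact (mul_le_mul_of_nonneg_left hcs (by positivity)).trans hn
  have h2 := abs_le_of_sq_le_sq h1 hD.le
  have h3 := (abs_le.1 h2).2
  linarith

/-- Cast of an integer triple. -/
def toR (p : ℤ × ℤ × ℤ) : ℝ × ℝ × ℝ := ((p.1 : ℝ), (p.2.1 : ℝ), (p.2.2 : ℝ))

theorem tdot_cast (p q : ℤ × ℤ × ℤ) : ((tdot p q : ℤ) : ℝ) = tdot (toR p) (toR q) := by
  simp [tdot, toR]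

theorem tnrm_cast (a b c : ℤ × ℤ × ℤ) : toR (tnrm a b c) = tnrm (toR a) (toR b) (toR c) := by
  simp [tnrm, tcross, tsub, toR]

/-- The certified covering property. -/
theorem cover (u : ℝ × ℝ × ℝ) (hu : tdot u u = 1) :
    ∃ i ≤ 180, (1000000 : ℝ) ≤ tdot (toR (vtx i)) u := by
  let F : ℕ → ℝ := fun k => tdot (toR (fnrm k)) u / (foff k : ℝ)
  obtain ⟨k, hk, hmax⟩ := Finset.exists_max_image (Finset.range 356) F ⟨0, by simp⟩
  have hall := okF_all
  rw [List.all_eq_true] at hall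
  have hok : ∀ k < 356, okF k = true := fun k hk => hall k (List.mem_range.2 hk)
  have hpos : ∀ k < 356, 0 < foff k := by
    intro k hk
    have := hok k hk
    simp only [okF, Bool.and_eq_true, decide_eq_true_eq] at this
    exact this.1.1.1
  rw [Finset.mem_range] at hk
  have h := hok k hk
  simp only [okF, okNb, Bool.and_eq_true, decide_eq_true_eq, facets_length] at h
  obtain ⟨⟨⟨h0, hn⟩, ⟨ia, ib⟩, ic⟩, ⟨⟨⟨⟨g1, g1b⟩, g1c⟩, g1a⟩, ⟨⟨g2, g2a⟩, g2c⟩, g2b⟩,
    ⟨⟨g3, g3a⟩, g3b⟩, g3c⟩ := h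
  have hm1 := hmax _ (Finset.mem_range.2 g1)
  have hm2 := hmax _ (Finset.mem_range.2 g2)
  have hm3 := hmax _ (Finset.mem_range.2 g3)
  have p1 := hpos _ g1
  have p2 := hpos _ g2
  have p3 := hpos _ g3
  simp only [F] at hm1 hm2 hm3
  have hfo : (foff k : ℝ) = tdot (tnrm (toR (vtx (fct k).1)) (toR (vtx (fct k).2.1))
      (toR (vtx (fct k).2.2.1))) (toR (vtx (fct k).1)) := by
    rw [foff, tdot_cast, fnrm, tnrm_cast]
  have hfn : toR (fnrm k) = tnrm (toR (vtx (fct k).1)) (toR (vtx (fct k).2.1))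
      (toR (vtx (fct k).2.2.1)) := by
    rw [fnrm, tnrm_cast]
  rw [hfo, hfn] at hm1 hm2 hm3
  have res := facet_real (toR (vtx (fct k).1)) (toR (vtx (fct k).2.1)) (toR (vtx (fct k).2.2.1)) u
    (toR (fnrm (fct k).2.2.2.1)) (toR (fnrm (fct k).2.2.2.2.1)) (toR (fnrm (fct k).2.2.2.2.2))
    (foff (fct k).2.2.2.1) (foff (fct k).2.2.2.2.1) (foff (fct k).2.2.2.2.2) 1000000 (by norm_num)
    (by rw [← hfo]; exact_mod_cast h0) (by exact_mod_cast p1) (by exact_mod_cast p2)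
    (by exact_mod_cast p3)
    (by rw [← tdot_cast]; exact_mod_cast g1b) (by rw [← tdot_cast]; exact_mod_cast g1c)
    (by rw [← tdot_cast]; exact_mod_cast g1a)
    (by rw [← tdot_cast]; exact_mod_cast g2a) (by rw [← tdot_cast]; exact_mod_cast g2c)
    (by rw [← tdot_cast]; exact_mod_cast g2b)
    (by rw [← tdot_cast]; exact_mod_cast g3a) (by rw [← tdot_cast]; exact_mod_cast g3b)
    (by rw [← tdot_cast]; exact_mod_cast g3c)
    hm1 hm2 hm3
    (by
      rw [← hfo, ← hfn, ← tdot_cast]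
      have := hn
      simp only [den] at this
      exact_mod_cast this) hu
  rcases res with h | h | h
  · exact ⟨_, ia, h⟩
  · exact ⟨_, ib, h⟩
  · exact ⟨_, ic, h⟩

/-- The vertex as a point of Euclidean space. -/
noncomputable def vpt (i : ℕ) : E3 :=
  WithLp.toLp 2 ![((vtx i).1 : ℝ) / 1000000, ((vtx i).2.1 : ℝ) / 1000000, ((vtx i).2.2 : ℝ) / 1000000]

theorem vpt_zero : vpt 0 = 0 := by
  ext i
  simp only [vpt, vtx_zero]
  fin_cases i <;> simp

theorem inner_vpt (i : ℕ) (u : E3) :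
    ⟪vpt i, u⟫ = tdot (toR (vtx i)) (u 0, u 1, u 2) / 1000000 := by
  simp only [vpt, tdot, toR, PiLp.inner_apply, Fin.sum_univ_three]
  simp
  ring

theorem sees_vpt : Sees 180 vpt := by
  intro u hu
  have h1 : tdot (u 0, u 1, u 2) (u 0, u 1, u 2) = 1 := by
    have : ‖u‖ ^ 2 = 1 := by rw [hu]; norm_num
    rw [EuclideanSpace.norm_sq_eq, Fin.sum_univ_three] at this
    simp only [Real.norm_eq_abs, sq_abs] at this
    simp only [tdot]
    linarith
  obtain ⟨i, hi, h⟩ := cover (u 0, u 1, u 2) h1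
  refine ⟨i, hi, ?_⟩
  rw [inner_vpt, le_div_iff₀ (by norm_num)]
  linarith

theorem dist_vpt_le (i : ℕ) (hi : i < 180) :
    dist (vpt i) (vpt (i + 1)) ≤ (edges.getD i 0 : ℝ) / 1000000 := by
  have hall := okE_all
  rw [List.all_eq_true] at hall
  have h := hall i (List.mem_range.2 hi)
  simp only [okE, Bool.and_eq_true, decide_eq_true_eq] at h
  obtain ⟨h0, h1⟩ := h
  rw [dist_comm, EuclideanSpace.dist_eq, Fin.sum_univ_three]
  apply Real.sqrt_le_iff.2
  constructor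
  · have : (0:ℝ) ≤ (edges.getD i 0 : ℝ) := by exact_mod_cast h0
    positivity
  · have h2 : ((tdot (tsub (vtx (i + 1)) (vtx i)) (tsub (vtx (i + 1)) (vtx i)) : ℤ) : ℝ) ≤
        (edges.getD i 0 : ℝ) ^ 2 := by exact_mod_cast h1
    simp only [tdot, tsub] at h2
    push_cast at h2
    have v0 : ∀ j, vpt j 0 = ((vtx j).1 : ℝ) / 1000000 := fun _ => rfl
    have v1 : ∀ j, vpt j 1 = ((vtx j).2.1 : ℝ) / 1000000 := fun _ => rfl
    have v2 : ∀ j, vpt j 2 = ((vtx j).2.2 : ℝ) / 1000000 := fun _ => rfl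
    simp only [v0, v1, v2, Real.dist_eq, sq_abs]
    rw [div_pow]
    have e : ((((vtx (i + 1)).1 : ℝ) / 1000000 - ((vtx i).1 : ℝ) / 1000000) ^ 2 +
        (((vtx (i + 1)).2.1 : ℝ) / 1000000 - ((vtx i).2.1 : ℝ) / 1000000) ^ 2 +
        (((vtx (i + 1)).2.2 : ℝ) / 1000000 - ((vtx i).2.2 : ℝ) / 1000000) ^ 2) =
        ((((vtx (i + 1)).1 : ℝ) - (vtx i).1) * (((vtx (i + 1)).1 : ℝ) - (vtx i).1) +
        (((vtx (i + 1)).2.1 : ℝ) - (vtx i).2.1) * (((vtx (i + 1)).2.1 : ℝ) - (vtx i).2.1) +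
        (((vtx (i + 1)).2.2 : ℝ) - (vtx i).2.2) * (((vtx (i + 1)).2.2 : ℝ) - (vtx i).2.2)) /
        1000000 ^ 2 := by
      field_simp
    rw [e]
    apply div_le_div_of_nonneg_right _ (by norm_num)
    linarith

theorem len_vpt : len 180 vpt ≤ 11.573 := by
  unfold len
  refine (Finset.sum_le_sum fun i hi => dist_vpt_le i (Finset.mem_range.1 hi)).trans ?_
  rw [← Finset.sum_div]
  have h := edges_sum
  have h2 : ∑ i ∈ Finset.range 180, (edges.getD i 0 : ℝ) =
      (((List.range 180).map fun i => edges.getD i 0).sum : ℤ) := by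
    rw [← List.sum_toFinset _ (List.nodup_range), List.toFinset_range]
    push_cast
    rfl
  rw [h2]
  have h3 : ((((List.range 180).map fun i => edges.getD i 0).sum : ℤ) : ℝ) ≤ 11573000 := by
    exact_mod_cast h
  rw [div_le_iff₀ (by norm_num)]
  linarith

end Pool.Agent.EscapeBall
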