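import Pool.Agent.Work.MP_7cd6c4_gt.Cyl
import Pool.Agent.Work.MP_7cd6c4_gt.Sector

open MeasureTheory Set Real
open scoped RealInnerProductSpace ENNReal

namespace Pool.Agent.EscapeBall

/-- The nonzero vectors of the unit ball whose direction `u` satisfies `⟪x, u⟫ ≥ 1`. -/
def cap (x : E3) : Set E3 := {v | v ≠ 0 ∧ ‖v‖ ≤ 1 ∧ ‖v‖ ≤ ⟪x, v⟫}

theorem measurableSet_cap (x : E3) : MeasurableSet (cap x) := by
  have : cap x = ({0}ᶜ : Set E3) ∩ ({v | ‖v‖ ≤ 1} ∩ {v | ‖v‖ ≤ ⟪x, v⟫}) := by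
    ext v; simp [cap]
  rw [this]
  refine (measurableSet_singleton _).compl.inter (MeasurableSet.inter ?_ ?_)
  · exact measurableSet_le (f := fun v : E3 => ‖v‖) (g := fun _ => (1:ℝ)) (by fun_prop) (by fun_prop)
  · exact measurableSet_le (f := fun v : E3 => ‖v‖) (g := fun v => ⟪x, v⟫) (by fun_prop)
      (by fun_prop)

theorem measurableSet_neg (d : E3) : MeasurableSet {v : E3 | ⟪d, v⟫ < 0} :=
  measurableSet_lt (f := fun v : E3 => ⟪d, v⟫) (g := fun _ => (0:ℝ)) (by fun_prop) (by fun_prop)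

theorem norm_sq_pt (b : OrthonormalBasis (Fin 3) ℝ E3) (x y z : ℝ) :
    ‖pt b x y z‖ ^ 2 = x ^ 2 + y ^ 2 + z ^ 2 := by
  rw [pt_eq, LinearIsometryEquiv.norm_map, EuclideanSpace.norm_sq_eq]
  simp [Fin.sum_univ_three]

theorem inner_pt (b : OrthonormalBasis (Fin 3) ℝ E3) (x y z : ℝ) (i : Fin 3) :
    ⟪b i, pt b x y z⟫ = ![x, y, z] i := by
  rw [← b.repr_apply_apply, pt_eq, LinearIsometryEquiv.apply_symm_apply]

theorem mem_wedge_iff (b : OrthonormalBasis (Fin 3) ℝ E3) {r ψ : ℝ} (hr : 0 ≤ r) (hψ0 : 0 ≤ ψ)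
    (hψ : ψ ≤ π) {ρ φ z : ℝ} (hρ : 0 < ρ) (hφ : φ ∈ Ioo (-π) π) :
    (pt b (ρ * cos φ) (ρ * sin φ) z ∈ cap (r • b 1) ∧
      ⟪(-sin ψ) • b 0 + cos ψ • b 1, pt b (ρ * cos φ) (ρ * sin φ) z⟫ < 0) ↔
    (φ ∈ Ioo 0 ψ ∧ ρ ∈ sec (r * sin φ) z) := by
  set v := pt b (ρ * cos φ) (ρ * sin φ) z with hv
  have hn : ‖v‖ ^ 2 = ρ ^ 2 + z ^ 2 := by
    rw [hv, norm_sq_pt]
    have := Real.sin_sq_add_cos_sq φ
    linear_combination (ρ ^ 2) * this
  have hn0 : 0 < ‖v‖ := by
    have : 0 < ‖v‖ ^ 2 := by rw [hn]; positivity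
    exact lt_of_le_of_ne (norm_nonneg _) (fun h => by rw [← h] at this; simp at this)
  have hne : v ≠ 0 := norm_pos_iff.1 hn0
  have hx : ⟪r • b 1, v⟫ = r * (ρ * sin φ) := by
    rw [real_inner_smul_left, hv, inner_pt]; simp
  have hd : ⟪(-sin ψ) • b 0 + cos ψ • b 1, v⟫ = ρ * sin (φ - ψ) := by
    rw [inner_add_left, real_inner_smul_left, real_inner_smul_left, hv, inner_pt, inner_pt,
      Real.sin_sub]
    simp
    ring
  rw [hd]
  simp only [cap, mem_ofPred_eq, hx, sec, mem_Ioo]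
  constructor
  · rintro ⟨⟨-, h1, h2⟩, h3⟩
    have hs : 0 < r * (ρ * sin φ) := lt_of_lt_of_le hn0 h2
    have hs' : 0 < sin φ := by
      by_contra hcon
      push Not at hcon
      have : r * (ρ * sin φ) ≤ 0 := by
        have : ρ * sin φ ≤ 0 := by nlinarith
        nlinarith
      linarith
    have hφ0 : 0 < φ := by
      by_contra hcon
      push Not at hcon
      have := Real.sin_nonpos_of_nonpos_of_neg_pi_le hcon hφ.1.le
      linarith
    have hφψ : φ < ψ := by
      by_contra hcon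
      push Not at hcon
      have : 0 ≤ sin (φ - ψ) := Real.sin_nonneg_of_nonneg_of_le_pi (by linarith) (by linarith [hφ.2])
      nlinarith
    refine ⟨⟨hφ0, hφψ⟩, hρ, ?_, ?_⟩
    · nlinarith [norm_nonneg v]
    · have := pow_le_pow_left₀ (norm_nonneg v) h2 2
      rw [hn] at this
      linarith
  · rintro ⟨⟨h1, h2⟩, -, h3, h4⟩
    have hs' : 0 < sin φ := Real.sin_pos_of_pos_of_lt_pi h1 (by linarith)
    refine ⟨⟨hne, ?_, ?_⟩, ?_⟩
    · rw [← hn] at h3
      nlinarith [norm_nonneg v]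
    · rw [← hn] at h4
      apply le_of_sq_le_sq _ (by positivity)
      linarith
    · have : sin (φ - ψ) < 0 := Real.sin_neg_of_neg_of_neg_pi_lt (by linarith) (by linarith)
      nlinarith

theorem volume_wedge_std (b : OrthonormalBasis (Fin 3) ℝ E3) {r ψ : ℝ} (hr : 0 ≤ r) (hψ0 : 0 ≤ ψ)
    (hψ : ψ ≤ π) :
    volume (cap (r • b 1) ∩ {v | ⟪(-sin ψ) • b 0 + cos ψ • b 1, v⟫ < 0}) =
      ∫⁻ φ in Ioo 0 ψ, ENNReal.ofReal (2 / 3 * gf (r * sin φ)) := by
  set S := cap (r • b 1) ∩ {v | ⟪(-sin ψ) • b 0 + cos ψ • b 1, v⟫ < 0} with hS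
  have hSm : MeasurableSet S := (measurableSet_cap _).inter (measurableSet_neg _)
  rw [← lintegral_indicator_one hSm, lintegral_cyl b _ (measurable_one.indicator hSm)]
  -- the set in cylindrical coordinates
  let T : Set (ℝ × (ℝ × ℝ)) := {w | w.2.2 ∈ Ioo 0 ψ ∧ w.2.1 ∈ sec (r * sin w.2.2) w.1}
  have hT : MeasurableSet T := by
    have : T = {w : ℝ × (ℝ × ℝ) | 0 < w.2.2 ∧ w.2.2 < ψ ∧ 0 < w.2.1 ∧
        w.2.1 ^ 2 + w.1 ^ 2 ≤ 1 ∧ w.2.1 ^ 2 + w.1 ^ 2 ≤ (r * sin w.2.2) ^ 2 * w.2.1 ^ 2} := by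
      ext w; simp [T, sec, and_assoc]
    rw [this]
    apply Measurable.setOf
    fun_prop
  let G : ℝ × (ℝ × ℝ) → ℝ≥0∞ := T.indicator fun w => ENNReal.ofReal w.2.1
  have hG : Measurable G := by
    apply Measurable.indicator _ hT
    fun_prop
  have h1 : ∀ z : ℝ, ∫⁻ p in polarCoord.target, ENNReal.ofReal p.1 *
      S.indicator 1 (pt b (p.1 * cos p.2) (p.1 * sin p.2) z) = ∫⁻ φ, ∫⁻ ρ, G (z, (ρ, φ)) := by
    intro z
    rw [← lintegral_indicator polarCoord.open_target.measurableSet]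
    have h2 : ∀ p : ℝ × ℝ, polarCoord.target.indicator (fun p => ENNReal.ofReal p.1 *
      S.indicator 1 (pt b (p.1 * cos p.2) (p.1 * sin p.2) z)) p = G (z, p) := by
      rintro ⟨ρ, φ⟩
      by_cases hp : (ρ, φ) ∈ polarCoord.target
      · rw [indicator_of_mem hp]
        have hp' : 0 < ρ ∧ φ ∈ Ioo (-π) π := by
          rw [polarCoord_target] at hp; exact ⟨hp.1, hp.2⟩
        have hiff := mem_wedge_iff b hr hψ0 hψ (z := z) hp'.1 hp'.2
        by_cases hm : pt b (ρ * cos φ) (ρ * sin φ) z ∈ S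
        · have hT' : ((z, (ρ, φ)) : ℝ × (ℝ × ℝ)) ∈ T := hiff.1 hm
          simp only [G]
          rw [indicator_of_mem hm, indicator_of_mem hT']
          simp
        · have hT' : ((z, (ρ, φ)) : ℝ × (ℝ × ℝ)) ∉ T := fun h => hm (hiff.2 h)
          simp only [G]
          rw [indicator_of_notMem hm, indicator_of_notMem hT']
          simp
      · rw [indicator_of_notMem hp]
        have hT' : ((z, (ρ, φ)) : ℝ × (ℝ × ℝ)) ∉ T := by
          intro h
          apply hp
          rw [polarCoord_target]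
          exact ⟨h.2.1, by
            constructor
            · have := h.1.1
              simp only at this ⊢
              linarith [Real.pi_pos]
            · have := h.1.2
              simp only at this ⊢
              linarith⟩
        simp only [G]
        rw [indicator_of_notMem hT']
    simp_rw [h2]
    rw [Measure.volume_eq_prod, lintegral_prod_symm]
    exact (hG.comp (by fun_prop : Measurable fun p : ℝ × ℝ => (z, p))).aemeasurable
  simp_rw [h1]
  rw [lintegral_lintegral_swap]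
  · rw [← lintegral_indicator measurableSet_Ioo]
    refine lintegral_congr fun φ => ?_
    by_cases hφ : φ ∈ Ioo 0 ψ
    · rw [indicator_of_mem hφ]
      have hs : 0 ≤ r * sin φ := mul_nonneg hr
        (Real.sin_nonneg_of_nonneg_of_le_pi hφ.1.le (hφ.2.le.trans hψ))
      rw [← sec_total hs]
      refine lintegral_congr fun z => ?_
      rw [← lintegral_indicator (measurableSet_sec _ _)]
      refine lintegral_congr fun ρ => ?_
      simp only [G, T, indicator]
      congr 1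
      simp [hφ.1, hφ.2]
    · rw [indicator_of_notMem hφ]
      have : ∀ z ρ, G (z, (ρ, φ)) = 0 := by
        intro z ρ
        simp only [G]
        rw [indicator_of_notMem]
        intro h
        exact hφ h.1
      simp [this]
  · apply Measurable.aemeasurable
    have : Measurable fun w : (ℝ × ℝ) × ℝ => G (w.1.1, (w.2, w.1.2)) :=
      hG.comp (by fun_prop)
    exact this.lintegral_prod_right'

end Pool.Agent.EscapeBall
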